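import Pool.Agent.V11118.Survival

/-!
Tools for showing that the survival number is infinite.
-/

namespace Pool.Agent.V11118.Survival

open SimpleGraph

variable {V : Type*} {G : SimpleGraph V}

/-- All but finitely many vertices are beaten by a site with infinite cell. -/
theorem beaten {T : Finset V} {v : V} (hv : v ∈ T) (hfin : (Cell G T v).Finite) :
    ∃ B : Set V, B.Finite ∧ ∀ u, u ∉ B → ∃ w ∈ T, (Cell G T w).Infinite ∧
      G.dist u w < G.dist u v := by
  classical
  have hB : (⋃ w ∈ T.filter (fun w => (Cell G T w).Finite), Cell G T w).Finite := by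
    apply Set.Finite.biUnion (T.filter (fun w => (Cell G T w).Finite)).finite_toSet
    intro w hw
    simp only [Finset.coe_filter, Set.mem_ofPred_eq] at hw
    exact hw.2
  refine ⟨_, hB, fun u hu => ?_⟩
  simp only [Finset.mem_filter, Set.mem_iUnion, not_exists] at hu
  obtain ⟨w, hw, hcell⟩ := exists_cell (G := G) ⟨v, hv⟩ u
  have hinf : (Cell G T w).Infinite := fun h => hu w ⟨hw, h⟩ hcell
  refine ⟨w, hw, hinf, ?_⟩
  have hnv : u ∉ Cell G T v := hu v ⟨hv, hfin⟩
  by_contra hcon
  apply hnv
  intro z hz
  have h1 : G.dist u w ≤ G.dist u z := hcell z hz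
  omega

theorem I_eq_card {T : Finset V} (h : ∀ v ∈ T, (Cell G T v).Infinite) : I G T = T.card := by
  unfold I
  have : {v : V | v ∈ T ∧ (Cell G T v).Infinite} = (T : Set V) := by
    ext v
    constructor
    · rintro ⟨h1, _⟩; exact h1
    · intro h1; exact ⟨h1, h v h1⟩
  rw [this, Set.ncard_coe_finset]

/-- To bound `I T` from below we may assume that some cell is finite. -/
theorem le_I {T : Finset V} {n : ℕ} (hn : n ≤ T.card)
    (h : ∀ v ∈ T, (Cell G T v).Finite → n ≤ I G T) : n ≤ I G T := by
  by_cases hall : ∀ v ∈ T, (Cell G T v).Infinite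
  · rw [I_eq_card hall]; exact hn
  · push Not at hall
    obtain ⟨v, hv, hfin⟩ := hall
    exact h v hv hfin

/-- The sites with infinite cell, as a finset of size `I T`. -/
theorem exists_sites (T : Finset V) : ∃ S : Finset V, S.card = I G T ∧
    ∀ w, w ∈ S ↔ w ∈ T ∧ (Cell G T w).Infinite := by
  classical
  refine ⟨T.filter (fun w => (Cell G T w).Infinite), ?_, fun w => by simp⟩
  unfold I
  rw [← Set.ncard_coe_finset]
  congr 1
  ext w
  simp

/-- An enumeration of a finset. -/
theorem exists_enum {V : Type*} (S : Finset V) : ∃ f : V → ℕ, Set.InjOn f S ∧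
    ∀ w ∈ S, f w < S.card := by
  classical
  refine ⟨fun w => if h : w ∈ S then (S.equivFin ⟨w, h⟩ : ℕ) else 0, ?_, ?_⟩
  · intro a ha b hb hab
    simp only [Finset.mem_coe] at ha hb
    simp only [ha, hb, dite_true] at hab
    have := S.equivFin.injective (Fin.ext hab)
    simpa using this
  · intro w hw
    simp only [hw, dite_true]
    exact Fin.is_lt _

end Pool.Agent.V11118.Survival
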