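import Pool.Agent.V11118.Tree
import Pool.Agent.V11118.Survival2

/-!
The Cartesian product of the 3-regular tree and `ℤ` has infinite survival number.
-/

namespace Pool.Agent.V11118.BoxTree

open SimpleGraph Pool.Agent.V11118.Survival Pool.Agent.V11118.Products Pool.Agent.V11118.Tree

/-- Lower bounds for tree distances. -/
theorem tree_lower (u w : TV) :
    |u.p - w.p| ≤ (TG.dist u w : ℤ) ∧ ∀ z : ℤ, z < u.p → z < w.p → ¬ (z ∈ u.A ↔ z ∈ w.A) →
      u.p + w.p - 2 * z ≤ (TG.dist u w : ℤ) := by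
  refine dist_invariant connected (v := w)
    (fun n u => |u.p - w.p| ≤ (n : ℤ) ∧ ∀ z : ℤ, z < u.p → z < w.p → ¬ (z ∈ u.A ↔ z ∈ w.A) →
      u.p + w.p - 2 * z ≤ (n : ℤ)) ⟨by simp, fun z _ _ h => absurd Iff.rfl h⟩ ?_ u
  rintro n x y ⟨h1, h2⟩ hadj
  rw [abs_le] at h1
  refine ⟨?_, ?_⟩
  · rw [abs_le]
    push_cast
    rcases hadj with h | h <;> have := h.1 <;> omega
  · intro z hz1 hz2 hne
    push_cast
    rcases hadj with h | h
    · have hp := h.1
      by_cases hzx : z < x.p
      · have := h2 z hzx hz2 (by rw [← h.2 z hzx]; exact hne)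
        omega
      · omega
    · have hp := h.1
      have := h2 z (by omega) hz2 (by rw [h.2 z hz1]; exact hne)
      omega

/-- Climbing. -/
theorem tree_climb (u w : TV) (h : w.p ≤ u.p) (hA : ∀ x, x < w.p → (x ∈ u.A ↔ x ∈ w.A)) :
    (TG.dist u w : ℤ) ≤ u.p - w.p := by
  obtain ⟨k, hk⟩ := Int.eq_ofNat_of_zero_le (show 0 ≤ u.p - w.p by omega)
  obtain ⟨p, hp⟩ := walk_down u k
  have he : down u k = w := by
    ext x
    · simp only [down]; omega
    · simp only [down, Finset.mem_filter]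
      constructor
      · rintro ⟨h1, h2⟩
        exact (hA x (by omega)).mp h1
      · intro h1
        have := w.lt x h1
        exact ⟨(hA x this).mpr h1, by omega⟩
  have := SimpleGraph.dist_le p
  rw [hp, he] at this
  omega

theorem forced (n : ℕ) : Forced (boxZ TG) n := by
  classical
  refine ⟨2 * n, fun T hT => ?_⟩
  obtain ⟨hcard, hsep⟩ := hT
  refine le_I hcard ?_
  rintro ⟨v, c⟩ hv hfin
  obtain ⟨B, hB, hbeat⟩ := beaten hv hfin
  obtain ⟨S, hScard, hS⟩ := exists_sites (G := boxZ TG) T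
  obtain ⟨f, hfinj, hflt⟩ := exists_enum S
  rw [← hScard]
  by_contra hcon
  rw [not_le] at hcon
  -- the diagonal set
  set X : Finset ℤ := v.A ∪ (S.image (fun w => v.p + (f w : ℤ))).filter
    (fun z => ∃ w ∈ S, z = v.p + f w ∧ z ∉ w.1.A) with hX
  have hXlt : ∀ m : ℕ, S.card ≤ m → ∀ x ∈ X, x < v.p + m := by
    intro m hm x hx
    rw [hX, Finset.mem_union, Finset.mem_filter, Finset.mem_image] at hx
    rcases hx with h | ⟨⟨w, hw, rfl⟩, _⟩
    · have := v.lt x h; omega
    · have := hflt w hw; omega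
  have hXlow : ∀ x, x < v.p → (x ∈ X ↔ x ∈ v.A) := by
    intro x hx
    rw [hX, Finset.mem_union, Finset.mem_filter, Finset.mem_image]
    constructor
    · rintro (h | ⟨⟨w, hw, rfl⟩, _⟩)
      · exact h
      · omega
    · exact Or.inl
  have hXdiff : ∀ w ∈ S, ¬ (v.p + (f w : ℤ) ∈ X ↔ v.p + (f w : ℤ) ∈ w.1.A) := by
    intro w hw hiff
    rw [hX, Finset.mem_union, Finset.mem_filter, Finset.mem_image] at hiff
    by_cases hmem : v.p + (f w : ℤ) ∈ w.1.A
    · rcases hiff.mpr hmem with h | ⟨_, w', hw', h1, h2⟩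
      · have := v.lt _ h; omega
      · have : f w = f w' := by omega
        have := hfinj hw hw' this
        subst this
        exact h2 hmem
    · exact hmem (hiff.mp (Or.inr ⟨⟨w, hw, rfl⟩, w, hw, rfl, hmem⟩))
  let U : ℕ → TV × ℤ := fun m => (⟨v.p + ((S.card + m : ℕ) : ℤ), X, hXlt _ (by omega)⟩, c)
  have hUinj : Function.Injective U := by
    intro m m' h
    have := congrArg (fun u : TV × ℤ => u.1.p) h
    simp only [U] at this
    push_cast at this
    omega
  obtain ⟨_, ⟨m, rfl⟩, hm⟩ : ∃ u ∈ Set.range U, u ∉ B := by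
    by_contra hcon2
    push Not at hcon2
    exact (Set.infinite_range_of_injective hUinj) (hB.subset hcon2)
  obtain ⟨w, hw, hinf, hlt⟩ := hbeat _ hm
  have hwS : w ∈ S := (hS w).mpr ⟨hw, hinf⟩
  have hwv : w ≠ (v, c) := by
    rintro rfl
    exact hinf hfin
  have hsepw := hsep _ hv w hw hwv.symm
  have hup := box_dist_le connected (U m) (v, c)
  have hlow := le_box_dist connected (U m) w
  obtain ⟨y, b⟩ := w
  have hclimb := tree_climb (U m).1 v (by simp only [U]; omega) (by
    intro x hx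
    exact hXlow x hx)
  obtain ⟨hl1, hl2⟩ := tree_lower (U m).1 y
  have hfw := hflt _ hwS
  have hnn := abs_nonneg ((U m).2 - b)
  simp only at hup hlow hl1 hl2 hnn
  have hUp : (U m).1.p = v.p + (S.card + m : ℕ) := rfl
  have hU2 : (U m).2 = c := rfl
  have hUA : (U m).1.A = X := rfl
  rw [hU2, sub_self, abs_zero] at hup
  rw [abs_le] at hl1
  rw [hUp] at hl1 hl2 hclimb
  rw [hUA] at hl2
  by_cases hyp : y.p < v.p
  · omega
  rw [not_lt] at hyp
  by_cases hag : ∀ x, x < v.p → (x ∈ y.A ↔ x ∈ v.A)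
  · have hcl := tree_climb y v hyp hag
    have hbd := box_dist_le connected (v, c) (y, b)
    simp only at hbd
    rw [SimpleGraph.dist_comm] at hbd
    rw [SimpleGraph.dist_comm] at hsepw
    rw [SimpleGraph.dist_comm (u := v) (v := y)] at hbd
    rw [hU2] at hlow hnn
    by_cases hzq : v.p + (f (y, b) : ℤ) < y.p
    · have := hl2 (v.p + f (y, b)) (by omega) hzq (hXdiff _ hwS)
      omega
    · omega
  · push Not at hag
    obtain ⟨x, hx, hne⟩ := hag
    have hne' : ¬ (x ∈ X ↔ x ∈ y.A) := by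
      rw [hXlow x hx]
      tauto
    have := hl2 x (by omega) (by omega) hne'
    omega

theorem survival_eq : survival (boxZ TG) = ⊤ :=
  survival_eq_top (fun n => ⟨n + 1, by omega, by omega, forced (n + 1)⟩)

theorem nice : Nice (boxZ TG) := box_nice connected locFinite vertexTransitive

end Pool.Agent.V11118.BoxTree
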