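import Mathlib

set_option autoImplicit false

namespace Pool.Agent.V11118.LDim

variable {U : Type*} [DecidableEq U] (H : SimpleGraph U)

/-- A bad edge of a 2-colouring. -/
def Bad (c : U → Bool) (u v : U) : Prop :=
  H.Adj u v ∧ c u = c v ∧ ∀ w, c w ≠ c u → (H.Adj w u ↔ H.Adj w v)

variable {H}

omit [DecidableEq U] in
lemma Bad.symm {c : U → Bool} {u v : U} (h : Bad H c u v) : Bad H c v u := by
  obtain ⟨h1, h2, h3⟩ := h
  refine ⟨h1.symm, h2.symm, fun w hw => ?_⟩
  rw [← h2] at hw
  exact (h3 w hw).symm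

/-- all bad edges are incident to `v`. -/
def At (H : SimpleGraph U) (c : U → Bool) (v : U) : Prop :=
  ∀ a b, Bad H c a b → a = v ∨ b = v

lemma At.step {c : U → Bool} {v u : U} (h : At H c v) (hb : Bad H c v u) :
    At H (Function.update c u (!(c u))) u := by
  have hvu : v ≠ u := hb.1.ne
  intro y z hyz
  by_contra hcon
  push Not at hcon
  obtain ⟨hyu, hzu⟩ := hcon
  obtain ⟨had, hcol, hres⟩ := hyz
  rw [Function.update_of_ne hyu, Function.update_of_ne hzu] at hcol
  rw [Function.update_of_ne hyu] at hres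
  by_cases hp : c y = c v
  · -- class of v
    have hold : Bad H c y z := by
      refine ⟨had, hcol, fun w hw => ?_⟩
      have hwu : w ≠ u := by
        rintro rfl
        exact hw (by rw [hp, hb.2.1])
      have := hres w
      rw [Function.update_of_ne hwu] at this
      exact this hw
    have hu := hres u
    rw [Function.update_self] at hu
    have hcu : c u = c y := by rw [hp, hb.2.1]
    have hu' := hu (by rw [hcu]; simp)
    rcases h y z hold with rfl | rfl
    · -- y = v
      have h1 : H.Adj u z := hu'.1 hb.1.symm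
      have : Bad H c u z := by
        refine ⟨h1, by rw [hcu, hcol], fun w hw => ?_⟩
        rw [hcu] at hw
        rw [← hold.2.2 w hw, ← hb.2.2 w hw]
      rcases h u z this with h2 | h2
      · exact hyu h2.symm
      · exact had.ne h2.symm
    · have h1 : H.Adj u y := hu'.2 hb.1.symm
      have : Bad H c u y := by
        refine ⟨h1, by rw [hcu], fun w hw => ?_⟩
        rw [hcu] at hw
        rw [hold.2.2 w hw, ← hb.2.2 w (by rw [← hcol]; exact hw)]
      rcases h u y this with h2 | h2
      · exact hzu h2.symm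
      · exact had.ne h2
  · -- other class
    have hold : Bad H c y z := by
      refine ⟨had, hcol, fun w hw => ?_⟩
      by_cases hwu : w = u
      · subst hwu
        have h1 := hres v
        rw [Function.update_of_ne hvu] at h1
        have h2 := h1 (Ne.symm hp)
        have h3 := hb.2.2 y hp
        have h4 := hb.2.2 z (by rw [← hcol]; exact hp)
        constructor
        · intro h5
          have := h3.2 h5.symm
          have := h2.1 this.symm
          exact (h4.1 this.symm).symm
        · intro h5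
          have := h4.2 h5.symm
          have := h2.2 this.symm
          exact (h3.1 this.symm).symm
      · have := hres w
        rw [Function.update_of_ne hwu] at this
        exact this hw
    rcases h y z hold with rfl | rfl
    · exact hp rfl
    · exact hp hcol

/-- The flipping process. -/
structure Chain (H : SimpleGraph U) (cc : ℕ → U → Bool) (vv : ℕ → U) : Prop where
  at' : ∀ i, At H (cc i) (vv i)
  bad : ∀ i, Bad H (cc i) (vv i) (vv (i + 1))
  upd : ∀ i, cc (i + 1) = Function.update (cc i) (vv (i + 1)) (!(cc i (vv (i + 1))))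

lemma exists_chain (hno : ∀ c : U → Bool, ∃ u v, Bad H c u v) (c0 : U → Bool) (x : U)
    (h0 : At H c0 x) : ∃ cc vv, Chain H cc vv ∧ vv 0 = x ∧ cc 0 = c0 := by
  have hnext : ∀ p : {p : (U → Bool) × U // At H p.1 p.2}, ∃ u, Bad H p.1.1 p.1.2 u := by
    rintro ⟨⟨c, v⟩, h⟩
    obtain ⟨a, b, hab⟩ := hno c
    rcases h a b hab with rfl | rfl
    · exact ⟨b, hab⟩
    · exact ⟨a, hab.symm⟩
  choose nx hnx using hnext
  let step : {p : (U → Bool) × U // At H p.1 p.2} → {p : (U → Bool) × U // At H p.1 p.2} :=
    fun p => ⟨(Function.update p.1.1 (nx p) (!(p.1.1 (nx p))), nx p), p.2.step (hnx p)⟩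
  let sq : ℕ → {p : (U → Bool) × U // At H p.1 p.2} := fun n => Nat.rec ⟨(c0, x), h0⟩ (fun _ p => step p) n
  refine ⟨fun n => (sq n).1.1, fun n => (sq n).1.2, ⟨fun i => (sq i).2, fun i => hnx (sq i), fun i => rfl⟩, rfl, rfl⟩

lemma Chain.shift {cc : ℕ → U → Bool} {vv : ℕ → U} (h : Chain H cc vv) (l : ℕ) :
    Chain H (fun i => cc (l + i)) (fun i => vv (l + i)) where
  at' := fun i => h.at' (l + i)
  bad := fun i => h.bad (l + i)
  upd := fun i => h.upd (l + i)

section
variable {cc : ℕ → U → Bool} {vv : ℕ → U} (h : Chain H cc vv)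
include h

lemma Chain.col_next (i : ℕ) : cc (i + 1) (vv (i + 1)) = !(cc i (vv i)) := by
  rw [h.upd i, Function.update_self, (h.bad i).2.1]

lemma Chain.col (i j : ℕ) : cc (i + j) (vv (i + j)) = xor (cc i (vv i)) (decide (j % 2 = 1)) := by
  induction j with
  | zero => simp
  | succ j ih =>
    rw [← Nat.add_assoc, h.col_next, ih]
    rcases Nat.mod_two_eq_zero_or_one j with hj | hj
    · have : (j + 1) % 2 = 1 := by omega
      simp [hj, this]
    · have : (j + 1) % 2 = 0 := by omega
      simp [hj, this]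

lemma Chain.persist (i s : ℕ) (a : U) (ha : ∀ j, 0 < j → j ≤ s → vv (i + j) ≠ a) :
    cc (i + s) a = cc i a := by
  induction s with
  | zero => rfl
  | succ s ih =>
    have h1 := ih (fun j h0 h1 => ha j h0 (by omega))
    rw [← Nat.add_assoc, h.upd, Function.update_of_ne, h1]
    exact (ha (s + 1) (by omega) le_rfl).symm

lemma Chain.adj1 (i : ℕ) : H.Adj (vv i) (vv (i + 1)) := (h.bad i).1

lemma Chain.adj2 (i : ℕ) : H.Adj (vv i) (vv (i + 2)) := by
  have h1 := h.bad (i + 1)
  have h2 : cc (i + 1) (vv i) = cc i (vv i) := by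
    rw [h.upd, Function.update_of_ne (h.adj1 i).ne]
  have h3 := h.col_next i
  refine (h1.2.2 (vv i) ?_).1 (h.adj1 i)
  rw [h2, h3]
  cases cc i (vv i) <;> simp

omit h in
/-- windows of length `t` are injective. -/
def Win (vv : ℕ → U) (t : ℕ) : Prop := ∀ i s, 0 < s → s < t → vv i ≠ vv (i + s)

lemma Chain.colnew {t : ℕ} (hw : Win vv t) (i s : ℕ) (hs : s < t) :
    cc (i + s) (vv i) = cc i (vv i) :=
  h.persist i s _ (fun j h0 h1 => (hw i j h0 (by omega)).symm)

lemma Chain.colold {t : ℕ} (hw : Win vv t) (i j : ℕ) (hj0 : 0 < j) (hj : j < t) :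
    cc i (vv (i + j)) = xor (cc i (vv i)) (decide (j % 2 = 0)) := by
  obtain ⟨j, rfl⟩ : ∃ k, j = k + 1 := ⟨j - 1, by omega⟩
  have h1 : cc (i + j) (vv (i + (j + 1))) = cc i (vv (i + (j + 1))) := by
    refine h.persist i j _ (fun j' h0 h1 => ?_)
    have := hw (i + j') (j + 1 - j') (by omega) (by omega)
    rwa [show i + j' + (j + 1 - j') = i + (j + 1) by omega] at this
  rw [← h1]
  have h2 := (h.bad (i + j)).2.1
  rw [Nat.add_assoc] at h2
  rw [← h2, h.col]
  congr 1
  rcases Nat.mod_two_eq_zero_or_one j with hj | hj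
  · have : (j + 1) % 2 = 1 := by omega
    simp [hj, this]
  · have : (j + 1) % 2 = 0 := by omega
    simp [hj, this]

lemma Chain.period_odd {t : ℕ} (hw : Win vv t) (ht : 0 < t) (h0 : vv t = vv 0) :
    t % 2 = 1 ∧ 3 ≤ t := by
  obtain ⟨r, rfl⟩ : ∃ r, t = r + 1 := ⟨t - 1, by omega⟩
  have h1 := (h.bad r).2.1
  rw [h0] at h1
  have h2 := h.colnew hw 0 r (by omega)
  rw [Nat.zero_add] at h2
  have h3 := h.col 0 r
  rw [Nat.zero_add, h1, h2] at h3
  have h4 : r % 2 = 0 := by
    rcases Nat.mod_two_eq_zero_or_one r with hr | hr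
    · exact hr
    · rw [hr] at h3
      simp at h3
  refine ⟨by omega, ?_⟩
  by_contra hlt
  have : r = 0 := by omega
  subst this
  exact (h.adj1 0).ne h0.symm

lemma Chain.step_period {t : ℕ} (hK : ∀ a b c d, H.Adj a b → H.Adj a c → H.Adj a d → H.Adj b c →
      H.Adj b d → H.Adj c d → False)
    (hw : Win vv t) (ht : 0 < t) (h0 : vv t = vv 0) : vv (t + 1) = vv 1 := by
  obtain ⟨hodd, h3⟩ := h.period_odd hw ht h0
  by_contra hne
  have hadj : H.Adj (vv 0) (vv (t + 1)) := by
    have := h.adj1 t
    rwa [h0] at this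
  have a01 : H.Adj (vv 0) (vv 1) := h.adj1 0
  have a02 : H.Adj (vv 0) (vv 2) := h.adj2 0
  have a12 : H.Adj (vv 1) (vv 2) := h.adj1 1
  -- colours
  have hcolt : cc t (vv 0) = !(cc 0 (vv 0)) := by
    have := h.col 0 t
    rw [Nat.zero_add, h0, hodd] at this
    rw [this]; simp
  have hbt := h.bad t
  rw [h0] at hbt
  have hcy : cc t (vv (t + 1)) = !(cc 0 (vv 0)) := by rw [← hbt.2.1, hcolt]
  by_cases hyW : ∃ j, j < t ∧ vv (t + 1) = vv j
  · obtain ⟨j, hjt, hj⟩ := hyW
    have hj0 : j ≠ 0 := by
      rintro rfl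
      exact hadj.ne hj.symm
    have hj1 : j ≠ 1 := by
      rintro rfl
      exact hne hj
    -- colour of vv j at time t
    have hcj : cc t (vv j) = xor (cc 0 (vv 0)) (decide (j % 2 = 1)) := by
      have h5 := h.colnew hw j (t - j) (by omega)
      rw [show j + (t - j) = t by omega] at h5
      rw [h5]
      have := h.col 0 j
      rwa [Nat.zero_add] at this
    have hjodd : j % 2 = 1 := by
      rw [← hj, hcy] at hcj
      rcases Nat.mod_two_eq_zero_or_one j with hr | hr
      · rw [hr] at hcj
        simp at hcj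
      · exact hr
    -- vv 2 is outer at time t
    have hc2 : cc t (vv 2) = cc 0 (vv 0) := by
      have h5 := h.colnew hw 2 (t - 2) (by omega)
      rw [show 2 + (t - 2) = t by omega] at h5
      rw [h5]
      have := h.col 0 2
      rw [Nat.zero_add] at this
      rw [this]; simp
    have hj2 : H.Adj (vv 2) (vv j) := by
      have := hbt.2.2 (vv 2) (by rw [hc2, hcolt]; simp)
      rw [hj] at this
      exact this.1 a02.symm
    have h0j : H.Adj (vv 0) (vv j) := by rw [← hj]; exact hadj
    -- vv j is outer at time 1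
    have hc1 : cc 1 (vv j) ≠ cc 1 (vv 1) := by
      have h5 := h.colold hw 1 (j - 1) (by omega) (by omega)
      rw [show 1 + (j - 1) = j by omega] at h5
      rw [h5]
      have : (j - 1) % 2 = 0 := by omega
      rw [this]
      simp
    have h1j := (h.bad 1).2.2 (vv j) hc1
    have h1j' : H.Adj (vv 1) (vv j) := (h1j.2 hj2.symm).symm
    exact hK _ _ _ _ a01 a02 h0j a12 h1j' hj2
  · push Not at hyW
    -- y outside
    have hcy0 : cc 0 (vv (t + 1)) = !(cc 0 (vv 0)) := by
      have := h.persist 0 t (vv (t + 1)) (fun j h0' h1 => ?_)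
      · rw [Nat.zero_add] at this
        rw [← this, hcy]
      · rw [Nat.zero_add]
        rcases Nat.lt_or_ge j t with h2 | h2
        · exact (hyW j h2).symm
        · have : j = t := by omega
          rw [this, h0]
          exact (hyW 0 ht).symm
    have hy1 : H.Adj (vv (t + 1)) (vv 1) := by
      refine ((h.bad 0).2.2 (vv (t + 1)) ?_).1 hadj.symm
      rw [hcy0]; simp
    -- time t - 1
    obtain ⟨r, rfl⟩ : ∃ r, t = r + 1 := ⟨t - 1, by omega⟩
    have hbr := h.bad r
    rw [h0] at hbr
    have hcr : cc r (vv r) = cc 0 (vv 0) := by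
      have := h.colnew hw 0 r (by omega)
      rw [Nat.zero_add] at this
      rw [hbr.2.1, this]
    have hcyr : cc r (vv (r + 1 + 1)) = !(cc 0 (vv 0)) := by
      have := h.persist 0 r (vv (r + 1 + 1)) (fun j h0' h1 => ?_)
      · rw [Nat.zero_add] at this
        rw [this, hcy0]
      · rw [Nat.zero_add]
        exact (hyW j (by omega)).symm
    have hyr : H.Adj (vv (r + 1 + 1)) (vv r) := by
      refine (hbr.2.2 (vv (r + 1 + 1)) ?_).2 hadj.symm
      rw [hcyr, hcr]; simp
    have hc1r : cc r (vv 1) = !(cc 0 (vv 0)) := by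
      have h5 := h.colnew hw 1 (r - 1) (by omega)
      rw [show 1 + (r - 1) = r by omega] at h5
      rw [h5]
      exact h.col_next 0
    have h1r : H.Adj (vv 1) (vv r) := by
      refine (hbr.2.2 (vv 1) ?_).2 a01.symm
      rw [hc1r, hcr]; simp
    exact hK (vv 0) (vv 1) (vv r) (vv (r + 1 + 1)) a01 hbr.1.symm hadj h1r hy1.symm hyr.symm

end


omit [DecidableEq U] in
lemma Win.shift {vv : ℕ → U} {t : ℕ} (hw : Win vv t) (l : ℕ) : Win (fun i => vv (l + i)) t := by
  intro i s h0 h1
  have := hw (l + i) s h0 h1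
  simpa [Nat.add_assoc] using this

section
variable {cc : ℕ → U → Bool} {vv : ℕ → U} (h : Chain H cc vv)
include h

lemma Chain.periodic {t : ℕ} (hK : ∀ a b c d, H.Adj a b → H.Adj a c → H.Adj a d → H.Adj b c →
      H.Adj b d → H.Adj c d → False)
    (hw : Win vv t) (ht : 0 < t) (h0 : vv t = vv 0) (i : ℕ) : vv (i + t) = vv i := by
  induction i with
  | zero => rw [Nat.zero_add, h0]
  | succ i ih =>
    have h1 : vv (i + (t + 1)) = vv (i + 1) :=
      (h.shift i).step_period hK (hw.shift i) ht (by simpa using ih)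
    rw [show i + 1 + t = i + (t + 1) by omega, h1]

lemma Chain.outside {t : ℕ} (hK : ∀ a b c d, H.Adj a b → H.Adj a c → H.Adj a d → H.Adj b c →
      H.Adj b d → H.Adj c d → False)
    (hp : ∀ i, vv (i + t) = vv i) (hodd : t % 2 = 1) (z : U) (hz : ∀ i, z ≠ vv i) (i : ℕ) :
    ¬ H.Adj z (vv i) := by
  have hc : ∀ i, cc i z = cc 0 z := by
    intro i
    have := h.persist 0 i z (fun j _ _ => (hz _).symm)
    rwa [Nat.zero_add] at this
  have hal : ∀ i, (H.Adj z (vv i) ↔ H.Adj z (vv (i + 1))) := by
    intro i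
    by_cases h1 : cc i z = cc i (vv i)
    · have h2 := h.col i t
      rw [hodd] at h2
      have h3 := (h.bad (i + t)).2.2 z (by
        rw [h2, hc (i + t), ← hc i, h1]
        cases cc i (vv i) <;> simp)
      rw [hp i, show i + t + 1 = i + 1 + t by omega, hp (i + 1)] at h3
      exact h3
    · exact (h.bad i).2.2 z h1
  intro hz1
  have h0 : H.Adj z (vv 0) := by
    have : ∀ j, H.Adj z (vv j) → H.Adj z (vv 0) := by
      intro j
      induction j with
      | zero => exact id
      | succ j ih => exact fun hj => ih ((hal j).2 hj)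
    exact this i hz1
  have h1 := (hal 0).1 h0
  have h2 := (hal 1).1 h1
  exact hK _ _ _ _ h0 h1 h2 (h.adj1 0) (h.adj2 0) (h.adj1 1)

lemma Chain.F {t : ℕ} (hw : Win vv t) (i s : ℕ) (hs : s % 2 = 1) (hst : s < t) :
    H.Adj (vv i) (vv (i + s)) ↔ H.Adj (vv i) (vv (i + s + 1)) := by
  refine (h.bad (i + s)).2.2 (vv i) ?_
  rw [h.colnew hw i s hst, h.col i s, hs]
  cases cc i (vv i) <;> simp

lemma Chain.inv {t : ℕ} (hw : Win vv t) (hp : ∀ i, vv (i + t) = vv i) (hodd : t % 2 = 1)
    (i s : ℕ) (hs : s % 2 = 1) (hst : s < t) :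
    H.Adj (vv i) (vv (i + s)) ↔ H.Adj (vv (i + 1)) (vv (i + 1 + s)) := by
  have h1 := h.F hw i s hs hst
  have h2 := h.F hw (i + s + 1) (t - s - 1) (by omega) (by omega)
  rw [show i + s + 1 + (t - s - 1) = i + t by omega, hp i, show i + t + 1 = i + 1 + t by omega,
    hp (i + 1)] at h2
  rw [show i + 1 + s = i + s + 1 by omega, h1, SimpleGraph.adj_comm, h2, SimpleGraph.adj_comm]

lemma Chain.inv0 {t : ℕ} (hw : Win vv t) (hp : ∀ i, vv (i + t) = vv i) (hodd : t % 2 = 1)
    (i s : ℕ) (hs : 0 < s) (hst : s < t) :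
    H.Adj (vv i) (vv (i + s)) ↔ H.Adj (vv 0) (vv s) := by
  have key : ∀ s, s % 2 = 1 → s < t → ∀ i, (H.Adj (vv i) (vv (i + s)) ↔ H.Adj (vv 0) (vv s)) := by
    intro s hs hst i
    induction i with
    | zero => simp
    | succ i ih => rw [← h.inv hw hp hodd i s hs hst, ih]
  rcases Nat.mod_two_eq_zero_or_one s with h2 | h2
  · have h3 := h.F hw i (s - 1) (by omega) (by omega)
    have h4 := h.F hw 0 (s - 1) (by omega) (by omega)
    rw [show i + (s - 1) + 1 = i + s by omega] at h3
    rw [show 0 + (s - 1) + 1 = s by omega, Nat.zero_add] at h4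
    rw [← h3, key (s - 1) (by omega) (by omega) i, h4]
  · exact key s h2 hst i

lemma Chain.fin_t {t : ℕ} (hK : ∀ a b c d, H.Adj a b → H.Adj a c → H.Adj a d → H.Adj b c →
      H.Adj b d → H.Adj c d → False)
    (hno : ∀ c : U → Bool, ∃ u v, Bad H c u v)
    (hw : Win vv t) (hp : ∀ i, vv (i + t) = vv i) (hodd : t % 2 = 1) (ht3 : 3 ≤ t) : t = 3 := by
  by_contra hne
  have ht5 : 5 ≤ t := by omega
  -- adjacency function
  have A : ∀ i j, i < j → j < i + t → (H.Adj (vv i) (vv j) ↔ H.Adj (vv 0) (vv (j - i))) := by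
    intro i j hij hj
    have := h.inv0 hw hp hodd i (j - i) (by omega) (by omega)
    rwa [show i + (j - i) = j by omega] at this
  have a01 : H.Adj (vv 0) (vv 1) := h.adj1 0
  have a02 : H.Adj (vv 0) (vv 2) := h.adj2 0
  have a12 : H.Adj (vv 1) (vv 2) := h.adj1 1
  have aF : ∀ s, s % 2 = 1 → s < t → (H.Adj (vv 0) (vv s) ↔ H.Adj (vv 0) (vv (s + 1))) := by
    intro s hs hst
    have := h.F hw 0 s hs hst
    rwa [Nat.zero_add] at this
  have asym : ∀ d, 0 < d → d < t → (H.Adj (vv 0) (vv (t - d)) ↔ H.Adj (vv 0) (vv d)) := by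
    intro d hd hdt
    have h1 := A (t - d) t (by omega) (by omega)
    have h2 := hp 0
    rw [Nat.zero_add] at h2
    rw [h2, show t - (t - d) = d by omega] at h1
    rw [SimpleGraph.adj_comm, h1]
  have na3 : ¬ H.Adj (vv 0) (vv 3) := by
    intro h3
    exact hK _ _ _ _ a01 a02 h3 a12 (h.adj2 1) (h.adj1 2)
  have at1 : H.Adj (vv 0) (vv (t - 1)) := (asym 1 (by omega) (by omega)).2 a01
  have at2 : H.Adj (vv 0) (vv (t - 2)) := (asym 2 (by omega) (by omega)).2 a02
  have nat3 : ¬ H.Adj (vv 0) (vv (t - 3)) := fun h3 => na3 ((asym 3 (by omega) (by omega)).1 h3)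
  have NC : ∀ d, d % 2 = 0 → 2 ≤ d → d + 1 < t → H.Adj (vv 0) (vv d) → H.Adj (vv 0) (vv (d + 1)) →
      False := by
    intro d hd hd2 hdt h1 h2
    have h3 : H.Adj (vv 1) (vv d) := by
      rw [A 1 d (by omega) (by omega)]
      have := aF (d - 1) (by omega) (by omega)
      rw [show d - 1 + 1 = d by omega] at this
      exact this.2 h1
    have h4 : H.Adj (vv 1) (vv (d + 1)) := by
      rw [A 1 (d + 1) (by omega) (by omega)]
      simpa using h1
    exact hK _ _ _ _ a01 h1 h2 h3 h4 (h.adj1 d)
  -- colours at time t - 1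
  set p := cc 0 (vv 0) with hpdef
  have hcol : ∀ j, j < t → cc (t - 1) (vv j) = xor p (decide (j % 2 = 1)) := by
    intro j hj
    have h5 := h.colnew hw j (t - 1 - j) (by omega)
    rw [show j + (t - 1 - j) = t - 1 by omega] at h5
    rw [h5]
    have := h.col 0 j
    rwa [Nat.zero_add] at this
  have hinj : ∀ i j, i < j → j < t → vv i ≠ vv j := by
    intro i j hij hj
    have := hw i (j - i) (by omega) (by omega)
    rwa [show i + (j - i) = j by omega] at this
  set c' := Function.update (cc (t - 1)) (vv 2) (!(cc (t - 1) (vv 2))) with hc'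
  have hc2 : c' (vv 2) = !p := by
    rw [hc', Function.update_self, hcol 2 (by omega)]
    simp
  have hcj : ∀ j, j < t → j ≠ 2 → c' (vv j) = xor p (decide (j % 2 = 1)) := by
    intro j hj hj2
    rw [hc', Function.update_of_ne, hcol j hj]
    rcases Nat.lt_or_gt_of_ne hj2 with h1 | h1
    · exact hinj _ _ h1 (by omega)
    · exact (hinj _ _ h1 hj).symm
  have hmain : ∀ i j, i < j → j < t → ¬ Bad H c' (vv i) (vv j) := by
    intro i j hij hjt hbad
    obtain ⟨had, hcc, hres⟩ := hbad
    have hadA := (A i j hij (by omega)).1 had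
    by_cases hi2 : i = 2
    · subst hi2
      have hjo : j % 2 = 1 := by
        rw [hc2, hcj j hjt (by omega)] at hcc
        rcases Nat.mod_two_eq_zero_or_one j with h1 | h1
        · rw [h1] at hcc; simp at hcc
        · exact h1
      have h0 := hres (vv 0) (by rw [hc2, hcj 0 (by omega) (by omega)]; simp)
      have h0j := h0.1 a02
      have h1j : H.Adj (vv 1) (vv j) := by
        rw [A 1 j (by omega) (by omega)]
        have := aF (j - 2) (by omega) (by omega)
        rw [show j - 2 + 1 = j - 1 by omega] at this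
        exact this.1 hadA
      exact hK _ _ _ _ a01 a02 h0j a12 h1j had
    by_cases hj2 : j = 2
    · subst hj2
      have hi1 : i = 1 := by
        rcases (show i = 0 ∨ i = 1 by omega) with h1 | h1
        · subst h1
          rw [hc2, hcj 0 (by omega) (by omega)] at hcc
          simp at hcc
        · exact h1
      subst hi1
      have h0 := hres (vv (t - 1)) (by
        rw [hcj 1 (by omega) (by omega), hcj (t - 1) (by omega) (by omega)]
        have : (t - 1) % 2 = 0 := by omega
        rw [this]
        cases p <;> simp)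
      have h1 : H.Adj (vv 1) (vv (t - 1)) := by
        rw [A 1 (t - 1) (by omega) (by omega), show t - 1 - 1 = t - 2 by omega]
        exact at2
      have h2 := (h0.1 h1.symm).symm
      rw [A 2 (t - 1) (by omega) (by omega), show t - 1 - 2 = t - 3 by omega] at h2
      exact nat3 h2
    -- parity equal
    have hpar : i % 2 = j % 2 := by
      rw [hcj i (by omega) hi2, hcj j hjt hj2] at hcc
      rcases Nat.mod_two_eq_zero_or_one i with h1 | h1 <;>
        rcases Nat.mod_two_eq_zero_or_one j with h2 | h2 <;> rw [h1, h2] at hcc <;>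
        first
        | omega
        | (exfalso; revert hcc; cases p <;> simp)
    by_cases hjl : j = t - 1
    · have hj0 : j % 2 = 0 := by omega
      by_cases hi0 : i = 0
      · subst hi0
        have h0 := hres (vv 2) (by rw [hc2, hcj 0 (by omega) (by omega)]; simp)
        have h1 := (h0.1 a02.symm)
        rw [A 2 j (by omega) (by omega), show j - 2 = t - 3 by omega] at h1
        exact nat3 h1
      · have h0 := hres (vv 1) (by
          rw [hcj i (by omega) hi2, hcj 1 (by omega) (by omega), hpar, hj0]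
          cases p <;> simp)
        have h1j : H.Adj (vv 1) (vv j) := by
          rw [A 1 j (by omega) (by omega), show j - 1 = t - 2 by omega]
          exact at2
        have h1i := h0.2 h1j
        have h0i : H.Adj (vv 0) (vv i) := by
          rw [A 1 i (by omega) (by omega)] at h1i
          have := aF (i - 1) (by omega) (by omega)
          rw [show i - 1 + 1 = i by omega] at this
          exact this.1 h1i
        have h0j : H.Adj (vv 0) (vv j) := by rw [hjl]; exact at1
        exact hK _ _ _ _ a01 h0i h0j h1i h1j had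
    · have hj3 : j + 1 ≠ 2 := by omega
      have h0 := hres (vv (j + 1)) (by
        rw [hcj i (by omega) hi2, hcj (j + 1) (by omega) hj3, hpar]
        rcases Nat.mod_two_eq_zero_or_one j with h2 | h2
        · have : (j + 1) % 2 = 1 := by omega
          rw [h2, this]; cases p <;> simp
        · have : (j + 1) % 2 = 0 := by omega
          rw [h2, this]; cases p <;> simp)
      have h1 := (h0.2 (h.adj1 j).symm).symm
      rw [A i (j + 1) (by omega) (by omega), show j + 1 - i = j - i + 1 by omega] at h1
      exact NC (j - i) (by omega) (by omega) (by omega) hadA h1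
  have hmod : ∀ i, vv i = vv (i % t) := by
    intro i
    have key : ∀ k r, vv (r + k * t) = vv r := by
      intro k
      induction k with
      | zero => intro r; simp
      | succ k ih =>
        intro r
        rw [show r + (k + 1) * t = (r + k * t) + t by ring, hp, ih]
    conv_lhs => rw [← Nat.mod_add_div i t, Nat.mul_comm]
    exact key _ _
  obtain ⟨a, b, hab⟩ := hno c'
  by_cases ha : ∃ i, a = vv i
  · obtain ⟨i, rfl⟩ := ha
    by_cases hb : ∃ j, b = vv j
    · obtain ⟨j, rfl⟩ := hb
      rw [hmod i, hmod j] at hab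
      have hi : i % t < t := Nat.mod_lt _ (by omega)
      have hj : j % t < t := Nat.mod_lt _ (by omega)
      rcases Nat.lt_trichotomy (i % t) (j % t) with h1 | h1 | h1
      · exact hmain _ _ h1 hj hab
      · rw [h1] at hab
        exact hab.1.ne rfl
      · exact hmain _ _ h1 hi hab.symm
    · push Not at hb
      exact h.outside hK hp hodd b hb i hab.1.symm
  · push Not at ha
    by_cases hb : ∃ j, b = vv j
    · obtain ⟨j, rfl⟩ := hb
      exact h.outside hK hp hodd a ha j hab.1
    · push Not at hb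
      have hbad : Bad H (cc (t - 1)) a b := by
        obtain ⟨h1, h2, h3⟩ := hab
        have ha' : c' a = cc (t - 1) a := by rw [hc', Function.update_of_ne (ha 2)]
        have hb' : c' b = cc (t - 1) b := by rw [hc', Function.update_of_ne (hb 2)]
        rw [ha', hb'] at h2
        refine ⟨h1, h2, fun w hw' => ?_⟩
        by_cases hwW : ∃ j, w = vv j
        · obtain ⟨j, rfl⟩ := hwW
          constructor
          · intro h4; exact absurd h4.symm (h.outside hK hp hodd a ha j)
          · intro h4; exact absurd h4.symm (h.outside hK hp hodd b hb j)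
        · push Not at hwW
          have hw'' : c' w = cc (t - 1) w := by rw [hc', Function.update_of_ne (hwW 2)]
          exact h3 w (by rw [hw'', ha']; exact hw')
      rcases h.at' (t - 1) a b hbad with h1 | h1
      · exact ha _ h1
      · exact hb _ h1

end

/-- Key lemma for two colours. -/
theorem exists_triangle [Finite U] (hK : ∀ a b c d, H.Adj a b → H.Adj a c → H.Adj a d → H.Adj b c →
      H.Adj b d → H.Adj c d → False)
    (hno : ∀ c : U → Bool, ∃ u v, Bad H c u v) (c0 : U → Bool) (x : U) (h0 : At H c0 x) :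
    ∃ y z, H.Adj x y ∧ H.Adj x z ∧ H.Adj y z ∧
      ∀ w, w ≠ x → w ≠ y → w ≠ z → ¬ H.Adj w x ∧ ¬ H.Adj w y ∧ ¬ H.Adj w z := by
  obtain ⟨cc, vv, h, hx, -⟩ := exists_chain hno c0 x h0
  have hex : ∃ t, 0 < t ∧ ∃ l, vv (l + t) = vv l := by
    obtain ⟨a, b, hab, hv⟩ := Finite.exists_ne_map_eq_of_infinite vv
    rcases Nat.lt_or_gt_of_ne hab with h1 | h1
    · exact ⟨b - a, by omega, a, by rw [show a + (b - a) = b by omega, hv]⟩
    · exact ⟨a - b, by omega, b, by rw [show b + (a - b) = a by omega, hv]⟩
  classical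
  obtain ⟨ht0, l, hl⟩ := Nat.find_spec hex
  set t := Nat.find hex with htdef
  have hw : Win vv t := by
    intro i s hs0 hst heq
    exact Nat.find_min hex hst ⟨hs0, i, heq.symm⟩
  have hodd3 := (h.shift l).period_odd (hw.shift l) ht0 (by simpa using hl)
  obtain ⟨hodd, h3⟩ := hodd3
  have hper : ∀ i, vv (l + (i + t)) = vv (l + i) :=
    (h.shift l).periodic hK (hw.shift l) ht0 (by simpa using hl)
  have ht : t = 3 := (h.shift l).fin_t hK hno (hw.shift l) hper hodd h3
  -- x is in the range
  have hback : ∀ i, ∃ j, vv (l - i) = vv (l + j) := by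
    intro i
    induction i with
    | zero => exact ⟨0, rfl⟩
    | succ i ih =>
      obtain ⟨j, hj⟩ := ih
      by_cases hil : l ≤ i
      · exact ⟨j, by rw [show l - (i + 1) = l - i by omega, hj]⟩
      · by_contra hcon
        push Not at hcon
        have h4 : ¬ H.Adj (vv (l - (i + 1))) (vv (l + j)) :=
          (h.shift l).outside hK hper hodd (vv (l - (i + 1))) hcon j
        rw [← hj] at h4
        have h5 := h.adj1 (l - (i + 1))
        rw [show l - (i + 1) + 1 = l - i by omega] at h5
        exact h4 h5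
  obtain ⟨j, hj⟩ := hback l
  rw [Nat.sub_self, hx] at hj
  have h' := h.shift (l + j)
  have hper' : ∀ i, vv (l + j + (i + t)) = vv (l + j + i) := by
    intro i
    have := hper (j + i)
    rw [show l + (j + i + t) = l + j + (i + t) by omega, show l + (j + i) = l + j + i by omega] at this
    exact this
  refine ⟨vv (l + j + 1), vv (l + j + 2), ?_, ?_, ?_, ?_⟩
  · rw [hj]; exact h'.adj1 0
  · rw [hj]; exact h'.adj2 0
  · exact h'.adj1 1
  · intro w hw0 hw1 hw2
    have hrange : ∀ i, w ≠ vv (l + j + i) := by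
      intro i
      induction i using Nat.strong_induction_on with
      | _ i ih =>
        rcases (show i = 0 ∨ i = 1 ∨ i = 2 ∨ 3 ≤ i by omega) with h1 | h1 | h1 | h1
        · subst h1; rw [Nat.add_zero, ← hj]; exact hw0
        · subst h1; exact hw1
        · subst h1; exact hw2
        · have h2 := ih (i - 3) (by omega)
          have h3 := hper' (i - 3)
          rw [ht, show i - 3 + 3 = i by omega] at h3
          rwa [h3]
    have ho := h'.outside hK hper' hodd w hrange
    refine ⟨?_, ?_, ?_⟩
    · rw [hj]; exact ho 0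
    · exact ho 1
    · exact ho 2

end Pool.Agent.V11118.LDim
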