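import Mathlib
import Pool.Agent.V11118.LDimChain

set_option autoImplicit false

namespace Pool.Agent.V11118.LDim

variable {V : Type*} {κ : Type*} (G : SimpleGraph V)

/-- `c` is valid on `S`: monochromatic edges inside `S` are separated by a vertex of `S` of another
colour. -/
def ValidOn (S : Set V) (c : V → κ) : Prop :=
  ∀ u ∈ S, ∀ v ∈ S, G.Adj u v → c u = c v →
    ∃ w ∈ S, c w ≠ c u ∧ ¬ (G.Adj w u ↔ G.Adj w v)

/-- the obstruction: an isolated clique. -/
structure Obs (S : Set V) (c : V → κ) (x : V) (u : κ → V) : Prop where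
  mem : ∀ j, u j ∈ S
  col : ∀ j, c (u j) = j
  adjx : ∀ j, G.Adj x (u j)
  adju : ∀ i j, i ≠ j → G.Adj (u i) (u j)
  iso : ∀ z ∈ S, (∀ j, z ≠ u j) → ¬ G.Adj z x ∧ ∀ j, ¬ G.Adj z (u j)

/-- the extension property. -/
def ExtProp (κ : Type*) : Prop :=
  ∀ (S : Set V) (x : V) (c : V → κ), x ∉ S → ValidOn G S c →
    (∀ c' : V → κ, ¬ ValidOn G (insert x S) c') → ∃ u : κ → V, Obs G S c x u

variable {G}

lemma big_clique [Fintype κ] (hfree : G.CliqueFree (Fintype.card κ + 2)) (x y : V) (u : κ → V)
    (hxy : G.Adj x y) (hx : ∀ j, G.Adj x (u j)) (hy : ∀ j, G.Adj y (u j))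
    (hu : ∀ i j, i ≠ j → G.Adj (u i) (u j)) : False := by
  classical
  let f : Option (Option κ) → V := fun o => match o with
    | none => x
    | some none => y
    | some (some j) => u j
  have hf : ∀ a b, a ≠ b → G.Adj (f a) (f b) := by
    rintro (_ | _ | a) (_ | _ | b) hab
    · exact absurd rfl hab
    · exact hxy
    · exact hx b
    · exact hxy.symm
    · exact absurd rfl hab
    · exact hy b
    · exact (hx a).symm
    · exact (hy a).symm
    · exact hu a b (fun h => hab (by rw [h]))
  have hinj : Function.Injective f := by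
    intro a b hab
    by_contra hne
    exact (hf a b hne).ne hab
  refine hfree (Finset.univ.image f) ⟨?_, ?_⟩
  · intro a ha b hb hab
    simp only [Finset.coe_image, Finset.coe_univ, Set.image_univ, Set.mem_range] at ha hb
    obtain ⟨a, rfl⟩ := ha
    obtain ⟨b, rfl⟩ := hb
    exact hf a b (fun h => hab (by rw [h]))
  · rw [Finset.card_image_of_injective _ hinj, Finset.card_univ, Fintype.card_option,
      Fintype.card_option]

lemma exists_full (S : Set V) (x : V) (c : V → κ) (hx : x ∉ S) (hc : ValidOn G S c)
    (hno : ∀ c' : V → κ, ¬ ValidOn G (insert x S) c') (j : κ) :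
    ∃ u ∈ S, G.Adj x u ∧ c u = j ∧ ∀ w ∈ S, c w ≠ j → (G.Adj w x ↔ G.Adj w u) := by
  classical
  have h := hno (Function.update c x j)
  unfold ValidOn at h
  push Not at h
  obtain ⟨a, ha, b, hb, hab, hcab, hres⟩ := h
  have hne : ∀ w ∈ S, w ≠ x := fun w hw h => hx (h ▸ hw)
  by_cases hax : a = x
  · subst hax
    have hbS : b ∈ S := by
      rcases hb with rfl | hb
      · exact absurd rfl hab.ne
      · exact hb
    rw [Function.update_self, Function.update_of_ne (hne b hbS)] at hcab
    refine ⟨b, hbS, hab, hcab.symm, fun w hw hwj => ?_⟩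
    have := hres w (Or.inr hw)
    rw [Function.update_self, Function.update_of_ne (hne w hw)] at this
    exact this hwj
  by_cases hbx : b = x
  · subst hbx
    have haS : a ∈ S := by
      rcases ha with rfl | ha
      · exact absurd rfl hax
      · exact ha
    rw [Function.update_self, Function.update_of_ne (hne a haS)] at hcab
    refine ⟨a, haS, hab.symm, hcab, fun w hw hwj => ?_⟩
    have := hres w (Or.inr hw)
    rw [Function.update_of_ne (hne w hw), Function.update_of_ne (hne a haS), hcab] at this
    exact (this hwj).symm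
  have haS : a ∈ S := by
    rcases ha with h | h
    · exact absurd h hax
    · exact h
  have hbS : b ∈ S := by
    rcases hb with h | h
    · exact absurd h hbx
    · exact h
  rw [Function.update_of_ne hax, Function.update_of_ne hbx] at hcab
  obtain ⟨w, hw, hwc, hwr⟩ := hc a haS b hbS hab hcab
  have := hres w (Or.inr hw)
  rw [Function.update_of_ne (hne w hw), Function.update_of_ne hax] at this
  exact absurd (this hwc) hwr

theorem ext3 [Fintype κ] [DecidableEq κ] (hk : 3 ≤ Fintype.card κ)
    (hfree : G.CliqueFree (Fintype.card κ + 2)) : ExtProp G κ := by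
  classical
  intro S x c hx hc hno
  have hfull := exists_full S x c hx hc hno
  choose u huS hxu hcu hfu using hfull
  have hne : ∀ w ∈ S, w ≠ x := fun w hw h => hx (h ▸ hw)
  have huu : ∀ i j, i ≠ j → G.Adj (u i) (u j) := by
    intro i j hij
    exact (hfu j (u i) (huS i) (by rw [hcu]; exact hij)).1 (hxu i).symm
  -- adjacency to other full vertices equals adjacency to x
  have hal : ∀ y ∈ S, ∀ j, c y ≠ j → (G.Adj y x ↔ G.Adj y (u j)) := fun y hy j hj => hfu j y hy hj
  have hnb : ∀ y ∈ S, G.Adj y x → ¬ G.Adj y (u (c y)) := by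
    intro y hy hyx hyu
    refine big_clique hfree x y u hyx.symm hxu (fun j => ?_) huu
    by_cases hj : c y = j
    · rw [← hj]; exact hyu
    · exact (hal y hy j hj).1 hyx
  by_cases hiso : ∃ y ∈ S, (∀ j, y ≠ u j) ∧ ¬ (G.Adj y x ↔ G.Adj y (u (c y)))
  · exfalso
    obtain ⟨y, hyS, hyu, hyr⟩ := hiso
    set i := c y with hi
    obtain ⟨m, hmi⟩ : ∃ m, m ≠ i := by
      by_contra hcon
      push Not at hcon
      have : Fintype.card κ ≤ 1 := Fintype.card_le_one_iff.2 (fun a b => by rw [hcon a, hcon b])
      omega
    obtain ⟨j0, hj0i, hj0m⟩ : ∃ j0, j0 ≠ i ∧ j0 ≠ m := by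
      have : ∃ j0, j0 ∉ ({i, m} : Finset κ) := by
        by_contra hcon
        push Not at hcon
        have h1 : (Finset.univ : Finset κ) ⊆ {i, m} := fun a _ => hcon a
        have h2 := Finset.card_le_card h1
        have h3 : ({i, m} : Finset κ).card ≤ 2 := Finset.card_le_two
        rw [Finset.card_univ] at h2
        omega
      obtain ⟨j0, hj0⟩ := this
      simp only [Finset.mem_insert, Finset.mem_singleton, not_or] at hj0
      exact ⟨j0, hj0.1, hj0.2⟩
    set c' : V → κ := fun v => if v = x then m else if v ∈ Set.range u then Equiv.swap i m (c v)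
      else c v with hc'
    have cx : c' x = m := by simp [hc']
    have cu : ∀ j, c' (u j) = Equiv.swap i m j := by
      intro j
      have h1 : u j ≠ x := hne _ (huS j)
      simp only [hc', h1, if_false, Set.mem_range_self, if_true, hcu]
    have cui : c' (u i) = m := by rw [cu, Equiv.swap_apply_left]
    have cum : c' (u m) = i := by rw [cu, Equiv.swap_apply_right]
    have cuo : ∀ j, j ≠ i → j ≠ m → c' (u j) = j := fun j h1 h2 => by
      rw [cu, Equiv.swap_apply_of_ne_of_ne h1 h2]
    have co : ∀ z ∈ S, (∀ j, z ≠ u j) → c' z = c z := by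
      intro z hz hzu
      have h1 : z ≠ x := hne _ hz
      have h2 : z ∉ Set.range u := by rintro ⟨j, rfl⟩; exact hzu j rfl
      simp only [hc', h1, if_false, h2]
    -- (1) a in K, b outside
    have L1x : ∀ b ∈ S, (∀ j, b ≠ u j) → G.Adj x b → m = c b →
        ∃ w ∈ insert x S, c' w ≠ m ∧ (G.Adj w x ∧ ¬ G.Adj w b) := by
      intro b hb hbu hxb hcb
      refine ⟨u m, Or.inr (huS m), ?_, (hxu m).symm, ?_⟩
      · rw [cum]; exact hmi.symm
      · intro h
        have := hnb b hb hxb.symm
        rw [← hcb] at this
        exact this h.symm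
    have L1u : ∀ j, ∀ b ∈ S, (∀ j, b ≠ u j) → G.Adj (u j) b → c' (u j) = c b →
        ∃ w ∈ insert x S, c' w ≠ c b ∧ (G.Adj w (u j) ∧ ¬ G.Adj w b) := by
      intro j b hb hbu hjb hcb
      by_cases hji : j = i
      · subst hji
        rw [cui] at hcb
        have hbx : G.Adj b x := (hal b hb i (by rw [← hcb]; exact hmi)).2 hjb.symm
        refine ⟨u m, Or.inr (huS m), by rw [cum, ← hcb]; exact hmi.symm, huu _ _ hmi, ?_⟩
        intro h
        have := hnb b hb hbx
        rw [← hcb] at this
        exact this h.symm
      by_cases hjm : j = m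
      · subst hjm
        rw [cum] at hcb
        have hbx : G.Adj b x := (hal b hb j (by rw [← hcb]; exact hmi.symm)).2 hjb.symm
        refine ⟨u i, Or.inr (huS i), by rw [cui, ← hcb]; exact hmi, huu _ _ hmi.symm, ?_⟩
        intro h
        have := hnb b hb hbx
        rw [← hcb] at this
        exact this h.symm
      · rw [cuo j hji hjm] at hcb
        refine ⟨x, Or.inl rfl, by rw [cx, ← hcb]; exact fun h => hjm h.symm, hxu j, ?_⟩
        intro h
        have := hnb b hb h.symm
        rw [← hcb] at this
        exact this hjb.symm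
    refine hno c' ?_
    -- classification
    have hcls : ∀ a ∈ insert x S, a = x ∨ (∃ j, a = u j) ∨ (a ∈ S ∧ ∀ j, a ≠ u j) := by
      intro a ha
      rcases ha with rfl | ha
      · exact Or.inl rfl
      · by_cases h : ∃ j, a = u j
        · exact Or.inr (Or.inl h)
        · push Not at h
          exact Or.inr (Or.inr ⟨ha, h⟩)
    have hyw : c' y ≠ m ∧ ¬ (G.Adj y x ↔ G.Adj y (u i)) := by
      rw [co y hyS hyu]
      exact ⟨hmi.symm, hyr⟩
    intro a ha b hb hab hcab
    rcases hcls a ha with rfl | ⟨j, rfl⟩ | ⟨haS, hau⟩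
    · rcases hcls b hb with rfl | ⟨j', rfl⟩ | ⟨hbS, hbu⟩
      · exact absurd rfl hab.ne
      · have hj : j' = i := by
          rw [cx, cu] at hcab
          have := congrArg (Equiv.swap i m) hcab
          rw [Equiv.swap_apply_self, Equiv.swap_apply_right] at this
          exact this.symm
        subst hj
        exact ⟨y, Or.inr hyS, by rw [cx]; exact hyw.1, hyw.2⟩
      · rw [cx, co b hbS hbu] at hcab
        obtain ⟨w, hw, hw1, hw2, hw3⟩ := L1x b hbS hbu hab hcab
        exact ⟨w, hw, by rw [cx]; exact hw1, fun h => hw3 (h.1 hw2)⟩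
    · rcases hcls b hb with rfl | ⟨j', rfl⟩ | ⟨hbS, hbu⟩
      · have hj : j = i := by
          rw [cx, cu] at hcab
          have := congrArg (Equiv.swap i m) hcab
          rw [Equiv.swap_apply_self, Equiv.swap_apply_right] at this
          exact this
        subst hj
        exact ⟨y, Or.inr hyS, by rw [cui]; exact hyw.1, fun h => hyw.2 h.symm⟩
      · rw [cu, cu] at hcab
        have := (Equiv.swap i m).injective hcab
        subst this
        exact absurd rfl hab.ne
      · rw [co b hbS hbu] at hcab
        obtain ⟨w, hw, hw1, hw2, hw3⟩ := L1u j b hbS hbu hab hcab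
        exact ⟨w, hw, by rw [hcab]; exact hw1, fun h => hw3 (h.1 hw2)⟩
    · rcases hcls b hb with rfl | ⟨j', rfl⟩ | ⟨hbS, hbu⟩
      · rw [cx, co a haS hau] at hcab
        obtain ⟨w, hw, hw1, hw2, hw3⟩ := L1x a haS hau hab.symm hcab.symm
        exact ⟨w, hw, by rw [co a haS hau, hcab]; exact hw1, fun h => hw3 (h.2 hw2)⟩
      · rw [co a haS hau] at hcab
        obtain ⟨w, hw, hw1, hw2, hw3⟩ := L1u j' a haS hau hab.symm hcab.symm
        exact ⟨w, hw, by rw [co a haS hau]; exact hw1, fun h => hw3 (h.2 hw2)⟩
      · rw [co a haS hau, co b hbS hbu] at hcab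
        obtain ⟨w, hwS, hwc, hwr⟩ := hc a haS b hbS hab hcab
        rw [co a haS hau]
        by_cases hwu : ∃ j, w = u j
        · obtain ⟨j, rfl⟩ := hwu
          rw [hcu] at hwc
          have e1 := hal a haS j hwc.symm
          have e2 := hal b hbS j (by rw [← hcab]; exact hwc.symm)
          have hxr : ¬ (G.Adj x a ↔ G.Adj x b) := by
            intro h
            apply hwr
            rw [SimpleGraph.adj_comm, ← e1, SimpleGraph.adj_comm, h, SimpleGraph.adj_comm, e2,
              SimpleGraph.adj_comm]
          by_cases hml : m = c a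
          · refine ⟨u j0, Or.inr (huS j0), by rw [cuo j0 hj0i hj0m, ← hml]; exact hj0m, ?_⟩
            have e3 := hal a haS j0 (by rw [← hml]; exact hj0m.symm)
            have e4 := hal b hbS j0 (by rw [← hcab, ← hml]; exact hj0m.symm)
            intro h
            apply hxr
            rw [SimpleGraph.adj_comm, e3, SimpleGraph.adj_comm, h, SimpleGraph.adj_comm, ← e4,
              SimpleGraph.adj_comm]
          · exact ⟨x, Or.inl rfl, by rw [cx]; exact hml, hxr⟩
        · push Not at hwu
          exact ⟨w, Or.inr hwS, by rw [co w hwS hwu]; exact hwc, hwr⟩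
  · push Not at hiso
    refine ⟨u, huS, hcu, hxu, huu, fun z hz hzu => ?_⟩
    have h1 := hiso z hz hzu
    have h2 := hnb z hz
    have h3 : ¬ G.Adj z x := fun h => h2 h (h1.1 h)
    refine ⟨h3, fun j => ?_⟩
    by_cases hj : c z = j
    · rw [← hj]
      exact fun h => h3 (h1.2 h)
    · exact fun h => h3 ((hal z hz j hj).2 h)

theorem ext2 [Finite V] (hfree : G.CliqueFree 4) : ExtProp G Bool := by
  classical
  intro S x c hx hc hno
  have hne : ∀ w ∈ S, w ≠ x := fun w hw h => hx (h ▸ hw)
  have hxm : x ∈ insert x S := Or.inl rfl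
  have hK' : ∀ a b c d, G.Adj a b → G.Adj a c → G.Adj a d → G.Adj b c →
      G.Adj b d → G.Adj c d → False := by
    intro a b c d hab hac had hbc hbd hcd
    refine big_clique (κ := Bool) (by simpa using hfree) a b (fun j => if j then c else d) hab ?_ ?_ ?_
    · intro j; cases j <;> simp [hac, had]
    · intro j; cases j <;> simp [hbc, hbd]
    · intro i j hij
      cases i <;> cases j <;> simp_all [hcd.symm]
  have hno' : ∀ d : ↥(insert x S) → Bool, ∃ a b, Bad (G.induce (insert x S)) d a b := by
    intro d
    have h := hno (fun v => if h : v ∈ insert x S then d ⟨v, h⟩ else false)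
    unfold ValidOn at h
    push Not at h
    obtain ⟨a, ha, b, hb, hab, hcab, hres⟩ := h
    refine ⟨⟨a, ha⟩, ⟨b, hb⟩, hab, ?_, ?_⟩
    · simpa only [ha, hb, dif_pos] using hcab
    · rintro ⟨w, hw⟩ hwc
      have := hres w hw
      simp only [ha, hw, dif_pos] at this
      exact this hwc
  have h0 : At (G.induce (insert x S)) (fun v => c v.1) ⟨x, hxm⟩ := by
    rintro ⟨a, ha⟩ ⟨b, hb⟩ ⟨hab, hcab, hres⟩
    by_contra hcon
    push Not at hcon
    obtain ⟨hax, hbx⟩ := hcon
    have haS : a ∈ S := by
      rcases ha with h | h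
      · exact absurd (Subtype.ext h) hax
      · exact h
    have hbS : b ∈ S := by
      rcases hb with h | h
      · exact absurd (Subtype.ext h) hbx
      · exact h
    obtain ⟨w, hw, hwc, hwr⟩ := hc a haS b hbS hab hcab
    exact hwr (hres ⟨w, Or.inr hw⟩ hwc)
  obtain ⟨⟨y, hy⟩, ⟨z, hz⟩, hxy, hxz, hyz, hiso⟩ := exists_triangle
    (fun a b c d h1 h2 h3 h4 h5 h6 => hK' a.1 b.1 c.1 d.1 h1 h2 h3 h4 h5 h6) hno' _ _ h0
  have hxy' : G.Adj x y := hxy
  have hxz' : G.Adj x z := hxz
  have hyz' : G.Adj y z := hyz
  have hyS : y ∈ S := by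
    rcases hy with h | h
    · exact absurd h hxy'.ne'
    · exact h
  have hzS : z ∈ S := by
    rcases hz with h | h
    · exact absurd h hxz'.ne'
    · exact h
  have hiso' : ∀ w ∈ S, w ≠ y → w ≠ z → ¬ G.Adj w x ∧ ¬ G.Adj w y ∧ ¬ G.Adj w z := by
    intro w hw hwy hwz
    exact hiso ⟨w, Or.inr hw⟩ (fun h => hne w hw (congrArg Subtype.val h))
      (fun h => hwy (congrArg Subtype.val h)) (fun h => hwz (congrArg Subtype.val h))
  have hcyz : c y ≠ c z := by
    intro h
    obtain ⟨w, hw, hwc, hwr⟩ := hc y hyS z hzS hyz' h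
    have hwy : w ≠ y := by rintro rfl; exact hwc rfl
    have hwz : w ≠ z := by rintro rfl; exact hwc h.symm
    have := hiso' w hw hwy hwz
    exact hwr ⟨fun h => absurd h this.2.1, fun h => absurd h this.2.2⟩
  refine ⟨fun j => if c y = j then y else z, ?_, ?_, ?_, ?_, ?_⟩
  · intro j; by_cases h : c y = j <;> simp [h, hyS, hzS]
  · intro j
    by_cases h : c y = j
    · simp [h]
    · simp only [h, if_false]
      revert h hcyz
      cases c y <;> cases c z <;> cases j <;> simp
  · intro j; by_cases h : c y = j <;> simp [h, hxy', hxz']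
  · intro i j hij
    by_cases h1 : c y = i
    · by_cases h2 : c y = j
      · exact absurd (h1.symm.trans h2) hij
      · simp only [h1, if_true]
        rw [if_neg (by rw [← h1]; exact h2)]
        exact hyz'
    · by_cases h2 : c y = j
      · simp only [h2, if_true]
        rw [if_neg (by rw [← h2]; exact h1)]
        exact hyz'.symm
      · exfalso
        revert h1 h2 hij
        cases c y <;> cases i <;> cases j <;> simp
  · intro w hw hwu
    have hwy : w ≠ y := by
      have := hwu (c y)
      simpa using this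
    have hwz : w ≠ z := by
      have := hwu (c z)
      simp only [hcyz, if_false] at this
      exact this
    obtain ⟨h1, h2, h3⟩ := hiso' w hw hwy hwz
    refine ⟨h1, fun j => ?_⟩
    by_cases h : c y = j <;> simp [h, h2, h3]

/-- A connected graph on at least `k + 2` vertices without `(k + 2)`-cliques has a valid
colouring with `k` colours. -/
theorem exists_valid [Fintype V] [Fintype κ] [DecidableEq κ] (hk : 2 ≤ Fintype.card κ)
    (hfree : G.CliqueFree (Fintype.card κ + 2)) (hconn : G.Connected)
    (hcard : Fintype.card κ + 2 ≤ Fintype.card V) (hext : ExtProp G κ) :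
    ∃ c : V → κ, ValidOn G Set.univ c := by
  classical
  obtain ⟨j1, j2, hj12⟩ : ∃ j1 j2 : κ, j1 ≠ j2 := Fintype.exists_pair_of_one_lt_card (by omega)
  -- maximal valid set
  let P : Finset (Finset V) := Finset.univ.filter (fun S => ∃ c : V → κ, ValidOn G (S : Set V) c)
  have hPne : P.Nonempty := by
    refine ⟨∅, ?_⟩
    simp only [P, Finset.mem_filter, Finset.mem_univ, true_and]
    exact ⟨fun _ => j1, fun u hu => absurd hu (by simp)⟩
  obtain ⟨S, hSP, hmax⟩ := Finset.exists_max_image P Finset.card hPne
  have hSP' : ∃ c : V → κ, ValidOn G (S : Set V) c := by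
    simpa only [P, Finset.mem_filter, Finset.mem_univ, true_and] using hSP
  obtain ⟨c, hc⟩ := hSP'
  have hbig : ∀ T : Finset V, S.card < T.card → ∀ c' : V → κ, ¬ ValidOn G (T : Set V) c' := by
    intro T hT c' hc'
    have : T ∈ P := by
      simp only [P, Finset.mem_filter, Finset.mem_univ, true_and]
      exact ⟨c', hc'⟩
    have := hmax T this
    omega
  by_cases hall : ∀ x, x ∈ S
  · refine ⟨c, ?_⟩
    have : (S : Set V) = Set.univ := by
      ext x; simp [hall x]
    rwa [← this]
  exfalso
  push Not at hall
  obtain ⟨x, hx⟩ := hall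
  have hobs : ∀ y, y ∉ S → ∃ u : κ → V, Obs G (S : Set V) c y u := by
    intro y hy
    refine hext (S : Set V) y c (by simpa using hy) hc (fun c' hc' => ?_)
    refine hbig (insert y S) (by rw [Finset.card_insert_of_notMem hy]; omega) c' ?_
    rwa [Finset.coe_insert]
  obtain ⟨u, hu⟩ := hobs x hx
  -- an edge leaving the clique
  let K : Set V := {x} ∪ Set.range u
  have hKne : ∃ v, v ∉ K := by
    by_contra hcon
    push Not at hcon
    have h1 : (Finset.univ : Finset V) ⊆ insert x (Finset.univ.image u) := by
      intro v _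
      have := hcon v
      simp only [K, Set.mem_union, Set.mem_singleton_iff, Set.mem_range] at this
      rcases this with h | ⟨j, h⟩
      · simp [h]
      · simp only [Finset.mem_insert, Finset.mem_image, Finset.mem_univ, true_and]
        exact Or.inr ⟨j, h⟩
    have h2 := Finset.card_le_card h1
    have h3 := Finset.card_insert_le x (Finset.univ.image u)
    have h4 : (Finset.univ.image u).card ≤ Fintype.card κ := Finset.card_image_le
    rw [Finset.card_univ] at h2
    omega
  obtain ⟨v, hv⟩ := hKne
  obtain ⟨p⟩ := hconn.preconnected x v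
  obtain ⟨d, -, hd1, hd2⟩ := p.exists_boundary_dart K (Or.inl rfl) hv
  obtain ⟨⟨a, y⟩, had⟩ := d
  simp only at hd1 hd2
  have hay : G.Adj a y := had
  have hyx : y ≠ x := fun h => hd2 (Or.inl h)
  have hyu : ∀ j, y ≠ u j := fun j h => hd2 (Or.inr ⟨j, h.symm⟩)
  have hyS : y ∉ S := by
    intro hyS
    have := hu.iso y (by simpa using hyS) hyu
    rcases hd1 with h | ⟨j, h⟩
    · rw [Set.mem_singleton_iff] at h
      rw [h] at hay
      exact this.1 hay.symm
    · rw [← h] at hay
      exact this.2 j hay.symm
  obtain ⟨u', hu'⟩ := hobs y hyS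
  -- new colouring
  set c' : V → κ := Function.update (Function.update c x j1) y j2 with hc'
  have cy : c' y = j2 := by rw [hc', Function.update_self]
  have cx : c' x = j1 := by rw [hc', Function.update_of_ne hyx.symm, Function.update_self]
  have cS : ∀ z ∈ (S : Set V), c' z = c z := by
    intro z hz
    have h1 : z ≠ y := fun h => hyS (by simpa [h] using hz)
    have h2 : z ≠ x := fun h => hx (by simpa [h] using hz)
    rw [hc', Function.update_of_ne h1, Function.update_of_ne h2]
  -- key facts
  have key : ∃ w1 w2 : Prop, True := ⟨True, True, trivial⟩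
  clear key
  have hkey : (¬ (G.Adj y x ↔ G.Adj y (u j1))) ∧ (¬ (G.Adj x y ↔ G.Adj x (u' j2))) := by
    by_cases hc1 : ∃ j, G.Adj y (u j)
    · obtain ⟨j, hj⟩ := hc1
      have hmem : ∀ z ∈ (S : Set V), G.Adj z y → ∃ i, z = u' i := by
        intro z hz hzy
        by_contra hcon
        push Not at hcon
        exact (hu'.iso z hz hcon).1 hzy
      obtain ⟨i, hi⟩ := hmem (u j) (hu.mem j) hj.symm
      have hij : i = j := by
        have h1 := hu.col j
        rw [hi, hu'.col] at h1
        exact h1
      subst hij
      have hall : ∀ l, u l = u' l := by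
        intro l
        by_cases hl : l = i
        · rw [hl, hi]
        · by_cases hex : ∃ m, u l = u' m
          · obtain ⟨m, hm⟩ := hex
            have h1 := hu.col l
            rw [hm, hu'.col] at h1
            rw [hm, h1]
          · push Not at hex
            have h1 := (hu'.iso (u l) (hu.mem l) hex).2 i
            rw [← hi] at h1
            exact absurd (hu.adju l i hl) h1
      have hyu2 : ∀ l, G.Adj y (u l) := fun l => by rw [hall l]; exact hu'.adjx l
      have hnxy : ¬ G.Adj x y := fun h => big_clique hfree x y u h hu.adjx hyu2 hu.adju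
      constructor
      · intro h
        exact hnxy (h.2 (hyu2 j1)).symm
      · intro h
        exact hnxy (h.2 (by rw [← hall]; exact hu.adjx j2))
    · push Not at hc1
      have hyx' : G.Adj y x := by
        rcases hd1 with h | ⟨j, h⟩
        · rw [Set.mem_singleton_iff] at h
          rw [h] at hay
          exact hay.symm
        · rw [← h] at hay
          exact absurd hay.symm (hc1 j)
      constructor
      · intro h
        exact hc1 j1 (h.1 hyx')
      · intro h
        have h1 := h.1 hyx'.symm
        -- u' j2 is adjacent to x, hence equals some u j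
        by_cases hex : ∃ m, u' j2 = u m
        · obtain ⟨m, hm⟩ := hex
          exact hc1 m (by rw [← hm]; exact hu'.adjx j2)
        · push Not at hex
          exact (hu.iso (u' j2) (hu'.mem j2) hex).1 h1.symm
  refine hbig (insert y (insert x S)) ?_ c' ?_
  · rw [Finset.card_insert_of_notMem, Finset.card_insert_of_notMem hx]
    · omega
    · rw [Finset.mem_insert, not_or]
      exact ⟨hyx, hyS⟩
  · rw [Finset.coe_insert, Finset.coe_insert]
    have hnx : ∀ b ∈ (S : Set V), G.Adj x b → ∃ i, b = u i := by
      intro z hz hzy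
      by_contra hcon
      push Not at hcon
      exact (hu.iso z hz hcon).1 hzy.symm
    have hny : ∀ b ∈ (S : Set V), G.Adj y b → ∃ i, b = u' i := by
      intro z hz hzy
      by_contra hcon
      push Not at hcon
      exact (hu'.iso z hz hcon).1 hzy.symm
    have hX : ∀ b ∈ (S : Set V), G.Adj x b → j1 = c b → b = u j1 := by
      intro b hb h1 h2
      obtain ⟨i, hi⟩ := hnx b hb h1
      rw [hi, hu.col] at h2
      rw [hi, h2]
    have hY : ∀ b ∈ (S : Set V), G.Adj y b → j2 = c b → b = u' j2 := by
      intro b hb h1 h2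
      obtain ⟨i, hi⟩ := hny b hb h1
      rw [hi, hu'.col] at h2
      rw [hi, h2]
    intro a ha b hb hab hcab
    rcases ha with rfl | rfl | ha
    · rcases hb with rfl | rfl | hb
      · exact absurd rfl hab.ne
      · rw [cx, cy] at hcab
        exact absurd hcab.symm hj12
      · rw [cy, cS b hb] at hcab
        have := hY b hb hab hcab
        subst this
        exact ⟨x, Or.inr (Or.inl rfl), by rw [cx, cy]; exact hj12, hkey.2⟩
    · rcases hb with rfl | rfl | hb
      · rw [cx, cy] at hcab
        exact absurd hcab hj12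
      · exact absurd rfl hab.ne
      · rw [cx, cS b hb] at hcab
        have := hX b hb hab hcab
        subst this
        exact ⟨y, Or.inl rfl, by rw [cx, cy]; exact hj12.symm, hkey.1⟩
    · rcases hb with rfl | rfl | hb
      · rw [cy, cS a ha] at hcab
        have := hY a ha hab.symm hcab.symm
        subst this
        exact ⟨x, Or.inr (Or.inl rfl), by rw [cx, cS _ ha, hcab]; exact hj12,
          fun h => hkey.2 h.symm⟩
      · rw [cx, cS a ha] at hcab
        have := hX a ha hab.symm hcab.symm
        subst this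
        exact ⟨y, Or.inl rfl, by rw [cy, cS _ ha, hcab]; exact hj12.symm,
          fun h => hkey.1 h.symm⟩
      · rw [cS a ha, cS b hb] at hcab
        obtain ⟨w, hw, hwc, hwr⟩ := hc a ha b hb hab hcab
        exact ⟨w, Or.inr (Or.inr hw), by rw [cS w hw, cS a ha]; exact hwc, hwr⟩

/-- from a valid colouring to a local resolving set -/
theorem resolving_of_valid [Fintype V] [Fintype κ] [DecidableEq κ] [Nonempty κ]
    (c : V → κ) (hc : ValidOn G Set.univ c) :
    ∃ W : Finset V, (∀ u v : V, G.Adj u v → ∃ w ∈ W, G.dist u w ≠ G.dist v w) ∧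
      Fintype.card κ * W.card ≤ (Fintype.card κ - 1) * Fintype.card V := by
  classical
  -- largest colour class
  obtain ⟨j, -, hj⟩ := Finset.exists_max_image (Finset.univ : Finset κ)
    (fun j => (Finset.univ.filter (fun v => c v = j)).card) Finset.univ_nonempty
  refine ⟨Finset.univ.filter (fun v => c v ≠ j), ?_, ?_⟩
  · intro u v huv
    by_cases hu : c u = j
    · by_cases hv : c v = j
      · obtain ⟨w, -, hwc, hwr⟩ := hc u trivial v trivial huv (by rw [hu, hv])
        refine ⟨w, by simpa [← hu] using hwc, fun h => hwr ?_⟩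
        rw [SimpleGraph.adj_comm, ← SimpleGraph.dist_eq_one_iff_adj, h,
          SimpleGraph.dist_eq_one_iff_adj, SimpleGraph.adj_comm]
      · refine ⟨v, by simpa using hv, ?_⟩
        rw [SimpleGraph.dist_self, SimpleGraph.dist_eq_one_iff_adj.2 huv]
        exact one_ne_zero
    · refine ⟨u, by simpa using hu, ?_⟩
      rw [SimpleGraph.dist_self, SimpleGraph.dist_eq_one_iff_adj.2 huv.symm]
      exact zero_ne_one
  · have h1 : Fintype.card V = ∑ i : κ, (Finset.univ.filter (fun v => c v = i)).card := by
      rw [← Finset.card_univ]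
      exact Finset.card_eq_sum_card_fiberwise (fun v _ => Finset.mem_univ _)
    have h2 : Fintype.card V ≤ Fintype.card κ * (Finset.univ.filter (fun v => c v = j)).card := by
      rw [h1]
      calc ∑ i : κ, (Finset.univ.filter (fun v => c v = i)).card
          ≤ ∑ _i : κ, (Finset.univ.filter (fun v => c v = j)).card :=
            Finset.sum_le_sum (fun i _ => hj i (Finset.mem_univ _))
        _ = _ := by rw [Finset.sum_const, Finset.card_univ, smul_eq_mul]
    have h3 : (Finset.univ.filter (fun v => c v = j)).card +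
        (Finset.univ.filter (fun v => c v ≠ j)).card = Fintype.card V := by
      rw [← Finset.card_univ]
      exact Finset.card_filter_add_card_filter_not (fun v => c v = j)
    have hk : 1 ≤ Fintype.card κ := Fintype.card_pos
    obtain ⟨k, hk'⟩ : ∃ k, Fintype.card κ = k + 1 := ⟨Fintype.card κ - 1, by omega⟩
    rw [hk'] at h2 ⊢
    rw [Nat.add_sub_cancel]
    nlinarith

theorem main [Fintype V] (hconn : G.Connected) (k : ℕ) (hk : 2 ≤ k) (hfree : G.CliqueFree (k + 2))
    (hcard : k + 2 ≤ Fintype.card V) :
    ∃ W : Finset V, (∀ u v : V, G.Adj u v → ∃ w ∈ W, G.dist u w ≠ G.dist v w) ∧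
      k * W.card ≤ (k - 1) * Fintype.card V := by
  rcases Nat.lt_or_ge k 3 with h | h
  · have hk2 : k = 2 := by omega
    subst hk2
    have hfree' : G.CliqueFree (Fintype.card Bool + 2) := by simpa using hfree
    obtain ⟨c, hc⟩ := exists_valid (κ := Bool) (by simp) hfree' hconn (by simpa using hcard)
      (ext2 hfree)
    have := resolving_of_valid c hc
    simpa using this
  · have hfree' : G.CliqueFree (Fintype.card (Fin k) + 2) := by simpa using hfree
    obtain ⟨c, hc⟩ := exists_valid (κ := Fin k) (by simpa using hk) hfree' hconn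
      (by simpa using hcard) (ext3 (by simpa using h) hfree')
    have : Nonempty (Fin k) := ⟨⟨0, by omega⟩⟩
    have := resolving_of_valid c hc
    simpa using this

end Pool.Agent.V11118.LDim
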