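import Mathlib

/-!
The 3-ASC index: bounds for graphs with the 3-extension property.
-/

namespace Pool.Agent.V11118.ASC

open SimpleGraph

/-- `H` is an `r`-ASC graph: connected, of radius `r`, with exactly two non-central vertices. -/
def IsASC {W : Type*} (r : ℕ) (H : SimpleGraph W) : Prop :=
  H.Connected ∧ H.radius = r ∧ (H.centerᶜ).ncard = 2

/-- The `r`-ASC index. -/
noncomputable def theta {V : Type*} (r : ℕ) (G : SimpleGraph V) : ℕ :=
  sInf {k : ℕ | ∃ (W : Type) (_ : Finite W) (H : SimpleGraph W), Nat.card W = Nat.card V + k ∧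
    IsASC r H ∧ Nonempty (G ↪g H)}

section dist

variable {W : Type*} {H : SimpleGraph W}

theorem dist_le_succ (hc : H.Connected) {u v : W} {k : ℕ} (h : H.dist u v ≤ k + 1) :
    u = v ∨ ∃ x, H.Adj u x ∧ H.dist x v ≤ k := by
  obtain ⟨p, hp⟩ := hc.exists_walk_length_eq_dist u v
  cases p with
  | nil => exact Or.inl rfl
  | cons hadj q =>
    rename_i x
    right
    refine ⟨x, hadj, (SimpleGraph.dist_le q).trans ?_⟩
    simp only [Walk.length_cons] at hp
    omega

theorem dist_step (hc : H.Connected) {u x v : W} {k : ℕ} (hadj : H.Adj u x) (h : H.dist x v ≤ k) :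
    H.dist u v ≤ k + 1 := by
  have h1 := hc.dist_triangle (u := u) (v := x) (w := v)
  rw [SimpleGraph.dist_eq_one_iff_adj.mpr hadj] at h1
  omega

theorem dist_le_zero (hc : H.Connected) {u v : W} (h : H.dist u v ≤ 0) : u = v := by
  have : H.dist u v = 0 := by omega
  exact hc.dist_eq_zero_iff.mp this

theorem dist_le_one (hc : H.Connected) {u v : W} (h : H.dist u v ≤ 1) : u = v ∨ H.Adj u v := by
  rcases dist_le_succ hc h with h | ⟨x, h1, h2⟩
  · exact Or.inl h
  · right
    rw [← dist_le_zero hc h2]; exact h1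

theorem eccent_le_iff_dist (hc : H.Connected) (u : W) (k : ℕ) :
    H.eccent u ≤ k ↔ ∀ v, H.dist u v ≤ k := by
  rw [eccent_le_iff]
  refine forall_congr' (fun v => ?_)
  rw [← (hc.preconnected u v).coe_dist_eq_edist]
  exact Nat.cast_le

theorem le_eccent_iff_dist (hc : H.Connected) [Finite W] (u : W) (k : ℕ) :
    (k : ℕ∞) ≤ H.eccent u ↔ ∃ v, k ≤ H.dist u v := by
  have : Nonempty W := ⟨u⟩
  constructor
  · intro h
    obtain ⟨v, hv⟩ := H.exists_edist_eq_eccent_of_finite u
    refine ⟨v, ?_⟩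
    rw [← hv, ← (hc.preconnected u v).coe_dist_eq_edist] at h
    exact_mod_cast h
  · rintro ⟨v, hv⟩
    refine le_trans ?_ (edist_le_eccent (v := v))
    rw [← (hc.preconnected u v).coe_dist_eq_edist]
    exact_mod_cast hv

end dist

/-- Lower bound: if all distances in `G` are at most two, then `G` does not embed in a 3-ASC graph
with at most two more vertices. -/
theorem lower {V W : Type*} [Finite V] [Finite W] (G : SimpleGraph V) (H : SimpleGraph W)
    (hG : ∀ u v : V, u = v ∨ G.Adj u v ∨ ∃ x, G.Adj u x ∧ G.Adj x v) (k : ℕ)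
    (hk : Nat.card W = Nat.card V + k) (hasc : IsASC 3 H) (φ : G ↪g H) : 3 ≤ k := by
  classical
  by_contra hcon
  rw [not_le] at hcon
  obtain ⟨hc, hrad, hcen⟩ := hasc
  -- the image
  set S : Set W := Set.range φ with hS
  have hScard : S.ncard = Nat.card V := by
    rw [hS, ← Set.image_univ, Set.ncard_image_of_injective _ φ.injective, Set.ncard_univ]
  have hcompl : Sᶜ.ncard ≤ 2 := by
    have := Set.ncard_add_ncard_compl S
    omega
  have hSS : ∀ s ∈ S, ∀ t ∈ S, H.dist s t ≤ 2 := by
    rintro _ ⟨u, rfl⟩ _ ⟨v, rfl⟩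
    rcases hG u v with rfl | h | ⟨x, h1, h2⟩
    · simp
    · rw [SimpleGraph.dist_eq_one_iff_adj.mpr (φ.map_adj_iff.mpr h)]; omega
    · have h3 : H.dist (φ x) (φ v) ≤ 1 := by
        rw [SimpleGraph.dist_eq_one_iff_adj.mpr (φ.map_adj_iff.mpr h2)]
      exact dist_step hc (φ.map_adj_iff.mpr h1) h3
  -- no vertex has eccentricity at most two
  have hno : ∀ u, ¬ (∀ v, H.dist u v ≤ 2) := by
    intro u hu
    have h1 : H.eccent u ≤ (2 : ℕ) := (eccent_le_iff_dist hc u 2).mpr hu
    have h2 : H.radius ≤ H.eccent u := radius_le_eccent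
    rw [hrad] at h2
    have : ((3 : ℕ) : ℕ∞) ≤ (2 : ℕ) := h2.trans h1
    norm_cast at this
  -- central vertices have all distances at most three
  have hcent : ∀ u ∈ H.center, ∀ v, H.dist u v ≤ 3 := by
    intro u hu
    rw [mem_center_iff, hrad] at hu
    exact (eccent_le_iff_dist hc u 3).mp hu.le
  obtain ⟨x, y, hxy, hset⟩ := Set.ncard_eq_two.mp hcen
  have hxc : x ∉ H.center := by
    have : x ∈ H.centerᶜ := by rw [hset]; simp
    exact this
  have hyc : y ∉ H.center := by
    have : y ∈ H.centerᶜ := by rw [hset]; simp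
    exact this
  have hothers : ∀ z, z ≠ x → z ≠ y → z ∈ H.center := by
    intro z h1 h2
    by_contra h3
    have : z ∈ H.centerᶜ := h3
    rw [hset] at this
    rcases this with h | h
    · exact h1 h
    · exact h2 h
  -- distance of `x` and `y`
  have hdist4 : 4 ≤ H.dist x y := by
    have h1 : ((4 : ℕ) : ℕ∞) ≤ H.eccent x := by
      by_contra h
      rw [not_le] at h
      apply hxc
      rw [mem_center_iff, hrad]
      apply le_antisymm
      · exact (ENat.lt_add_one_iff (by simp)).mp (by exact_mod_cast h)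
      · rw [← hrad]; exact radius_le_eccent
    obtain ⟨z, hz⟩ := (le_eccent_iff_dist hc x 4).mp h1
    by_cases hzy : z = y
    · rw [← hzy]; exact hz
    · have hzx : z ≠ x := by
        rintro rfl
        simp at hz
      have := hcent z (hothers z hzx hzy) x
      rw [SimpleGraph.dist_comm] at this
      omega
  -- a path of length four between non-central vertices
  have main : ∀ x y : W, x ∉ H.center → y ∉ H.center → 4 ≤ H.dist x y →
      (∀ z, z ≠ x → z ≠ y → z ∈ H.center) → y ∉ S → False := by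
    intro x y hxc hyc hdist4 hothers hyS
    have hle4 : H.dist x y ≤ 4 := by
      obtain ⟨p, hp⟩ := hc.exists_walk_length_eq_dist x y
      cases p with
      | nil => simp at hdist4
      | cons hadj q =>
        rename_i z
        have hzx : z ≠ x := hadj.ne'
        by_cases hzy : z = y
        · subst hzy
          rw [SimpleGraph.dist_eq_one_iff_adj.mpr hadj] at hdist4
          omega
        · exact dist_step hc hadj (hcent z (hothers z hzx hzy) y)
    rcases dist_le_succ hc hle4 with h | ⟨p, hp1, hp2⟩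
    · rw [h] at hdist4; simp at hdist4
    rcases dist_le_succ hc hp2 with h | ⟨q, hq1, hq2⟩
    · rw [h] at hp1
      rw [SimpleGraph.dist_eq_one_iff_adj.mpr hp1] at hdist4
      omega
    rcases dist_le_succ hc hq2 with h | ⟨r, hr1, hr2⟩
    · have := dist_step hc hp1 (le_of_eq (SimpleGraph.dist_eq_one_iff_adj.mpr hq1))
      rw [h] at this
      omega
    have hqy : H.dist q y ≤ 2 := hq2
    have hqx : H.dist x q ≤ 2 :=
      dist_step hc hp1 (le_of_eq (SimpleGraph.dist_eq_one_iff_adj.mpr hq1))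
    have hry : H.Adj r y := by
      rcases dist_le_one hc hr2 with h | h
      · subst h
        have h2 := dist_step hc hq1 (le_of_eq (SimpleGraph.dist_eq_one_iff_adj.mpr hr1))
        have h3 := dist_step hc hp1 h2
        omega
      · exact h
    have hqne : q ≠ x ∧ q ≠ y := by
      constructor
      · rintro rfl; omega
      · rintro rfl; omega
    -- `q ∈ S` and everything outside `S` is within distance two of `q`
    have hkey : q ∈ S ∧ ∀ z, z ∉ S → H.dist q z ≤ 2 := by
      by_cases hxS : x ∈ S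
      · have hrS : r ∉ S := by
          intro hr
          have h1 := hSS x hxS r hr
          have h2 := dist_step hc hry.symm (by rw [SimpleGraph.dist_comm]; exact h1 :
            H.dist r x ≤ 2)
          rw [SimpleGraph.dist_comm] at h2
          omega
        have hcomp2 : ∀ z, z ∉ S → z = r ∨ z = y := by
          intro z hz
          by_contra hcon2
          push Not at hcon2
          have h3 : ({z, r, y} : Set W) ⊆ Sᶜ := by
            rintro w (rfl | rfl | rfl)
            · exact hz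
            · exact hrS
            · exact hyS
          have h4 := Set.ncard_le_ncard h3 (Set.toFinite _)
          rw [Set.ncard_insert_of_notMem (by
            simp only [Set.mem_insert_iff, Set.mem_singleton_iff, not_or]; exact hcon2),
            Set.ncard_pair hry.ne] at h4
          omega
        refine ⟨?_, ?_⟩
        · by_contra hq
          rcases hcomp2 q hq with h | h
          · exact hr1.ne h
          · exact hqne.2 h
        · intro z hz
          rcases hcomp2 z hz with rfl | rfl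
          · rw [SimpleGraph.dist_eq_one_iff_adj.mpr hr1]; omega
          · exact hqy
      · have hxy : x ≠ y := by rintro rfl; simp at hdist4
        have hcomp2 : ∀ z, z ∉ S → z = x ∨ z = y := by
          intro z hz
          by_contra hcon2
          push Not at hcon2
          have h3 : ({z, x, y} : Set W) ⊆ Sᶜ := by
            rintro w (rfl | rfl | rfl)
            · exact hz
            · exact hxS
            · exact hyS
          have h4 := Set.ncard_le_ncard h3 (Set.toFinite _)
          rw [Set.ncard_insert_of_notMem (by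
            simp only [Set.mem_insert_iff, Set.mem_singleton_iff, not_or]; exact hcon2),
            Set.ncard_pair hxy] at h4
          omega
        refine ⟨?_, ?_⟩
        · by_contra hq
          rcases hcomp2 q hq with h | h
          · exact hqne.1 h
          · exact hqne.2 h
        · intro z hz
          rcases hcomp2 z hz with rfl | rfl
          · rw [SimpleGraph.dist_comm]; exact hqx
          · exact hqy
    apply hno q
    intro z
    by_cases hz : z ∈ S
    · exact hSS q hkey.1 z hz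
    · exact hkey.2 z hz
  by_cases hyS : y ∈ S
  · by_cases hxS : x ∈ S
    · have := hSS x hxS y hyS
      omega
    · exact main y x hyc hxc (by rw [SimpleGraph.dist_comm]; exact hdist4)
        (fun z h1 h2 => hothers z h2 h1) hxS
  · exact main x y hxc hyc hdist4 hothers hyS

/-- The vertices different from and not adjacent to `v₀` and `u`. -/
def C {V : Type*} (G : SimpleGraph V) (v₀ u : V) : Set V :=
  {c | c ≠ v₀ ∧ c ≠ u ∧ ¬ G.Adj c v₀ ∧ ¬ G.Adj c u}

/-- The adjacency relation of the extension. -/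
def ExtAdj {V : Type*} (G : SimpleGraph V) (v₀ u : V) : V ⊕ Fin 3 → V ⊕ Fin 3 → Prop
  | Sum.inl x, Sum.inl y => G.Adj x y
  | Sum.inl x, Sum.inr i => (i = 1 ∧ x = u) ∨ (i = 2 ∧ x ∈ C G v₀ u)
  | Sum.inr i, Sum.inl x => (i = 1 ∧ x = u) ∨ (i = 2 ∧ x ∈ C G v₀ u)
  | Sum.inr i, Sum.inr j => (i = 0 ∧ j ≠ 0) ∨ (i ≠ 0 ∧ j = 0)

/-- Adding three vertices. -/
def Ext {V : Type*} (G : SimpleGraph V) (v₀ u : V) : SimpleGraph (V ⊕ Fin 3) where
  Adj := ExtAdj G v₀ u
  symm := ⟨by
    rintro (x | i) (y | j) h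
    · exact (show G.Adj x y from h).symm
    · exact h
    · exact h
    · simp only [ExtAdj] at h ⊢; tauto⟩
  loopless := ⟨by
    rintro (x | i) h
    · exact G.loopless.irrefl _ h
    · simp only [ExtAdj] at h; tauto⟩

/-- The three-vertex extension property. -/
def E3 {V : Type*} (G : SimpleGraph V) : Prop :=
  ∀ x y z : V, x ≠ y → x ≠ z → y ≠ z → ∀ a b c : Prop,
    ∃ v, v ≠ x ∧ v ≠ y ∧ v ≠ z ∧ (G.Adj v x ↔ a) ∧ (G.Adj v y ↔ b) ∧ (G.Adj v z ↔ c)

theorem E3.dist2 {V : Type*} {G : SimpleGraph V} (h : E3 G) (h3 : ∀ u v : V, ∃ w, w ≠ u ∧ w ≠ v)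
    (u v : V) : u = v ∨ G.Adj u v ∨ ∃ x, G.Adj u x ∧ G.Adj x v := by
  by_cases huv : u = v
  · exact Or.inl huv
  · right; right
    obtain ⟨w, hw1, hw2⟩ := h3 u v
    obtain ⟨x, _, _, _, h1, h2, _⟩ := h u v w huv hw1.symm hw2.symm True True True
    exact ⟨x, (h1.mpr trivial).symm, h2.mpr trivial⟩

theorem upper {V : Type} [Finite V] {G : SimpleGraph V} (h : E3 G)
    (h3 : ∀ u v : V, ∃ w, w ≠ u ∧ w ≠ v) (hne : Nonempty V) :
    ∃ (W : Type) (_ : Finite W) (H : SimpleGraph W), Nat.card W = Nat.card V + 3 ∧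
    IsASC 3 H ∧ Nonempty (G ↪g H) := by
  classical
  obtain ⟨v₀⟩ := hne
  obtain ⟨w1, hw1, _⟩ := h3 v₀ v₀
  obtain ⟨w2, hw2, hw2'⟩ := h3 v₀ w1
  obtain ⟨u, hu0, _, _, hu, _⟩ := h v₀ w1 w2 hw1.symm hw2.symm hw2'.symm False False False
  have hnadj : ¬ G.Adj u v₀ := fun h' => hu.mp h'
  set H := Ext G v₀ u with hH
  have hd2 := h.dist2 h3
  obtain ⟨w3, hw3, hw3'⟩ := h3 v₀ u
  obtain ⟨c₀, hc01, hc02, _, hc03, hc04, _⟩ := h v₀ u w3 hu0.symm hw3.symm hw3'.symm False False False
  have hc0 : c₀ ∈ C G v₀ u := ⟨hc01, hc02, fun h' => hc03.mp h', fun h' => hc04.mp h'⟩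
  -- adjacencies
  have aVV : ∀ {x y : V}, G.Adj x y → H.Adj (Sum.inl x) (Sum.inl y) := fun h' => h'
  have a01 : H.Adj (Sum.inr 0) (Sum.inr 1) := by
    show ExtAdj G v₀ u (Sum.inr 0) (Sum.inr 1)
    simp [ExtAdj]
  have a02 : H.Adj (Sum.inr 0) (Sum.inr 2) := by
    show ExtAdj G v₀ u (Sum.inr 0) (Sum.inr 2)
    simp [ExtAdj]
  have a1u : H.Adj (Sum.inr 1) (Sum.inl u) := Or.inl ⟨rfl, rfl⟩
  have a2C : ∀ {c : V}, c ∈ C G v₀ u → H.Adj (Sum.inr 2) (Sum.inl c) := fun hc => Or.inr ⟨rfl, hc⟩
  -- connectedness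
  have hreachV : ∀ x y : V, H.Reachable (Sum.inl x) (Sum.inl y) := by
    intro x y
    rcases hd2 x y with rfl | h' | ⟨z, h1, h2⟩
    · exact Reachable.refl _
    · exact (aVV h').reachable
    · exact (aVV h1).reachable.trans (aVV h2).reachable
  have hr1 : H.Reachable (Sum.inr 1) (Sum.inl u) := a1u.reachable
  have hr0 : H.Reachable (Sum.inr 0) (Sum.inl u) := a01.reachable.trans hr1
  have hr2 : H.Reachable (Sum.inr 2) (Sum.inl u) := a02.symm.reachable.trans hr0
  have hreach : ∀ x : V ⊕ Fin 3, H.Reachable x (Sum.inl u) := by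
    rintro (x | i)
    · exact hreachV x u
    · fin_cases i
      · exact hr0
      · exact hr1
      · exact hr2
  have hc : H.Connected := by
    have : Nonempty (V ⊕ Fin 3) := ⟨Sum.inr 0⟩
    exact ⟨fun x y => (hreach x).trans (hreach y).symm⟩
  -- upper bounds for distances
  have one : ∀ {x y : V ⊕ Fin 3}, H.Adj x y → H.dist x y ≤ 1 := fun h' =>
    le_of_eq (SimpleGraph.dist_eq_one_iff_adj.mpr h')
  have dVV : ∀ x y : V, H.dist (Sum.inl x) (Sum.inl y) ≤ 2 := by
    intro x y
    rcases hd2 x y with rfl | h' | ⟨z, h1, h2⟩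
    · simp
    · exact (one (aVV h')).trans (by norm_num)
    · exact dist_step hc (aVV h1) (one (aVV h2))
  have dV1 : ∀ x : V, H.dist (Sum.inr 1) (Sum.inl x) ≤ 3 := fun x => dist_step hc a1u (dVV u x)
  have dV2 : ∀ x : V, H.dist (Sum.inr 2) (Sum.inl x) ≤ 3 := fun x =>
    dist_step hc (a2C hc0) (dVV c₀ x)
  have d12 : H.dist (Sum.inr 1) (Sum.inr 2) ≤ 2 := dist_step hc a01.symm (one a02)
  have dV0 : ∀ x : V, x ≠ v₀ → H.dist (Sum.inr 0) (Sum.inl x) ≤ 3 := by
    intro x hx
    by_cases hxu : x = u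
    · subst hxu
      exact (dist_step hc a01 (one a1u)).trans (by norm_num)
    by_cases hxadj : G.Adj u x
    · exact dist_step hc a01 (dist_step hc a1u (one (aVV hxadj)))
    by_cases hxv : G.Adj v₀ x
    · obtain ⟨c, hc1, hc2, hc3, hc4, hc5, hc6⟩ := h v₀ u x hu0.symm hx.symm (Ne.symm hxu)
        False False True
      have hcC : c ∈ C G v₀ u := ⟨hc1, hc2, fun h' => hc4.mp h', fun h' => hc5.mp h'⟩
      exact dist_step hc a02 (dist_step hc (a2C hcC) (one (aVV (hc6.mpr trivial))))
    · have hxC : x ∈ C G v₀ u := ⟨hx, hxu, fun h' => hxv h'.symm, fun h' => hxadj h'.symm⟩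
      exact (dist_step hc a02 (one (a2C hxC))).trans (by norm_num)
  -- neighbours
  have n0 : ∀ z, H.Adj (Sum.inr 0) z → z = Sum.inr 1 ∨ z = Sum.inr 2 := by
    rintro (x | i) hz
    · rcases hz with ⟨h1, _⟩ | ⟨h1, _⟩ <;> exact absurd h1 (by decide)
    · rcases hz with ⟨_, h1⟩ | ⟨h1, _⟩
      · fin_cases i
        · exact absurd rfl h1
        · exact Or.inl rfl
        · exact Or.inr rfl
      · exact absurd rfl h1
  have n1 : ∀ z, H.Adj (Sum.inr 1) z → z = Sum.inr 0 ∨ z = Sum.inl u := by
    rintro (x | i) hz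
    · rcases hz with ⟨_, h1⟩ | ⟨h1, _⟩
      · exact Or.inr (by rw [h1])
      · exact absurd h1 (by decide)
    · rcases hz with ⟨h1, _⟩ | ⟨_, h1⟩
      · exact absurd h1 (by decide)
      · exact Or.inl (by rw [h1])
  have n2 : ∀ z, H.Adj (Sum.inr 2) z → z = Sum.inr 0 ∨ ∃ c ∈ C G v₀ u, z = Sum.inl c := by
    rintro (x | i) hz
    · rcases hz with ⟨h1, _⟩ | ⟨_, h1⟩
      · exact absurd h1 (by decide)
      · exact Or.inr ⟨x, h1, rfl⟩
    · rcases hz with ⟨h1, _⟩ | ⟨_, h1⟩
      · exact absurd h1 (by decide)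
      · exact Or.inl (by rw [h1])
  have l0 : ∀ x : V, ¬ H.dist (Sum.inr 0) (Sum.inl x) ≤ 1 := by
    intro x hx
    rcases dist_le_one hc hx with h' | h'
    · cases h'
    · rcases n0 _ h' with h' | h' <;> cases h'
  have lu : ∀ x, x ≠ u → ¬ G.Adj x u → ¬ H.dist (Sum.inl u) (Sum.inl x) ≤ 1 := by
    intro x hx1 hx2 hx
    rcases dist_le_one hc hx with h' | h'
    · exact hx1 (Sum.inl.inj h').symm
    · exact hx2 (show G.Adj u x from h').symm
  have l1 : ∀ x, x ≠ u → ¬ G.Adj x u → ¬ H.dist (Sum.inr 1) (Sum.inl x) ≤ 2 := by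
    intro x hx1 hx2 hx
    rcases dist_le_succ hc hx with h' | ⟨z, hz1, hz2⟩
    · cases h'
    · rcases n1 z hz1 with rfl | rfl
      · exact l0 x hz2
      · exact lu x hx1 hx2 hz2
  have l2 : ∀ x, (∀ c ∈ C G v₀ u, x ≠ c ∧ ¬ G.Adj c x) → ¬ H.dist (Sum.inr 2) (Sum.inl x) ≤ 2 := by
    intro x hx' hx
    rcases dist_le_succ hc hx with h' | ⟨z, hz1, hz2⟩
    · cases h'
    · rcases n2 z hz1 with rfl | ⟨c, hcC, rfl⟩
      · exact l0 x hz2
      · rcases dist_le_one hc hz2 with h' | h'
        · exact (hx' c hcC).1 (Sum.inl.inj h').symm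
        · exact (hx' c hcC).2 h'
  have l1v : ¬ H.dist (Sum.inr 1) (Sum.inl v₀) ≤ 2 :=
    l1 v₀ hu0.symm (fun h' => hnadj h'.symm)
  have l2v : ¬ H.dist (Sum.inr 2) (Sum.inl v₀) ≤ 2 :=
    l2 v₀ (fun c hcC => ⟨hcC.1.symm, hcC.2.2.1⟩)
  have l0v : ¬ H.dist (Sum.inr 0) (Sum.inl v₀) ≤ 3 := by
    intro hx
    rcases dist_le_succ hc hx with h' | ⟨z, hz1, hz2⟩
    · cases h'
    · rcases n0 z hz1 with rfl | rfl
      · exact l1v hz2
      · exact l2v hz2
  -- every vertex has a vertex at distance at least three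
  have hfar : ∀ x : V ⊕ Fin 3, ∃ y, 3 ≤ H.dist x y := by
    rintro (x | i)
    · by_cases hxu : x = u
      · subst hxu
        refine ⟨Sum.inr 2, ?_⟩
        rw [SimpleGraph.dist_comm]
        have := l2 x (fun c hcC => ⟨hcC.2.1.symm, hcC.2.2.2⟩)
        omega
      by_cases hxC : x ∈ C G v₀ u
      · refine ⟨Sum.inr 1, ?_⟩
        rw [SimpleGraph.dist_comm]
        have := l1 x hxC.2.1 hxC.2.2.2
        omega
      · refine ⟨Sum.inr 0, ?_⟩
        rw [SimpleGraph.dist_comm]
        by_contra hcon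
        have h2 : H.dist (Sum.inr 0) (Sum.inl x) ≤ 2 := by omega
        rcases dist_le_succ hc h2 with h' | ⟨z, hz1, hz2⟩
        · cases h'
        · rcases n0 z hz1 with rfl | rfl
          · rcases dist_le_one hc hz2 with h' | h'
            · cases h'
            · rcases n1 _ h' with h' | h'
              · cases h'
              · exact hxu (Sum.inl.inj h')
          · rcases dist_le_one hc hz2 with h' | h'
            · cases h'
            · rcases n2 _ h' with h' | ⟨c, hcC, h'⟩
              · cases h'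
              · exact hxC (by rw [Sum.inl.inj h']; exact hcC)
    · refine ⟨Sum.inl v₀, ?_⟩
      fin_cases i
      · simp only [Fin.zero_eta]; omega
      · simp only [Fin.mk_one]; omega
      · have := l2v
        simp only [Fin.reduceFinMk]; omega
  -- upper bounds on eccentricities
  have hnear : ∀ x : V ⊕ Fin 3, x ≠ Sum.inl v₀ → x ≠ Sum.inr 0 → ∀ y, H.dist x y ≤ 3 := by
    have c1 : ∀ x : V, H.dist (Sum.inl x) (Sum.inr 1) ≤ 3 := fun x => by
      rw [SimpleGraph.dist_comm]; exact dV1 x
    have c2 : ∀ x : V, H.dist (Sum.inl x) (Sum.inr 2) ≤ 3 := fun x => by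
      rw [SimpleGraph.dist_comm]; exact dV2 x
    rintro (x | i) hx1 hx2 (y | j)
    · exact (dVV x y).trans (by norm_num)
    · fin_cases j
      · simp only [Fin.zero_eta]
        rw [SimpleGraph.dist_comm]
        exact dV0 x (fun h' => hx1 (by rw [h']))
      · exact c1 x
      · exact c2 x
    · fin_cases i
      · exact absurd rfl hx2
      · exact dV1 y
      · exact dV2 y
    · fin_cases i
      · exact absurd rfl hx2
      · fin_cases j
        · exact (one a01.symm).trans (by norm_num)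
        · simp
        · exact d12.trans (by norm_num)
      · fin_cases j
        · exact (one a02.symm).trans (by norm_num)
        · simp only [Fin.mk_one, Fin.reduceFinMk]
          rw [SimpleGraph.dist_comm]; exact d12.trans (by norm_num)
        · simp
  have hecc : ∀ x : V ⊕ Fin 3, x ≠ Sum.inl v₀ → x ≠ Sum.inr 0 → H.eccent x = 3 := by
    intro x h1 h2
    apply le_antisymm
    · exact (eccent_le_iff_dist hc x 3).mpr (hnear x h1 h2)
    · exact (le_eccent_iff_dist hc x 3).mpr (hfar x)
  have hrad : H.radius = 3 := by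
    apply le_antisymm
    · rw [← hecc (Sum.inr 1) (by simp) (by simp)]
      exact radius_le_eccent
    · obtain ⟨z, hz⟩ := H.exists_eccent_eq_radius
      rw [← hz]
      exact (le_eccent_iff_dist hc z 3).mpr (hfar z)
  refine ⟨V ⊕ Fin 3, inferInstance, H, ?_, ⟨hc, hrad, ?_⟩, ⟨⟨⟨Sum.inl, Sum.inl_injective⟩, ?_⟩⟩⟩
  · rw [Nat.card_sum]; simp
  · have hset : H.centerᶜ = {Sum.inl v₀, Sum.inr 0} := by
      ext x
      simp only [Set.mem_compl_iff, mem_center_iff, Set.mem_insert_iff, Set.mem_singleton_iff]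
      constructor
      · intro hx
        by_contra hcon
        push Not at hcon
        exact hx (by rw [hecc x hcon.1 hcon.2, hrad])
      · rintro (rfl | rfl) hx
        · rw [hrad] at hx
          have := (eccent_le_iff_dist hc _ 3).mp hx.le (Sum.inr 0)
          rw [SimpleGraph.dist_comm] at this
          exact l0v this
        · rw [hrad] at hx
          exact l0v ((eccent_le_iff_dist hc _ 3).mp hx.le (Sum.inl v₀))
    rw [hset, Set.ncard_pair (by simp)]
  · intro x y
    exact Iff.rfl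

theorem theta_eq_three {V : Type} [Finite V] {G : SimpleGraph V} (h : E3 G)
    (h3 : ∀ u v : V, ∃ w, w ≠ u ∧ w ≠ v) (hne : Nonempty V) : theta 3 G = 3 := by
  apply le_antisymm
  · exact Nat.sInf_le (upper h h3 hne)
  · apply le_csInf ⟨3, upper h h3 hne⟩
    rintro k ⟨W, _, H, h1, h2, ⟨φ⟩⟩
    exact lower G H (h.dist2 h3) k h1 h2 φ

end Pool.Agent.V11118.ASC
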