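import Pool.Agent.V11118.ASC

/-!
Almost every graph has the 3-extension property.
-/

namespace Pool.Agent.V11118.ASC

open SimpleGraph Filter Topology

section counting

variable {n : ℕ}

/-- Failure of the extension property for one triple and one pattern. -/
def Bad (x y z : Fin n) (a b c : Bool) : Set (SimpleGraph (Fin n)) :=
  {G | ¬ ∃ v, v ≠ x ∧ v ≠ y ∧ v ≠ z ∧ (G.Adj v x ↔ a = true) ∧ (G.Adj v y ↔ b = true) ∧
    (G.Adj v z ↔ c = true)}

/-- One direction of the toggled pairs. -/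
def tog (x y z : Fin n) (s : Fin n → Bool × Bool × Bool) (u v : Fin n) : Prop :=
  (v ≠ x ∧ v ≠ y ∧ v ≠ z) ∧ ((u = x ∧ (s v).1 = true) ∨ (u = y ∧ (s v).2.1 = true) ∨
    (u = z ∧ (s v).2.2 = true))

/-- The graph of toggled pairs. -/
def K (x y z : Fin n) (s : Fin n → Bool × Bool × Bool) : SimpleGraph (Fin n) where
  Adj u v := tog x y z s u v ∨ tog x y z s v u
  symm := ⟨fun _ _ h => h.symm⟩
  loopless := ⟨by
    rintro u (⟨⟨h1, h2, h3⟩, h | h | h⟩ | ⟨⟨h1, h2, h3⟩, h | h | h⟩)
    · exact h1 h.1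
    · exact h2 h.1
    · exact h3 h.1
    · exact h1 h.1
    · exact h2 h.1
    · exact h3 h.1⟩

theorem K_adj (x y z : Fin n) (hxy : x ≠ y) (hxz : x ≠ z) (hyz : y ≠ z)
    (s : Fin n → Bool × Bool × Bool) (v : Fin n) (h1 : v ≠ x) (h2 : v ≠ y) (h3 : v ≠ z) :
    ((K x y z s).Adj v x ↔ (s v).1 = true) ∧ ((K x y z s).Adj v y ↔ (s v).2.1 = true) ∧
      ((K x y z s).Adj v z ↔ (s v).2.2 = true) := by
  simp only [K, tog]
  refine ⟨?_, ?_, ?_⟩
  · simp [h1, h2, h3, hxy, hxz]
  · simp [h1, h2, h3, hxy.symm, hyz]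
  · simp [h1, h2, h3, hxz.symm, hyz.symm]

theorem symmDiff_adj (G K : SimpleGraph (Fin n)) (u v : Fin n) :
    (symmDiff G K).Adj u v ↔ (G.Adj u v ∧ ¬ K.Adj u v) ∨ (K.Adj u v ∧ ¬ G.Adj u v) := by
  simp [symmDiff, SimpleGraph.sdiff_adj]

open Classical in
theorem bad_card (x y z : Fin n) (hxy : x ≠ y) (hxz : x ≠ z) (hyz : y ≠ z) (a b c : Bool) :
    (Bad x y z a b c).ncard * 8 ^ n ≤ Nat.card (SimpleGraph (Fin n)) * (8 ^ 3 * 7 ^ (n - 3)) := by
  have : Fintype (SimpleGraph (Fin n)) := Fintype.ofFinite _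
  set S := Fin n → Bool × Bool × Bool with hS
  set B : Finset (SimpleGraph (Fin n)) := (Bad x y z a b c).toFinset with hB
  have hBc : (Bad x y z a b c).ncard = B.card := Set.ncard_eq_toFinset_card' _
  have hScard : Fintype.card S = 8 ^ n := by
    simp [hS]
  have h1 : ∑ s : S, (Finset.univ.filter (fun G : SimpleGraph (Fin n) =>
      symmDiff G (K x y z s) ∈ B)).card = 8 ^ n * B.card := by
    have : ∀ s : S, (Finset.univ.filter (fun G : SimpleGraph (Fin n) =>
      symmDiff G (K x y z s) ∈ B)).card = B.card := by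
      intro s
      apply Finset.card_bij (fun G _ => symmDiff G (K x y z s))
      · intro G hG
        exact (Finset.mem_filter.mp hG).2
      · intro G _ G' _ h
        exact symmDiff_left_injective _ h
      · intro G hG
        refine ⟨symmDiff G (K x y z s), ?_, ?_⟩
        · rw [Finset.mem_filter]
          refine ⟨Finset.mem_univ _, ?_⟩
          rw [symmDiff_symmDiff_cancel_right]
          exact hG
        · exact symmDiff_symmDiff_cancel_right _ _
    rw [Finset.sum_congr rfl (fun s _ => this s), Finset.sum_const, Finset.card_univ, hScard]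
    simp
  have h2 : ∑ s : S, (Finset.univ.filter (fun G : SimpleGraph (Fin n) =>
      symmDiff G (K x y z s) ∈ B)).card =
      ∑ G : SimpleGraph (Fin n), (Finset.univ.filter (fun s : S =>
      symmDiff G (K x y z s) ∈ B)).card := by
    simp only [Finset.card_filter]
    exact Finset.sum_comm
  have h3 : ∀ G : SimpleGraph (Fin n), (Finset.univ.filter (fun s : S =>
      symmDiff G (K x y z s) ∈ B)).card ≤ 8 ^ 3 * 7 ^ (n - 3) := by
    intro G
    let p : Fin n → Bool × Bool × Bool := fun v =>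
      (xor (decide (G.Adj v x)) a, xor (decide (G.Adj v y)) b, xor (decide (G.Adj v z)) c)
    have hsub : (Finset.univ.filter (fun s : S => symmDiff G (K x y z s) ∈ B)) ⊆
        Fintype.piFinset (fun v => if v = x ∨ v = y ∨ v = z then Finset.univ else
          Finset.univ.erase (p v)) := by
      intro s hs
      rw [Fintype.mem_piFinset]
      intro v
      split_ifs with hv
      · exact Finset.mem_univ _
      · rw [Finset.mem_erase]
        refine ⟨?_, Finset.mem_univ _⟩
        intro hsv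
        rw [Finset.mem_filter, hB, Set.mem_toFinset] at hs
        apply hs.2
        push Not at hv
        obtain ⟨k1, k2, k3⟩ := K_adj x y z hxy hxz hyz s v hv.1 hv.2.1 hv.2.2
        refine ⟨v, hv.1, hv.2.1, hv.2.2, ?_, ?_, ?_⟩
        · rw [symmDiff_adj, k1, hsv]
          simp only [p]
          by_cases h : G.Adj v x <;> cases a <;> simp [h]
        · rw [symmDiff_adj, k2, hsv]
          simp only [p]
          by_cases h : G.Adj v y <;> cases b <;> simp [h]
        · rw [symmDiff_adj, k3, hsv]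
          simp only [p]
          by_cases h : G.Adj v z <;> cases c <;> simp [h]
    refine (Finset.card_le_card hsub).trans ?_
    rw [Fintype.card_piFinset]
    have h4 : ∀ v : Fin n, (if v = x ∨ v = y ∨ v = z then Finset.univ else
          Finset.univ.erase (p v)).card = if v = x ∨ v = y ∨ v = z then 8 else 7 := by
      intro v
      split_ifs
      · rfl
      · rw [Finset.card_erase_of_mem (Finset.mem_univ _)]
        rfl
    rw [Finset.prod_congr rfl (fun v _ => h4 v), Finset.prod_ite, Finset.prod_const,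
      Finset.prod_const]
    have h5 : (Finset.univ.filter (fun v : Fin n => v = x ∨ v = y ∨ v = z)) = {x, y, z} := by
      ext v; simp
    have h6 : (Finset.univ.filter (fun v : Fin n => v = x ∨ v = y ∨ v = z)).card = 3 := by
      rw [h5, Finset.card_insert_of_notMem (by simp [hxy, hxz]), Finset.card_pair hyz]
    have h7 : (Finset.univ.filter (fun v : Fin n => ¬ (v = x ∨ v = y ∨ v = z))).card = n - 3 := by
      have := Finset.card_filter_add_card_filter_not (s := (Finset.univ : Finset (Fin n)))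
        (fun v : Fin n => v = x ∨ v = y ∨ v = z)
      rw [Finset.card_univ, Fintype.card_fin] at this
      omega
    rw [h6, h7]
  have h8 : ∑ G : SimpleGraph (Fin n), (Finset.univ.filter (fun s : S =>
      symmDiff G (K x y z s) ∈ B)).card ≤ Nat.card (SimpleGraph (Fin n)) * (8 ^ 3 * 7 ^ (n - 3)) := by
    refine (Finset.sum_le_card_nsmul _ _ _ (fun G _ => h3 G)).trans ?_
    rw [Finset.card_univ, Nat.card_eq_fintype_card, smul_eq_mul]
  rw [hBc, mul_comm, ← h1, h2]
  exact h8

end counting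

/-- The proportion of labelled graphs on `n` vertices with a property. -/
noncomputable def proportion (P : ∀ n : ℕ, SimpleGraph (Fin n) → Prop) (n : ℕ) : ℝ :=
  ({G : SimpleGraph (Fin n) | P n G}.ncard : ℝ) / (Nat.card (SimpleGraph (Fin n)) : ℝ)

theorem bad_total (n : ℕ) (hn : 3 ≤ n) :
    ({G : SimpleGraph (Fin n) | ¬ E3 G}.ncard : ℝ) ≤
      8 * (n : ℝ) ^ 3 * (7 / 8) ^ (n - 3) * Nat.card (SimpleGraph (Fin n)) := by
  classical
  have : Fintype (SimpleGraph (Fin n)) := Fintype.ofFinite _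
  let I := {t : Fin n × Fin n × Fin n // t.1 ≠ t.2.1 ∧ t.1 ≠ t.2.2 ∧ t.2.1 ≠ t.2.2} ×
    (Bool × Bool × Bool)
  have hsub : {G : SimpleGraph (Fin n) | ¬ E3 G} ⊆ ⋃ i : I,
      Bad i.1.1.1 i.1.1.2.1 i.1.1.2.2 i.2.1 i.2.2.1 i.2.2.2 := by
    intro G hG
    simp only [Set.mem_ofPred_eq, E3] at hG
    push Not at hG
    obtain ⟨x, y, z, hxy, hxz, hyz, a, b, c, h⟩ := hG
    rw [Set.mem_iUnion]
    refine ⟨(⟨(x, y, z), hxy, hxz, hyz⟩, (decide a, decide b, decide c)), ?_⟩
    rintro ⟨v, h1, h2, h3, h4, h5, h6⟩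
    have h6' : G.Adj v z ↔ c := by simpa using h6
    rcases h v h1 h2 h3 (by simpa using h4) (by simpa using h5) with ⟨q1, q2⟩ | ⟨q1, q2⟩
    · exact q2 (h6'.mp q1)
    · exact q1 (h6'.mpr q2)
  have hone : ∀ i : I, ((Bad i.1.1.1 i.1.1.2.1 i.1.1.2.2 i.2.1 i.2.2.1 i.2.2.2).ncard : ℝ) ≤
      (7 / 8) ^ (n - 3) * Nat.card (SimpleGraph (Fin n)) := by
    intro i
    have h1 := bad_card i.1.1.1 i.1.1.2.1 i.1.1.2.2 i.1.2.1 i.1.2.2.1 i.1.2.2.2 i.2.1 i.2.2.1
      i.2.2.2
    set N := (Bad i.1.1.1 i.1.1.2.1 i.1.1.2.2 i.2.1 i.2.2.1 i.2.2.2).ncard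
    have h2 : (N : ℝ) * 8 ^ n ≤ Nat.card (SimpleGraph (Fin n)) * (8 ^ 3 * 7 ^ (n - 3)) := by
      exact_mod_cast h1
    have h3 : (8 : ℝ) ^ n = 8 ^ 3 * 8 ^ (n - 3) := by
      rw [← pow_add]; congr 1; omega
    rw [h3] at h2
    have h4 : (0 : ℝ) < 8 ^ 3 * 8 ^ (n - 3) := by positivity
    rw [← le_div_iff₀ h4] at h2
    refine h2.trans (le_of_eq ?_)
    rw [div_pow]
    field_simp
  have hcardI : (Fintype.card I : ℝ) ≤ 8 * (n : ℝ) ^ 3 := by
    have h1 : Fintype.card I ≤ n ^ 3 * 8 := by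
      simp only [I, Fintype.card_prod, Fintype.card_bool]
      apply Nat.mul_le_mul
      · refine (Fintype.card_subtype_le _).trans ?_
        simp only [Fintype.card_prod, Fintype.card_fin]
        apply le_of_eq; ring
      · norm_num
    have : (Fintype.card I : ℝ) ≤ ((n ^ 3 * 8 : ℕ) : ℝ) := by exact_mod_cast h1
    refine this.trans (le_of_eq ?_)
    push_cast; ring
  have h1 : {G : SimpleGraph (Fin n) | ¬ E3 G}.ncard ≤
      ∑ i : I, (Bad i.1.1.1 i.1.1.2.1 i.1.1.2.2 i.2.1 i.2.2.1 i.2.2.2).ncard := by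
    refine (Set.ncard_le_ncard hsub (Set.toFinite _)).trans ?_
    exact Set.ncard_iUnion_le_of_fintype _
  have h2 : ({G : SimpleGraph (Fin n) | ¬ E3 G}.ncard : ℝ) ≤
      ∑ i : I, ((Bad i.1.1.1 i.1.1.2.1 i.1.1.2.2 i.2.1 i.2.2.1 i.2.2.2).ncard : ℝ) := by
    exact_mod_cast h1
  refine h2.trans ((Finset.sum_le_card_nsmul _ _ _ (fun i _ => hone i)).trans ?_)
  rw [Finset.card_univ, nsmul_eq_mul]
  have h3 : (0 : ℝ) ≤ (7 / 8) ^ (n - 3) * Nat.card (SimpleGraph (Fin n)) := by positivity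
  calc (Fintype.card I : ℝ) * ((7 / 8) ^ (n - 3) * Nat.card (SimpleGraph (Fin n)))
      ≤ (8 * (n : ℝ) ^ 3) * ((7 / 8) ^ (n - 3) * Nat.card (SimpleGraph (Fin n))) :=
        mul_le_mul_of_nonneg_right hcardI h3
    _ = _ := by ring

theorem main : Tendsto (proportion (fun _ G => theta 3 G = 3)) atTop (𝓝 1) := by
  have hlim : Tendsto (fun n : ℕ => 1 - 8 * (n : ℝ) ^ 3 * (7 / 8) ^ (n - 3)) atTop (𝓝 1) := by
    have h1 : Tendsto (fun n : ℕ => (n : ℝ) ^ 3 * (7 / 8 : ℝ) ^ n) atTop (𝓝 0) :=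
      tendsto_pow_const_mul_const_pow_of_abs_lt_one 3 (by rw [abs_lt]; constructor <;> norm_num)
    have h2 : Tendsto (fun n : ℕ => 1 - (8 * (8 / 7) ^ 3) * ((n : ℝ) ^ 3 * (7 / 8 : ℝ) ^ n)) atTop
        (𝓝 (1 - (8 * (8 / 7) ^ 3) * 0)) := (h1.const_mul _).const_sub _
    rw [mul_zero, sub_zero] at h2
    refine h2.congr' ?_
    filter_upwards [eventually_ge_atTop 3] with n hn
    have h3 : (7 / 8 : ℝ) ^ n = (7 / 8) ^ 3 * (7 / 8) ^ (n - 3) := by
      rw [← pow_add]; congr 1; omega
    rw [h3]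
    ring
  refine tendsto_of_tendsto_of_tendsto_of_le_of_le' hlim tendsto_const_nhds ?_ ?_
  · filter_upwards [eventually_ge_atTop 3] with n hn
    have hfin : Finite (SimpleGraph (Fin n)) := inferInstance
    have hpos : (0 : ℝ) < Nat.card (SimpleGraph (Fin n)) := by
      exact_mod_cast Nat.card_pos
    have hb := bad_total n hn
    unfold proportion
    rw [le_div_iff₀ hpos]
    have hcompl := Set.ncard_add_ncard_compl {G : SimpleGraph (Fin n) | E3 G}
    have hc2 : ({G : SimpleGraph (Fin n) | E3 G}ᶜ) = {G | ¬ E3 G} := rfl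
    rw [hc2] at hcompl
    have hle : {G : SimpleGraph (Fin n) | E3 G}.ncard ≤
        {G : SimpleGraph (Fin n) | theta 3 G = 3}.ncard := by
      apply Set.ncard_le_ncard _ (Set.toFinite _)
      intro G hG
      apply theta_eq_three hG
      · intro u v
        have : ∃ w : Fin n, w ∉ ({u, v} : Finset (Fin n)) := by
          by_contra hcon
          push Not at hcon
          have h1 : (Finset.univ : Finset (Fin n)) ⊆ {u, v} := fun w _ => hcon w
          have h2 := Finset.card_le_card h1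
          rw [Finset.card_univ, Fintype.card_fin] at h2
          have h3 : ({u, v} : Finset (Fin n)).card ≤ 2 := Finset.card_le_two
          omega
        obtain ⟨w, hw⟩ := this
        simp only [Finset.mem_insert, Finset.mem_singleton, not_or] at hw
        exact ⟨w, hw.1, hw.2⟩
      · exact ⟨⟨0, by omega⟩⟩
    have h1 : (({G : SimpleGraph (Fin n) | E3 G}.ncard : ℝ) +
        {G : SimpleGraph (Fin n) | ¬ E3 G}.ncard) = Nat.card (SimpleGraph (Fin n)) := by
      exact_mod_cast hcompl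
    have h2 : ({G : SimpleGraph (Fin n) | E3 G}.ncard : ℝ) ≤
        {G : SimpleGraph (Fin n) | theta 3 G = 3}.ncard := by exact_mod_cast hle
    linarith
  · refine Eventually.of_forall (fun n => ?_)
    unfold proportion
    apply div_le_one_of_le₀ _ (Nat.cast_nonneg _)
    have : {G : SimpleGraph (Fin n) | theta 3 G = 3}.ncard ≤ Nat.card (SimpleGraph (Fin n)) := by
      rw [← Set.ncard_univ]
      exact Set.ncard_le_ncard (Set.subset_univ _) (Set.toFinite _)
    exact_mod_cast this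

end Pool.Agent.V11118.ASC
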