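import Pool.Agent.V11118.Survival2

/-!
Hyperbolic vertex-transitive graphs which do not have linear growth have infinite survival number.
-/

namespace Pool.Agent.V11118.Hyp

open SimpleGraph Pool.Agent.V11118.Survival

variable {V : Type*} {G : SimpleGraph V}

/-- Geodesic triangles with corners at vertices are `δ`-thin for some `δ`. -/
def Hyperbolic (G : SimpleGraph V) : Prop :=
  ∃ δ : ℕ, ∀ (x y z : V) (P : G.Walk x y) (Q : G.Walk y z) (R : G.Walk x z),
    P.length = G.dist x y → Q.length = G.dist y z → R.length = G.dist x z →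
    ∀ p ∈ P.support, (∃ q ∈ Q.support, G.dist p q ≤ δ) ∨ (∃ q ∈ R.support, G.dist p q ≤ δ)

/-- Twice the Gromov product. -/
noncomputable def gp (G : SimpleGraph V) (x y w : V) : ℤ :=
  G.dist x w + G.dist y w - G.dist x y

theorem mem_geodesic (hc : G.Connected) {x y : V} (P : G.Walk x y) (hP : P.length = G.dist x y)
    {p : V} (hp : p ∈ P.support) : G.dist x p + G.dist p y = G.dist x y := by
  classical
  apply le_antisymm
  · have h1 := SimpleGraph.dist_le (P.takeUntil p hp)
    have h2 := SimpleGraph.dist_le (P.dropUntil p hp)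
    have h3 : (P.takeUntil p hp).length + (P.dropUntil p hp).length = P.length := by
      rw [← Walk.length_append, Walk.take_spec]
    omega
  · exact hc.dist_triangle

theorem gp_le (hc : G.Connected) {x y : V} (P : G.Walk x y) (hP : P.length = G.dist x y)
    {p : V} (hp : p ∈ P.support) (w : V) : gp G x y w ≤ 2 * G.dist w p := by
  have h1 := mem_geodesic hc P hP hp
  have h2 := hc.dist_triangle (u := x) (v := p) (w := w)
  have h3 := hc.dist_triangle (u := y) (v := p) (w := w)
  rw [SimpleGraph.dist_comm (u := p) (v := w)] at h2 h3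
  rw [SimpleGraph.dist_comm (u := y) (v := p)] at h3
  unfold gp
  omega

/-- There is a point of the geodesic `P` close to `w`. -/
theorem exists_close (hc : G.Connected) {δ : ℕ}
    (hδ : ∀ (x y z : V) (P : G.Walk x y) (Q : G.Walk y z) (R : G.Walk x z),
    P.length = G.dist x y → Q.length = G.dist y z → R.length = G.dist x z →
    ∀ p ∈ P.support, (∃ q ∈ Q.support, G.dist p q ≤ δ) ∨ (∃ q ∈ R.support, G.dist p q ≤ δ))
    {x y : V} (P : G.Walk x y) (hP : P.length = G.dist x y) (w : V) :
    ∃ p ∈ P.support, 2 * (G.dist w p : ℤ) ≤ gp G x y w + 4 * δ + 2 := by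
  obtain ⟨Q, hQ⟩ := hc.exists_walk_length_eq_dist y w
  obtain ⟨R, hR⟩ := hc.exists_walk_length_eq_dist x w
  -- `i` such that the vertex number `i` is close to `R`, and vertex `j` is close to `Q`
  obtain ⟨p, p', hp, hp', hpp, ⟨q, hq, hpq⟩, ⟨q', hq', hpq'⟩⟩ : ∃ p p' : V, p ∈ P.support ∧
      p' ∈ P.support ∧ G.dist p p' ≤ 1 ∧ (∃ q ∈ R.support, G.dist p q ≤ δ) ∧
      (∃ q ∈ Q.support, G.dist p' q ≤ δ) := by
    classical
    have hall : ∀ i : ℕ, (∃ q ∈ Q.support, G.dist (P.getVert i) q ≤ δ) ∨
        (∃ q ∈ R.support, G.dist (P.getVert i) q ≤ δ) := fun i =>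
      hδ x y w P Q R hP hQ hR _ (P.getVert_mem_support i)
    have hend : ∃ i : ℕ, ∃ q ∈ Q.support, G.dist (P.getVert i) q ≤ δ := by
      refine ⟨P.length, y, Q.start_mem_support, ?_⟩
      rw [Walk.getVert_length]
      simp
    set i := Nat.find hend with hi
    have hi1 := Nat.find_spec hend
    by_cases hi0 : i = 0
    · refine ⟨P.getVert 0, P.getVert 0, P.getVert_mem_support _, P.getVert_mem_support _, by simp,
        ⟨x, R.start_mem_support, by simp⟩, ?_⟩
      rw [← hi, hi0] at hi1
      exact hi1
    · have hlt : i - 1 < i := by omega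
      have hnot := Nat.find_min hend hlt
      have hR' := (hall (i - 1)).resolve_left hnot
      refine ⟨P.getVert (i - 1), P.getVert i, P.getVert_mem_support _, P.getVert_mem_support _, ?_,
        hR', hi1⟩
      by_cases hil : i - 1 < P.length
      · have hadj := P.adj_getVert_succ hil
        rw [show i - 1 + 1 = i by omega] at hadj
        rw [SimpleGraph.dist_eq_one_iff_adj.mpr hadj]
      · rw [P.getVert_of_length_le (by omega : P.length ≤ i - 1),
          P.getVert_of_length_le (by omega : P.length ≤ i)]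
        simp
  refine ⟨p, hp, ?_⟩
  have e1 := mem_geodesic hc P hP hp
  have e2 := mem_geodesic hc R hR hq
  have e3 := mem_geodesic hc Q hQ hq'
  have t1 := hc.dist_triangle (u := w) (v := q) (w := p)
  have t2 := hc.dist_triangle (u := x) (v := q) (w := p)
  have t3 := hc.dist_triangle (u := w) (v := q') (w := p')
  have t4 := hc.dist_triangle (u := w) (v := p') (w := p)
  have t5 := hc.dist_triangle (u := p) (v := p') (w := y)
  have t6 := hc.dist_triangle (u := p') (v := q') (w := y)
  rw [SimpleGraph.dist_comm (u := w) (v := q), SimpleGraph.dist_comm (u := q) (v := p)] at t1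
  rw [SimpleGraph.dist_comm (u := q) (v := p)] at t2
  rw [SimpleGraph.dist_comm (u := w) (v := q'), SimpleGraph.dist_comm (u := q') (v := p')] at t3
  rw [SimpleGraph.dist_comm (u := p') (v := p)] at t4
  rw [SimpleGraph.dist_comm (u := q') (v := y)] at t6
  unfold gp
  omega

/-- The four point inequality. -/
theorem four_point (hc : G.Connected) (hh : Hyperbolic G) : ∃ C : ℕ, ∀ x y z w : V,
    min (gp G x y w) (gp G y z w) ≤ gp G x z w + C := by
  obtain ⟨δ, hδ⟩ := hh
  refine ⟨6 * δ + 2, fun x y z w => ?_⟩
  obtain ⟨P, hP⟩ := hc.exists_walk_length_eq_dist x z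
  obtain ⟨Q, hQ⟩ := hc.exists_walk_length_eq_dist z y
  obtain ⟨R, hR⟩ := hc.exists_walk_length_eq_dist x y
  obtain ⟨p, hp, hpw⟩ := exists_close hc hδ P hP w
  have hw : ∀ q, G.dist p q ≤ δ → 2 * (G.dist w q : ℤ) ≤ gp G x z w + 6 * δ + 2 := by
    intro q hq
    have := hc.dist_triangle (u := w) (v := p) (w := q)
    omega
  rcases hδ x z y P Q R hP hQ hR p hp with ⟨q, hq, hpq⟩ | ⟨q, hq, hpq⟩
  · have h1 := hw q hpq
    have h2 := gp_le hc Q hQ hq w
    have h3 : gp G y z w = gp G z y w := by
      unfold gp
      rw [SimpleGraph.dist_comm (u := y) (v := z)]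
      ring
    apply (min_le_right _ _).trans
    rw [h3]
    push_cast
    omega
  · have h1 := hw q hpq
    have h2 := gp_le hc R hR hq w
    apply (min_le_left _ _).trans
    push_cast
    omega

/-- Every vertex is the midpoint of a geodesic of length `2t`. -/
theorem exists_midpoint (hn : Nice G) (x : V) (t : ℕ) :
    ∃ a b : V, G.dist x a = t ∧ G.dist x b = t ∧ G.dist a b = 2 * t := by
  obtain ⟨hinf, hc, hlf, hvt⟩ := hn
  obtain ⟨z, hz⟩ := exists_far hc hlf {x} (2 * t)
  have hz := hz x (by simp)
  obtain ⟨P, hP⟩ := hc.exists_walk_length_eq_dist x z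
  -- points at distance `t` and `2t`
  have key : ∀ i j : ℕ, i ≤ j → j ≤ P.length → G.dist (P.getVert i) (P.getVert j) = j - i := by
    intro i j hij hj
    apply le_antisymm
    · have h1 := SimpleGraph.dist_le ((P.drop i).take (j - i))
      rw [Walk.take_length, Walk.drop_length, Walk.drop_getVert] at h1
      rw [show i + (j - i) = j by omega] at h1
      exact h1.trans (min_le_left _ _)
    · have h1 := SimpleGraph.dist_le (P.take i)
      have h2 := SimpleGraph.dist_le (P.drop j)
      rw [Walk.take_length] at h1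
      rw [Walk.drop_length] at h2
      have h3 := hc.dist_triangle (u := x) (v := P.getVert i) (w := z)
      have h4 := hc.dist_triangle (u := P.getVert i) (v := P.getVert j) (w := z)
      have h5 : min i P.length ≤ i := min_le_left _ _
      omega
  obtain ⟨φ, hφ⟩ := hvt (P.getVert t) x
  have k1 := key 0 t (by omega) (by omega)
  have k2 := key t (2 * t) (by omega) (by omega)
  have k3 := key 0 (2 * t) (by omega) (by omega)
  rw [Walk.getVert_zero] at k1 k3
  refine ⟨φ x, φ (P.getVert (2 * t)), ?_, ?_, ?_⟩
  · have h5 := dist_iso hc φ (P.getVert t) x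
    rw [hφ, SimpleGraph.dist_comm (u := P.getVert t), k1] at h5
    omega
  · have h5 := dist_iso hc φ (P.getVert t) (P.getVert (2 * t))
    rw [hφ, k2] at h5
    omega
  · rw [dist_iso hc, k3]; omega

/-- Escaping from `v` through `x`. -/
theorem exists_escape (hn : Nice G) {C : ℕ}
    (hC : ∀ x y z w : V, min (gp G x y w) (gp G y z w) ≤ gp G x z w + C) (v x : V) (t : ℕ) :
    ∃ u : V, G.dist x u = t ∧ t + G.dist v x ≤ G.dist u v + C := by
  obtain ⟨a, b, h1, h2, h3⟩ := exists_midpoint hn x t
  have h := hC a v b x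
  have h0 : gp G a b x = 0 := by
    unfold gp
    rw [SimpleGraph.dist_comm (u := a) (v := x), SimpleGraph.dist_comm (u := b) (v := x)]
    omega
  rw [h0] at h
  rcases min_le_iff.mp h with h | h
  · refine ⟨a, h1, ?_⟩
    unfold gp at h
    rw [SimpleGraph.dist_comm (u := a) (v := x)] at h
    omega
  · refine ⟨b, h2, ?_⟩
    unfold gp at h
    rw [SimpleGraph.dist_comm (u := b) (v := x), SimpleGraph.dist_comm (u := v) (v := b)] at h
    omega

/-- Many separated points on some sphere. -/
theorem exists_separated (hn : Nice G) (hg : ¬ LinearGrowth G) (N L : ℕ) :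
    ∃ R : ℕ, ∀ v : V, ∃ M : Finset V, M.card = N ∧ (∀ x ∈ M, G.dist x v = R) ∧
      ∀ x ∈ M, ∀ y ∈ M, x ≠ y → L < G.dist x y := by
  classical
  obtain ⟨hinf, hc, hlf, hvt⟩ := hn
  by_contra hcon
  push Not at hcon
  apply hg
  -- no separated sets of size `N` in any sphere
  have hno : ∀ (v : V) (R : ℕ) (M : Finset V), (∀ x ∈ M, G.dist x v = R) →
      (∀ x ∈ M, ∀ y ∈ M, x ≠ y → L < G.dist x y) → M.card < N := by
    intro v R M hM1 hM2
    by_contra hcard
    rw [not_lt] at hcard
    obtain ⟨M', hM', hM'card⟩ := Finset.exists_subset_card_eq hcard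
    obtain ⟨v', hv'⟩ := hcon R
    obtain ⟨φ, hφ⟩ := hvt v v'
    obtain ⟨x, hx, y, hy, hxy, hle⟩ := hv' (M'.image φ)
      (by rw [Finset.card_image_of_injective _ φ.injective, hM'card]) (by
        intro x hx
        obtain ⟨z, hz, rfl⟩ := Finset.mem_image.mp hx
        rw [← hφ, dist_iso hc]
        exact hM1 z (hM' hz))
    obtain ⟨x', hx', rfl⟩ := Finset.mem_image.mp hx
    obtain ⟨y', hy', rfl⟩ := Finset.mem_image.mp hy
    rw [dist_iso hc] at hle
    have := hM2 x' (hM' hx') y' (hM' hy') (fun h => hxy (by rw [h]))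
    omega
  obtain ⟨o⟩ := hc.nonempty
  have hballfin : ∀ (v : V) (r : ℕ), {u | G.dist u v ≤ r}.Finite := by
    intro v r
    have := closedBall_finite hc hlf v r
    refine this.subset ?_
    intro u hu
    simp only [Set.mem_ofPred_eq] at hu ⊢
    rw [SimpleGraph.dist_comm]; exact hu
  set β : ℕ := (hballfin o L).toFinset.card with hβ
  have hβ' : ∀ v, (hballfin v L).toFinset.card = β := by
    intro v
    obtain ⟨φ, hφ⟩ := hvt o v
    rw [hβ, ← Finset.card_image_of_injective (hballfin o L).toFinset φ.injective]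
    congr 1
    ext u
    simp only [Set.Finite.mem_toFinset, Set.mem_ofPred_eq, Finset.mem_image]
    constructor
    · intro h
      refine ⟨φ.symm u, ?_, by simp⟩
      have := dist_iso hc φ (φ.symm u) o
      rw [hφ] at this
      simp only [RelIso.apply_symm_apply] at this
      omega
    · rintro ⟨z, hz, rfl⟩
      rw [← hφ, dist_iso hc]
      exact hz
  -- spheres have bounded size
  have hsphere : ∀ (v : V) (R : ℕ),
      ((hballfin v R).toFinset.filter (fun u => G.dist u v = R)).card ≤ N * β := by
    intro v R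
    set Sph := (hballfin v R).toFinset.filter (fun u => G.dist u v = R) with hSph
    -- a maximal separated subset
    let F := Sph.powerset.filter (fun M => ∀ x ∈ M, ∀ y ∈ M, x ≠ y → L < G.dist x y)
    have hFne : F.Nonempty := ⟨∅, by simp [F]⟩
    obtain ⟨M, hMF, hMmax⟩ := F.exists_max_image Finset.card hFne
    simp only [F, Finset.mem_filter, Finset.mem_powerset] at hMF
    obtain ⟨hMsub, hMsep⟩ := hMF
    have hMcard := hno v R M (fun x hx => (Finset.mem_filter.mp (hMsub hx)).2) hMsep
    have hcover : Sph ⊆ M.biUnion (fun m => (hballfin m L).toFinset) := by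
      intro u hu
      rw [Finset.mem_biUnion]
      by_contra hcon2
      push Not at hcon2
      have hum : ∀ m ∈ M, L < G.dist u m := by
        intro m hm
        have := hcon2 m hm
        simpa using this
      have huM : u ∉ M := by
        intro h
        have := hum u h
        simp at this
      have := hMmax (insert u M) (by
        simp only [F, Finset.mem_filter, Finset.mem_powerset]
        refine ⟨Finset.insert_subset hu hMsub, ?_⟩
        intro x hx y hy hxy
        rcases Finset.mem_insert.mp hx with h | hx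
        · rcases Finset.mem_insert.mp hy with h' | hy
          · exact absurd (h.trans h'.symm) hxy
          · rw [h]; exact hum y hy
        · rcases Finset.mem_insert.mp hy with h' | hy
          · rw [h', SimpleGraph.dist_comm]; exact hum x hx
          · exact hMsep x hx y hy hxy)
      rw [Finset.card_insert_of_notMem huM] at this
      omega
    calc Sph.card ≤ (M.biUnion (fun m => (hballfin m L).toFinset)).card :=
          Finset.card_le_card hcover
      _ ≤ M.card * β := by
          apply Finset.card_biUnion_le_card_mul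
          intro m _
          rw [hβ' m]
      _ ≤ N * β := Nat.mul_le_mul_right _ hMcard.le
  refine ⟨N * β, N * β, fun v r => ?_⟩
  have hfin := hballfin v r
  rw [hfin.encard_eq_coe_toFinset_card]
  have hsub : hfin.toFinset ⊆ (Finset.range (r + 1)).biUnion
      (fun R => (hballfin v R).toFinset.filter (fun u => G.dist u v = R)) := by
    intro u hu
    simp only [Set.Finite.mem_toFinset, Set.mem_ofPred_eq] at hu
    simp only [Finset.mem_biUnion, Finset.mem_range, Finset.mem_filter, Set.Finite.mem_toFinset,
      Set.mem_ofPred_eq]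
    exact ⟨G.dist u v, by omega, le_rfl, rfl⟩
  have h1 := Finset.card_le_card hsub
  have h2 := Finset.card_biUnion_le_card_mul (Finset.range (r + 1))
    (fun R => (hballfin v R).toFinset.filter (fun u => G.dist u v = R)) (N * β)
    (fun R _ => hsphere v R)
  rw [Finset.card_range] at h2
  have h3 : hfin.toFinset.card ≤ N * β * r + N * β := by
    calc hfin.toFinset.card ≤ (r + 1) * (N * β) := h1.trans h2
      _ = N * β * r + N * β := by ring
  exact_mod_cast h3

theorem forced (hn : Nice G) (hh : Hyperbolic G) (hg : ¬ LinearGrowth G) (n : ℕ) :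
    Forced G n := by
  classical
  have hn' := hn
  obtain ⟨hinf, hc, hlf, hvt⟩ := hn'
  obtain ⟨C, hC⟩ := four_point hc hh
  obtain ⟨R, hR⟩ := exists_separated hn hg n (3 * C)
  refine ⟨2 * R + C, fun T hT => ?_⟩
  obtain ⟨hcard, hsep⟩ := hT
  refine le_I hcard (fun v hv hfin => ?_)
  obtain ⟨B, hB, hbeat⟩ := beaten hv hfin
  obtain ⟨S, hScard, hS⟩ := exists_sites (G := G) T
  rw [← hScard]
  obtain ⟨M, hMcard, hM1, hM2⟩ := hR v
  -- radius of the bad set
  obtain ⟨ρ, hρ⟩ : ∃ ρ : ℕ, ∀ u ∈ B, G.dist u v ≤ ρ := by
    refine ⟨∑ u ∈ hB.toFinset, G.dist u v, fun u hu => ?_⟩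
    exact Finset.single_le_sum (f := fun u => G.dist u v) (fun _ _ => Nat.zero_le _)
      (hB.mem_toFinset.mpr hu)
  choose U hU1 hU2 using fun x => exists_escape hn hC v x (ρ + C + 1)
  have hUB : ∀ x, U x ∉ B := by
    intro x hx
    have h1 := hρ _ hx
    have h2 := hU2 x
    omega
  choose W hW1 hW2 hW3 using fun x => hbeat (U x) (hUB x)
  rw [← hMcard]
  apply Finset.card_le_card_of_injOn W
  · intro x _
    exact (hS _).mpr ⟨hW1 x, hW2 x⟩
  · intro x hx y hy hxy
    by_contra hne
    have hLt := hM2 x hx y hy hne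
    have ex := hM1 x hx
    have ey := hM1 y hy
    have hwv : W x ≠ v := by
      intro h
      have := hW2 x
      rw [h] at this
      exact this hfin
    have hsepw := hsep v hv (W x) (hW1 x) hwv.symm
    have f1 := hC (U x) (W x) (U y) v
    have f2 := hC x (U x) (U y) v
    have f3 := hC x (U y) y v
    have g1 := hW3 x
    have g2 := hW3 y
    have g3 := hU2 x
    have g4 := hU2 y
    have g5 := hU1 x
    have g6 := hU1 y
    rw [← hxy] at g2
    unfold gp at f1 f2 f3
    rw [SimpleGraph.dist_comm (u := W x) (v := U y)] at f1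
    rw [SimpleGraph.dist_comm (u := v) (v := x)] at g3
    rw [SimpleGraph.dist_comm (u := v) (v := y)] at g4
    rw [SimpleGraph.dist_comm (u := y) (v := U y)] at g6
    rw [SimpleGraph.dist_comm (u := v) (v := W x)] at hsepw
    omega

theorem survival_eq_top (hn : Nice G) (hh : Hyperbolic G) (hg : ¬ LinearGrowth G) :
    survival G = ⊤ :=
  Survival.survival_eq_top (fun n => ⟨n + 1, by omega, by omega, forced hn hh hg (n + 1)⟩)

end Pool.Agent.V11118.Hyp
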