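import Pool.Agent.V11118.Survival2

/-!
The lamplighter (Diestel-Leader) graph `DL(2,2)`: finite survival number, infinite unrestricted
Voronoi count.
-/

namespace Pool.Agent.V11118.Lamp

open SimpleGraph Pool.Agent.V11118.Survival Filter Topology

/-- `min {I(T) : |T| = n}`. -/
noncomputable def minI {V : Type*} (G : SimpleGraph V) (n : ℕ) : ℕ :=
  sInf {k : ℕ | ∃ T : Finset V, T.card = n ∧ I G T = k}

/-- One step to the right: the position increases by one and only the lamp on the traversed edge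
may change. -/
def Step (u w : Finset ℤ × ℤ) : Prop := w.2 = u.2 + 1 ∧ ∀ x, x ≠ u.2 → (x ∈ w.1 ↔ x ∈ u.1)

/-- The graph. -/
def LG : SimpleGraph (Finset ℤ × ℤ) where
  Adj u w := Step u w ∨ Step w u
  symm := ⟨fun _ _ h => h.symm⟩
  loopless := ⟨fun u h => by
    rcases h with h | h <;> exact absurd h.1 (by omega)⟩

/-- Climbing to the right. -/
theorem climb (k : ℕ) : ∀ (A B : Finset ℤ) (p : ℤ), (∀ x, x < p ∨ p + k ≤ x → (x ∈ A ↔ x ∈ B)) →
    ∃ q : LG.Walk (A, p) (B, p + k), q.length = k := by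
  induction k with
  | zero =>
    intro A B p h
    have : A = B := by
      ext x
      exact h x (by push_cast; omega)
    subst this
    have e : p + ((0 : ℕ) : ℤ) = p := by simp
    rw [e]
    exact ⟨Walk.nil, by simp⟩
  | succ k ih =>
    intro A B p h
    classical
    set A1 : Finset ℤ := (A.erase p) ∪ (B.filter (fun x => x = p)) with hA1
    have hmem : ∀ x, x ∈ A1 ↔ (x ≠ p ∧ x ∈ A) ∨ (x ∈ B ∧ x = p) := by
      intro x; simp [hA1]
    obtain ⟨q, hq⟩ := ih A1 B (p + 1) (by
      intro x hx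
      rw [hmem]
      by_cases hxp : x = p
      · subst hxp; simp
      · have := h x (by push_cast; omega)
        simp [hxp, this])
    have hadj : LG.Adj (A, p) (A1, p + 1) := by
      left
      refine ⟨rfl, fun x hx => ?_⟩
      simp only at hx ⊢
      rw [hmem]
      simp [hx]
    have e : p + 1 + (k : ℤ) = p + ((k + 1 : ℕ) : ℤ) := by push_cast; ring
    rw [← e]
    exact ⟨Walk.cons hadj q, by simp [hq]⟩

theorem climb' (A B : Finset ℤ) (p q : ℤ) (hpq : p ≤ q)
    (h : ∀ x, x < p ∨ q ≤ x → (x ∈ A ↔ x ∈ B)) :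
    LG.Reachable (A, p) (B, q) ∧ (LG.dist (A, p) (B, q) : ℤ) ≤ q - p := by
  obtain ⟨k, hk⟩ := Int.eq_ofNat_of_zero_le (show 0 ≤ q - p by omega)
  have e : q = p + k := by omega
  subst e
  obtain ⟨w, hw⟩ := climb k A B p h
  refine ⟨w.reachable, ?_⟩
  have := SimpleGraph.dist_le w
  omega

theorem connected : LG.Connected := by
  have : Nonempty (Finset ℤ × ℤ) := ⟨(∅, 0)⟩
  have key : ∀ (A : Finset ℤ) (p : ℤ), LG.Reachable (A, p) (∅, 0) := by
    intro A p
    obtain ⟨N, hN⟩ : ∃ N : ℕ, ∀ y ∈ A, (y.natAbs : ℕ) ≤ N := by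
      refine ⟨∑ y ∈ A, y.natAbs, fun y hy => ?_⟩
      exact Finset.single_le_sum (f := fun y : ℤ => y.natAbs) (fun _ _ => Nat.zero_le _) hy
    set m : ℤ := -(N : ℤ) - p.natAbs with hm
    set M : ℤ := (N : ℤ) + 1 + p.natAbs with hM
    have h1 := (climb' A A m p (by omega) (fun x _ => Iff.rfl)).1.symm
    have h2 := (climb' A ∅ m M (by omega) (by
      intro x hx
      simp only [Finset.notMem_empty, iff_false]
      intro hxA
      have := hN x hxA
      omega)).1
    have h3 := (climb' ∅ ∅ 0 M (by omega) (fun x _ => Iff.rfl)).1.symm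
    exact (h1.trans h2).trans h3
  exact ⟨fun u w => (key u.1 u.2).trans (key w.1 w.2).symm⟩

/-- Upper bound for distances. -/
theorem upper (A B : Finset ℤ) (p q m M : ℤ) (h1 : m ≤ p) (h2 : p ≤ M) (h3 : m ≤ q) (h4 : q ≤ M)
    (h : ∀ x, x < m ∨ M ≤ x → (x ∈ A ↔ x ∈ B)) :
    (LG.dist (A, p) (B, q) : ℤ) ≤ 2 * (M - m) - |p - q| := by
  have key : ∀ (A B : Finset ℤ) (p q : ℤ), p ≤ q → m ≤ p → q ≤ M →
      (∀ x, x < m ∨ M ≤ x → (x ∈ A ↔ x ∈ B)) →
      (LG.dist (A, p) (B, q) : ℤ) ≤ 2 * (M - m) - (q - p) := by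
    intro A B p q hpq h1 h4 h
    have e1 := (climb' A A m p h1 (fun x _ => Iff.rfl)).2
    have e2 := (climb' A B m M (by omega) h).2
    have e3 := (climb' B B q M (by omega) (fun x _ => Iff.rfl)).2
    have t1 := connected.dist_triangle (u := (A, p)) (v := (A, m)) (w := (B, M))
    have t2 := connected.dist_triangle (u := (A, p)) (v := (B, M)) (w := (B, q))
    rw [SimpleGraph.dist_comm (u := (A, p)) (v := (A, m))] at t1
    rw [SimpleGraph.dist_comm (u := (B, M)) (v := (B, q))] at t2
    omega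
  rcases le_total p q with hpq | hpq
  · have := key A B p q hpq h1 h4 h
    rw [abs_of_nonpos (by omega)]
    omega
  · have := key B A q p hpq h3 h2 (fun x hx => (h x hx).symm)
    rw [SimpleGraph.dist_comm] at this
    rw [abs_of_nonneg (by omega)]
    omega

/-- Lower bound for distances. -/
theorem lower (u w : Finset ℤ × ℤ) : ∃ m M : ℤ, m ≤ u.2 ∧ u.2 ≤ M ∧ m ≤ w.2 ∧ w.2 ≤ M ∧
    (∀ x, x < m ∨ M ≤ x → (x ∈ u.1 ↔ x ∈ w.1)) ∧
    2 * (M - m) - |u.2 - w.2| ≤ (LG.dist u w : ℤ) := by
  refine dist_invariant connected (v := w)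
    (fun n u => ∃ m M : ℤ, m ≤ u.2 ∧ u.2 ≤ M ∧ m ≤ w.2 ∧ w.2 ≤ M ∧
      (∀ x, x < m ∨ M ≤ x → (x ∈ u.1 ↔ x ∈ w.1)) ∧ 2 * (M - m) - |u.2 - w.2| ≤ (n : ℤ))
    ⟨w.2, w.2, le_rfl, le_rfl, le_rfl, le_rfl, fun _ _ => Iff.rfl, by simp⟩ ?_ u
  rintro n x y ⟨m, M, h1, h2, h3, h4, h5, h6⟩ hadj
  have habs : ∀ z : ℤ, (|z| = z ∧ 0 ≤ z) ∨ (|z| = -z ∧ z ≤ 0) := by
    intro z
    rcases le_total 0 z with h | h
    · left; exact ⟨abs_of_nonneg h, h⟩
    · right; exact ⟨abs_of_nonpos h, h⟩
  have a1 := habs (x.2 - w.2)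
  have a2 := habs (y.2 - w.2)
  rcases hadj with ⟨g1, g2⟩ | ⟨g1, g2⟩
  · refine ⟨m, max M y.2, by omega, by omega, h3, by omega, ?_, ?_⟩
    · intro z hz
      rw [g2 z (by omega)]
      exact h5 z (by omega)
    · push_cast
      omega
  · refine ⟨min m y.2, M, by omega, by omega, by omega, h4, ?_, ?_⟩
    · intro z hz
      rw [← g2 z (by omega)]
      exact h5 z (by omega)
    · push_cast
      omega

/-- Shift. -/
def shift (c : ℤ) : LG ≃g LG where
  toFun u := (u.1.image (· + c), u.2 + c)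
  invFun u := (u.1.image (· - c), u.2 - c)
  left_inv u := by
    refine Prod.ext ?_ (by simp)
    ext x
    simp only [Finset.mem_image]
    constructor
    · rintro ⟨y, ⟨z, hz, rfl⟩, rfl⟩; simpa using hz
    · intro h; exact ⟨x + c, ⟨x, h, rfl⟩, by ring⟩
  right_inv u := by
    refine Prod.ext ?_ (by simp)
    ext x
    simp only [Finset.mem_image]
    constructor
    · rintro ⟨y, ⟨z, hz, rfl⟩, rfl⟩; simpa using hz
    · intro h; exact ⟨x - c, ⟨x, h, rfl⟩, by ring⟩
  map_rel_iff' := by
    have hmem : ∀ (S : Finset ℤ) (x : ℤ), x ∈ S.image (· + c) ↔ x - c ∈ S := by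
      intro S x
      simp only [Finset.mem_image]
      constructor
      · rintro ⟨y, hy, rfl⟩; simpa using hy
      · intro h; exact ⟨x - c, h, by ring⟩
    have key : ∀ u w : Finset ℤ × ℤ, Step (u.1.image (· + c), u.2 + c) (w.1.image (· + c), w.2 + c) ↔
        Step u w := by
      intro u w
      unfold Step
      simp only [hmem]
      constructor
      · rintro ⟨h1, h2⟩
        refine ⟨by omega, fun x hx => ?_⟩
        have := h2 (x + c) (by omega)
        simpa using this
      · rintro ⟨h1, h2⟩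
        exact ⟨by omega, fun x hx => h2 (x - c) (by omega)⟩
    intro u w
    simp only [LG, Equiv.coe_fn_mk]
    rw [key u w, key w u]

/-- Toggling by a finite set. -/
def toggle (B : Finset ℤ) : LG ≃g LG where
  toFun u := (symmDiff u.1 B, u.2)
  invFun u := (symmDiff u.1 B, u.2)
  left_inv u := by simp
  right_inv u := by simp
  map_rel_iff' := by
    have key : ∀ u w : Finset ℤ × ℤ, Step (symmDiff u.1 B, u.2) (symmDiff w.1 B, w.2) ↔
        Step u w := by
      intro u w
      unfold Step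
      simp only [Finset.mem_symmDiff]
      constructor
      · rintro ⟨h1, h2⟩
        refine ⟨h1, fun x hx => ?_⟩
        have := h2 x hx
        by_cases hB : x ∈ B <;> simp [hB] at this <;> tauto
      · rintro ⟨h1, h2⟩
        refine ⟨h1, fun x hx => ?_⟩
        rw [h2 x hx]
    intro u w
    simp only [LG, Equiv.coe_fn_mk]
    rw [key u w, key w u]

theorem vertexTransitive : VertexTransitive LG := by
  have key : ∀ u : Finset ℤ × ℤ, ∃ φ : LG ≃g LG, φ (∅, 0) = u := by
    intro u
    refine ⟨(shift u.2).trans (toggle u.1), ?_⟩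
    refine Prod.ext ?_ (by simp [shift, toggle])
    ext x
    simp [shift, toggle, Finset.mem_symmDiff]
  intro u v
  obtain ⟨φ, hφ⟩ := key u
  obtain ⟨ψ, hψ⟩ := key v
  refine ⟨φ.symm.trans ψ, ?_⟩
  rw [← hφ, ← hψ]
  simp

theorem locFinite : LocFinite LG := by
  classical
  intro u
  have : ((Finset.powerset (insert u.2 (insert (u.2 - 1) u.1)) ×ˢ
    ({u.2 - 1, u.2 + 1} : Finset ℤ) : Finset (Finset ℤ × ℤ)) : Set (Finset ℤ × ℤ)).Finite :=
    Finset.finite_toSet _
  refine this.subset ?_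
  intro w hw
  rw [mem_neighborSet] at hw
  simp only [Finset.coe_product, Set.mem_prod, Finset.mem_coe, Finset.mem_powerset,
    Finset.mem_insert, Finset.mem_singleton]
  rcases hw with ⟨h1, h2⟩ | ⟨h1, h2⟩
  · refine ⟨fun x hx => ?_, Or.inr h1⟩
    simp only [Finset.mem_insert]
    by_cases hxu : x = u.2
    · exact Or.inl hxu
    · exact Or.inr (Or.inr ((h2 x hxu).mp hx))
  · refine ⟨fun x hx => ?_, Or.inl (by omega)⟩
    simp only [Finset.mem_insert]
    by_cases hxu : x = w.2
    · exact Or.inr (Or.inl (by omega))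
    · exact Or.inr (Or.inr ((h2 x hxu).mpr hx))

theorem nice : Nice LG := ⟨inferInstance, connected, locFinite, vertexTransitive⟩

/-- A site to the right. -/
theorem right_site {T : Finset (Finset ℤ × ℤ)} {S : Finset (Finset ℤ × ℤ)}
    (hS : ∀ w, w ∈ S ↔ w ∈ T ∧ (Cell LG T w).Infinite) {v : Finset ℤ × ℤ} (hv : v ∈ T)
    (hfin : (Cell LG T v).Finite) :
    ∃ w ∈ S, v.2 < w.2 ∧ w.2 < v.2 + 2 * S.card ∧ ∀ x, x < v.2 → (x ∈ w.1 ↔ x ∈ v.1) := by
  classical
  obtain ⟨A, p⟩ := v
  obtain ⟨B, hB, hbeat⟩ := beaten hv hfin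
  obtain ⟨f, hfinj, hflt⟩ := exists_enum S
  obtain ⟨N, hN⟩ : ∃ N : ℕ, ∀ y ∈ A, (y.natAbs : ℕ) ≤ N := by
    refine ⟨∑ y ∈ A, y.natAbs, fun y hy => ?_⟩
    exact Finset.single_le_sum (f := fun y : ℤ => y.natAbs) (fun _ _ => Nat.zero_le _) hy
  set X : Finset ℤ := A.filter (· < p) ∪ (S.image (fun w => p + (f w : ℤ))).filter
    (fun z => ∃ w ∈ S, z = p + f w ∧ z ∉ w.1) with hX
  have hXmem : ∀ x, x ∈ X ↔ (x ∈ A ∧ x < p) ∨ ∃ w ∈ S, x = p + f w ∧ x ∉ w.1 := by
    intro x
    rw [hX, Finset.mem_union, Finset.mem_filter, Finset.mem_filter, Finset.mem_image]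
    constructor
    · rintro (h | ⟨_, h⟩)
      · exact Or.inl h
      · exact Or.inr h
    · rintro (h | ⟨w, hw, h1, h2⟩)
      · exact Or.inl h
      · exact Or.inr ⟨⟨w, hw, h1.symm⟩, w, hw, h1, h2⟩
  have hXdiff : ∀ w ∈ S, ¬ (p + (f w : ℤ) ∈ X ↔ p + (f w : ℤ) ∈ w.1) := by
    intro w hw hiff
    rw [hXmem] at hiff
    by_cases hmem : p + (f w : ℤ) ∈ w.1
    · rcases hiff.mpr hmem with h | ⟨w', hw', h1, h2⟩
      · omega
      · have : f w = f w' := by omega
        have := hfinj hw hw' this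
        subst this
        exact h2 hmem
    · exact hmem (hiff.mp (Or.inr ⟨w, hw, rfl, hmem⟩))
  let U : ℕ → Finset ℤ × ℤ := fun j => (X, p + ((S.card + (N + 1 + p.natAbs) + j : ℕ) : ℤ))
  have hUinj : Function.Injective U := by
    intro m m' h
    have := congrArg (fun u : Finset ℤ × ℤ => u.2) h
    simp only [U] at this
    push_cast at this
    omega
  obtain ⟨_, ⟨j, rfl⟩, hm⟩ : ∃ u ∈ Set.range U, u ∉ B := by
    by_contra hcon2
    push Not at hcon2
    exact (Set.infinite_range_of_injective hUinj) (hB.subset hcon2)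
  obtain ⟨w, hw, hinf, hlt⟩ := hbeat _ hm
  have hwS : w ∈ S := (hS w).mpr ⟨hw, hinf⟩
  set q : ℤ := p + ((S.card + (N + 1 + p.natAbs) + j : ℕ) : ℤ) with hq
  have hUj : U j = (X, q) := rfl
  rw [hUj] at hlt
  have hfw := hflt w hwS
  have hup := (climb' A X p q (by omega) (by
    intro x hx
    rw [hXmem]
    rcases hx with hx | hx
    · constructor
      · intro h; exact Or.inl ⟨h, hx⟩
      · rintro (h | ⟨w', hw', h1, h2⟩)
        · exact h.1
        · omega
    · constructor
      · intro h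
        have := hN x h
        omega
      · rintro (h | ⟨w', hw', h1, h2⟩)
        · exact h.1
        · have := hflt w' hw'
          omega)).2
  rw [SimpleGraph.dist_comm] at hup
  obtain ⟨m, M, h1, h2, h3, h4, h5, h6⟩ := lower (X, q) w
  simp only at h1 h2 h5 h6
  have habs1 := le_abs_self (q - w.2)
  have habs : |q - w.2| ≤ M - m := by rw [abs_le]; omega
  have hr : p < w.2 := by omega
  have hmle : m ≤ p + f w := by
    by_contra hcon
    exact hXdiff w hwS (h5 _ (by omega))
  have hqw : w.2 ≤ q ∨ q < w.2 := le_or_gt _ _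
  have habs2 : |q - w.2| = q - w.2 ∨ (|q - w.2| = w.2 - q ∧ q < w.2) := by
    rcases le_or_gt w.2 q with h | h
    · left; exact abs_of_nonneg (by omega)
    · right; exact ⟨by rw [abs_of_neg (by omega)]; ring, h⟩
  refine ⟨w, hwS, hr, by omega, ?_⟩
  intro x hx
  have hmp : p < m := by omega
  rw [← h5 x (by omega), hXmem]
  constructor
  · rintro (h | ⟨w', hw', e1, e2⟩)
    · exact h.1
    · omega
  · intro h
    exact Or.inl ⟨h, hx⟩

/-- A site to the left. -/
theorem left_site {T : Finset (Finset ℤ × ℤ)} {S : Finset (Finset ℤ × ℤ)}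
    (hS : ∀ w, w ∈ S ↔ w ∈ T ∧ (Cell LG T w).Infinite) {v : Finset ℤ × ℤ} (hv : v ∈ T)
    (hfin : (Cell LG T v).Finite) :
    ∃ w ∈ S, w.2 < v.2 ∧ v.2 < w.2 + 2 * S.card ∧ ∀ x, v.2 ≤ x → (x ∈ w.1 ↔ x ∈ v.1) := by
  classical
  obtain ⟨A, p⟩ := v
  obtain ⟨B, hB, hbeat⟩ := beaten hv hfin
  obtain ⟨f, hfinj, hflt⟩ := exists_enum S
  obtain ⟨N, hN⟩ : ∃ N : ℕ, ∀ y ∈ A, (y.natAbs : ℕ) ≤ N := by
    refine ⟨∑ y ∈ A, y.natAbs, fun y hy => ?_⟩
    exact Finset.single_le_sum (f := fun y : ℤ => y.natAbs) (fun _ _ => Nat.zero_le _) hy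
  set X : Finset ℤ := A.filter (p ≤ ·) ∪ (S.image (fun w => p - 1 - (f w : ℤ))).filter
    (fun z => ∃ w ∈ S, z = p - 1 - f w ∧ z ∉ w.1) with hX
  have hXmem : ∀ x, x ∈ X ↔ (x ∈ A ∧ p ≤ x) ∨ ∃ w ∈ S, x = p - 1 - f w ∧ x ∉ w.1 := by
    intro x
    rw [hX, Finset.mem_union, Finset.mem_filter, Finset.mem_filter, Finset.mem_image]
    constructor
    · rintro (h | ⟨_, h⟩)
      · exact Or.inl h
      · exact Or.inr h
    · rintro (h | ⟨w, hw, h1, h2⟩)
      · exact Or.inl h
      · exact Or.inr ⟨⟨w, hw, h1.symm⟩, w, hw, h1, h2⟩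
  have hXdiff : ∀ w ∈ S, ¬ (p - 1 - (f w : ℤ) ∈ X ↔ p - 1 - (f w : ℤ) ∈ w.1) := by
    intro w hw hiff
    rw [hXmem] at hiff
    by_cases hmem : p - 1 - (f w : ℤ) ∈ w.1
    · rcases hiff.mpr hmem with h | ⟨w', hw', h1, h2⟩
      · omega
      · have : f w = f w' := by omega
        have := hfinj hw hw' this
        subst this
        exact h2 hmem
    · exact hmem (hiff.mp (Or.inr ⟨w, hw, rfl, hmem⟩))
  let U : ℕ → Finset ℤ × ℤ := fun j => (X, p - ((S.card + (N + 1 + p.natAbs) + j : ℕ) : ℤ))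
  have hUinj : Function.Injective U := by
    intro m m' h
    have := congrArg (fun u : Finset ℤ × ℤ => u.2) h
    simp only [U] at this
    push_cast at this
    omega
  obtain ⟨_, ⟨j, rfl⟩, hm⟩ : ∃ u ∈ Set.range U, u ∉ B := by
    by_contra hcon2
    push Not at hcon2
    exact (Set.infinite_range_of_injective hUinj) (hB.subset hcon2)
  obtain ⟨w, hw, hinf, hlt⟩ := hbeat _ hm
  have hwS : w ∈ S := (hS w).mpr ⟨hw, hinf⟩
  set q : ℤ := p - ((S.card + (N + 1 + p.natAbs) + j : ℕ) : ℤ) with hq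
  have hUj : U j = (X, q) := rfl
  rw [hUj] at hlt
  have hfw := hflt w hwS
  have hup := (climb' X A q p (by omega) (by
    intro x hx
    rw [hXmem]
    rcases hx with hx | hx
    · constructor
      · rintro (h | ⟨w', hw', h1, h2⟩)
        · exact h.1
        · have := hflt w' hw'
          omega
      · intro h
        have := hN x h
        omega
    · constructor
      · rintro (h | ⟨w', hw', h1, h2⟩)
        · exact h.1
        · omega
      · intro h; exact Or.inl ⟨h, hx⟩)).2
  obtain ⟨m, M, h1, h2, h3, h4, h5, h6⟩ := lower (X, q) w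
  simp only at h1 h2 h5 h6
  have habs1 := neg_le_abs (q - w.2)
  have habs : |q - w.2| ≤ M - m := by rw [abs_le]; omega
  have hr : w.2 < p := by omega
  have hmle : p - f w ≤ M := by
    by_contra hcon
    exact hXdiff w hwS (h5 _ (by omega))
  have habs2 : |q - w.2| = w.2 - q ∨ (|q - w.2| = q - w.2 ∧ w.2 < q) := by
    rcases le_or_gt q w.2 with h | h
    · left; rw [abs_of_nonpos (by omega)]; ring
    · right; exact ⟨abs_of_pos (by omega), h⟩
  refine ⟨w, hwS, hr, by omega, ?_⟩
  intro x hx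
  have hmp : M < p := by omega
  rw [← h5 x (by omega), hXmem]
  constructor
  · rintro (h | ⟨w', hw', e1, e2⟩)
    · exact h.1
    · omega
  · intro h
    exact Or.inl ⟨h, hx⟩

/-- Few infinite cells force few sites. -/
theorem card_le (T : Finset (Finset ℤ × ℤ)) :
    T.card ≤ I LG T + I LG T * (I LG T * (2 * I LG T)) := by
  classical
  obtain ⟨S, hScard, hS⟩ := exists_sites (G := LG) T
  have hfinOf : ∀ v ∈ T \ S, (Cell LG T v).Finite := by
    intro v hv
    rw [Finset.mem_sdiff] at hv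
    by_contra hcon
    exact hv.2 ((hS v).mpr ⟨hv.1, hcon⟩)
  have hR : ∀ v, ∃ w, v ∈ T \ S → w ∈ S ∧ v.2 < w.2 ∧ w.2 < v.2 + 2 * S.card ∧
      ∀ x, x < v.2 → (x ∈ w.1 ↔ x ∈ v.1) := by
    intro v
    by_cases hv : v ∈ T \ S
    · obtain ⟨w, hw⟩ := right_site hS (Finset.mem_sdiff.mp hv).1 (hfinOf v hv)
      exact ⟨w, fun _ => hw⟩
    · exact ⟨v, fun h => absurd h hv⟩
  have hL : ∀ v, ∃ w, v ∈ T \ S → w ∈ S ∧ w.2 < v.2 ∧ v.2 < w.2 + 2 * S.card ∧
      ∀ x, v.2 ≤ x → (x ∈ w.1 ↔ x ∈ v.1) := by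
    intro v
    by_cases hv : v ∈ T \ S
    · obtain ⟨w, hw⟩ := left_site hS (Finset.mem_sdiff.mp hv).1 (hfinOf v hv)
      exact ⟨w, fun _ => hw⟩
    · exact ⟨v, fun h => absurd h hv⟩
  choose R hR using hR
  choose L hL using hL
  have h1 : (T \ S).card ≤ (S ×ˢ (S ×ˢ Finset.range (2 * S.card))).card := by
    apply Finset.card_le_card_of_injOn (fun v => (R v, L v, ((R v).2 - v.2).toNat))
    · intro v hv
      have hv' : v ∈ T \ S := hv
      obtain ⟨r1, r2, r3, _⟩ := hR v hv'
      obtain ⟨l1, _, _, _⟩ := hL v hv'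
      simp only [Finset.coe_product, Set.mem_prod, Finset.mem_coe, Finset.mem_range]
      exact ⟨r1, l1, by omega⟩
    · intro v hv v' hv' heq
      have hv1 : v ∈ T \ S := hv
      have hv2 : v' ∈ T \ S := hv'
      simp only [Prod.mk.injEq] at heq
      obtain ⟨e1, e2, e3⟩ := heq
      obtain ⟨r1, r2, r3, r4⟩ := hR v hv1
      obtain ⟨l1, l2, l3, l4⟩ := hL v hv1
      obtain ⟨r1', r2', r3', r4'⟩ := hR v' hv2
      obtain ⟨l1', l2', l3', l4'⟩ := hL v' hv2
      have hp : v.2 = v'.2 := by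
        rw [e1] at e3 r2
        omega
      refine Prod.ext ?_ hp
      ext x
      by_cases hx : x < v.2
      · rw [← r4 x hx, ← r4' x (by omega), e1]
      · rw [← l4 x (by omega), ← l4' x (by omega), e2]
  rw [Finset.card_product, Finset.card_product, Finset.card_range, hScard] at h1
  have h2 : T.card ≤ (T \ S).card + S.card := by
    have hsub : S ⊆ T := fun w hw => ((hS w).mp hw).1
    have := Finset.card_sdiff_add_card_eq_card hsub
    omega
  omega

theorem tendsto_minI : Tendsto (fun n => (minI LG n : ℕ∞)) atTop (𝓝 ⊤) := by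
  rw [ENat.tendsto_nhds_top_iff_natCast_lt]
  intro K
  filter_upwards [eventually_gt_atTop (K + K * (K * (2 * K)))] with n hn
  norm_cast
  unfold minI
  have hne : {k : ℕ | ∃ T : Finset (Finset ℤ × ℤ), T.card = n ∧ I LG T = k}.Nonempty := by
    obtain ⟨T, hT⟩ := Infinite.exists_subset_card_eq (Finset ℤ × ℤ) n
    exact ⟨_, T, hT, rfl⟩
  obtain ⟨T, hT, hIT⟩ := Nat.sInf_mem hne
  rw [← hIT]
  by_contra hcon
  rw [not_lt] at hcon
  have h1 := card_le T
  rw [hT] at h1
  have h2 : I LG T + I LG T * (I LG T * (2 * I LG T)) ≤ K + K * (K * (2 * K)) := by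
    gcongr
  omega

open Classical in
/-- The seven sites. -/
noncomputable def sites (R : ℤ) : Finset (Finset ℤ × ℤ) :=
  {(∅, 0), ({R}, 1), ({0, R + 1}, 1), ({R + 2}, -1), ({-R}, -1), ({-1, -R - 1}, -1), ({-R - 2}, 1)}

/-- The site with a given far lamp. -/
noncomputable def siteOf (R l : ℤ) : Finset ℤ × ℤ :=
  if l = R then ({R}, 1) else if l = R + 1 then ({0, R + 1}, 1) else if l = R + 2 then ({R + 2}, -1)
  else if l = -R then ({-R}, -1) else if l = -R - 1 then ({-1, -R - 1}, -1)
  else if l = -R - 2 then ({-R - 2}, 1) else (∅, 0)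

theorem far_lamp (R : ℤ) (hR : 10 ≤ R) (x : Finset ℤ × ℤ) (hx : x ∈ sites R) :
    ∃ l : ℤ, (l = 0 ∨ R ≤ l ∨ l ≤ -R) ∧ (∀ z, (R ≤ z ∨ z ≤ -R) → (z ∈ x.1 ↔ z = l)) ∧
      siteOf R l = x := by
  simp only [sites, Finset.mem_insert, Finset.mem_singleton] at hx
  rcases hx with rfl | rfl | rfl | rfl | rfl | rfl | rfl
  · refine ⟨0, by omega, fun z hz => ?_, ?_⟩
    · simp only [Finset.notMem_empty, false_iff]; omega
    · unfold siteOf
      rw [if_neg (by omega), if_neg (by omega), if_neg (by omega), if_neg (by omega),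
        if_neg (by omega), if_neg (by omega)]
  · refine ⟨R, by omega, fun z hz => ?_, ?_⟩
    · simp only [Finset.mem_singleton]
    · unfold siteOf
      rw [if_pos rfl]
  · refine ⟨R + 1, by omega, fun z hz => ?_, ?_⟩
    · simp only [Finset.mem_insert, Finset.mem_singleton]; omega
    · unfold siteOf
      rw [if_neg (by omega), if_pos rfl]
  · refine ⟨R + 2, by omega, fun z hz => ?_, ?_⟩
    · simp only [Finset.mem_singleton]
    · unfold siteOf
      rw [if_neg (by omega), if_neg (by omega), if_pos rfl]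
  · refine ⟨-R, by omega, fun z hz => ?_, ?_⟩
    · simp only [Finset.mem_singleton]
    · unfold siteOf
      rw [if_neg (by omega), if_neg (by omega), if_neg (by omega), if_pos rfl]
  · refine ⟨-R - 1, by omega, fun z hz => ?_, ?_⟩
    · simp only [Finset.mem_insert, Finset.mem_singleton]; omega
    · unfold siteOf
      rw [if_neg (by omega), if_neg (by omega), if_neg (by omega), if_neg (by omega), if_pos rfl]
  · refine ⟨-R - 2, by omega, fun z hz => ?_, ?_⟩
    · simp only [Finset.mem_singleton]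
    · unfold siteOf
      rw [if_neg (by omega), if_neg (by omega), if_neg (by omega), if_neg (by omega),
        if_neg (by omega), if_pos rfl]

theorem sites_pos (R : ℤ) (x : Finset ℤ × ℤ) (hx : x ∈ sites R) : -1 ≤ x.2 ∧ x.2 ≤ 1 := by
  simp only [sites, Finset.mem_insert, Finset.mem_singleton] at hx
  rcases hx with rfl | rfl | rfl | rfl | rfl | rfl | rfl <;> simp

theorem sites_sep (d : ℕ) (x y : Finset ℤ × ℤ) (hx : x ∈ sites (d + 10)) (hy : y ∈ sites (d + 10))
    (hxy : x ≠ y) : d < LG.dist x y := by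
  obtain ⟨z, hz, hne⟩ : ∃ z : ℤ, ((d : ℤ) + 10 ≤ z ∨ z ≤ -((d : ℤ) + 10)) ∧
      ¬ (z ∈ x.1 ↔ z ∈ y.1) := by
    obtain ⟨l, h1, h2, h3⟩ := far_lamp (d + 10) (by omega) x hx
    obtain ⟨l', h1', h2', h3'⟩ := far_lamp (d + 10) (by omega) y hy
    have hll : l ≠ l' := by
      rintro rfl
      exact hxy (h3.symm.trans h3')
    by_cases hl0 : l = 0
    · refine ⟨l', by omega, ?_⟩
      rw [h2 l' (by omega), h2' l' (by omega)]
      intro h
      exact hll (h.mpr rfl).symm
    · refine ⟨l, by omega, ?_⟩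
      rw [h2 l (by omega), h2' l (by omega)]
      intro h
      exact hll (h.mp rfl)
  obtain ⟨m, M, h1, h2, h3, h4, h5, h6⟩ := lower x y
  have hx2 := sites_pos _ x hx
  have hy2 := sites_pos _ y hy
  have hzm : m ≤ z ∧ z < M := by
    by_contra hcon
    exact hne (h5 z (by omega))
  have habs : |x.2 - y.2| ≤ 2 := by rw [abs_le]; omega
  omega

/-- Seven sites, the first of which has finite cell. -/
theorem surround (d : ℕ) : ∃ T : Finset (Finset ℤ × ℤ), T.card ≤ 6 + 1 ∧
    (∀ x ∈ T, ∀ y ∈ T, x ≠ y → d < LG.dist x y) ∧ ∃ v ∈ T, (Cell LG T v).Finite := by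
  classical
  refine ⟨sites (d + 10), ?_, fun x hx y hy hxy => sites_sep d x y hx hy hxy, (∅, 0),
    by simp [sites], ?_⟩
  · unfold sites
    exact (Finset.card_insert_le _ _).trans (Nat.add_le_add_right Finset.card_le_six 1)
  · set T := sites (d + 10) with hT
    set R : ℤ := (d : ℤ) + 10 with hR
    have hfin : ((Finset.powerset (Finset.Icc (-(R + 4)) (R + 4)) ×ˢ
      (Finset.Icc (-(R + 4)) (R + 4)) : Finset (Finset ℤ × ℤ)) : Set (Finset ℤ × ℤ)).Finite :=
      Finset.finite_toSet _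
    refine hfin.subset ?_
    rintro ⟨B, q⟩ hu
    obtain ⟨m, M, h1, h2, h3, h4, h5, h6⟩ := lower (B, q) (∅, 0)
    simp only [Finset.notMem_empty, iff_false, sub_zero] at h1 h2 h3 h4 h5 h6
    have hcell : ∀ w ∈ T, LG.dist (B, q) (∅, 0) ≤ LG.dist (B, q) w := hu
    -- how to beat `v`
    have hbeat : ∀ (C : Finset ℤ) (r m' M' : ℤ), (C, r) ∈ T → m' ≤ q → q ≤ M' → m' ≤ r → r ≤ M' →
        (∀ x, x < m' ∨ M' ≤ x → (x ∈ B ↔ x ∈ C)) →
        2 * (M' - m') - |q - r| < 2 * (M - m) - |q| → False := by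
      intro C r m' M' hC a1 a2 a3 a4 a5 a6
      have := upper B C q r m' M' a1 a2 a3 a4 a5
      have := hcell _ hC
      omega
    have t1 : (({R} : Finset ℤ), (1 : ℤ)) ∈ T := by simp [hT, sites]
    have t2 : (({0, R + 1} : Finset ℤ), (1 : ℤ)) ∈ T := by simp [hT, sites]
    have t3 : (({R + 2} : Finset ℤ), (-1 : ℤ)) ∈ T := by simp [hT, sites]
    have t4 : (({-R} : Finset ℤ), (-1 : ℤ)) ∈ T := by simp [hT, sites]
    have t5 : (({-1, -R - 1} : Finset ℤ), (-1 : ℤ)) ∈ T := by simp [hT, sites]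
    have t6 : (({-R - 2} : Finset ℤ), (1 : ℤ)) ∈ T := by simp [hT, sites]
    have habs : ∀ z : ℤ, (|z| = z ∧ 0 ≤ z) ∨ (|z| = -z ∧ z ≤ 0) := by
      intro z
      rcases le_total 0 z with h | h
      · left; exact ⟨abs_of_nonneg h, h⟩
      · right; exact ⟨abs_of_nonpos h, h⟩
    have b1 := habs q
    have b2 := habs (q - 1)
    have b3 := habs (q - -1)
    by_cases hMfar : R + 4 ≤ M
    · exfalso
      by_cases hq : q ≤ 0
      · refine hbeat _ _ m M t1 h1 h2 (by omega) (by omega) ?_ (by omega)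
        intro x hx
        have := h5 x hx
        simp only [this, Finset.mem_singleton, false_iff]
        omega
      · by_cases hm : m < 0
        · refine hbeat _ _ m M t3 h1 h2 (by omega) (by omega) ?_ (by omega)
          intro x hx
          have := h5 x hx
          simp only [this, Finset.mem_singleton, false_iff]
          omega
        · have hm0 : m = 0 := by omega
          by_cases h0 : (0 : ℤ) ∈ B
          · refine hbeat _ _ 1 M t2 (by omega) h2 (by omega) (by omega) ?_ (by omega)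
            intro x hx
            simp only [Finset.mem_insert, Finset.mem_singleton]
            by_cases hx0 : x = 0
            · simp [hx0, h0]
            · have := h5 x (by omega)
              simp only [this, false_iff]
              omega
          · refine hbeat _ _ 1 M t1 (by omega) h2 (by omega) (by omega) ?_ (by omega)
            intro x hx
            simp only [Finset.mem_singleton]
            by_cases hx0 : x = 0
            · subst hx0
              simp only [h0, false_iff]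
              omega
            · have := h5 x (by omega)
              simp only [this, false_iff]
              omega
    by_cases hmfar : m ≤ -(R + 4)
    · exfalso
      by_cases hq : 0 ≤ q
      · refine hbeat _ _ m M t4 h1 h2 (by omega) (by omega) ?_ (by omega)
        intro x hx
        have := h5 x hx
        simp only [this, Finset.mem_singleton, false_iff]
        omega
      · by_cases hm : 0 < M
        · refine hbeat _ _ m M t6 h1 h2 (by omega) (by omega) ?_ (by omega)
          intro x hx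
          have := h5 x hx
          simp only [this, Finset.mem_singleton, false_iff]
          omega
        · have hm0 : M = 0 := by omega
          by_cases h0 : (-1 : ℤ) ∈ B
          · refine hbeat _ _ m (-1) t5 h1 (by omega) (by omega) (by omega) ?_ (by omega)
            intro x hx
            simp only [Finset.mem_insert, Finset.mem_singleton]
            by_cases hx0 : x = -1
            · simp [hx0, h0]
            · have := h5 x (by omega)
              simp only [this, false_iff]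
              omega
          · refine hbeat _ _ m (-1) t4 h1 (by omega) (by omega) (by omega) ?_ (by omega)
            intro x hx
            simp only [Finset.mem_singleton]
            by_cases hx0 : x = -1
            · subst hx0
              simp only [h0, false_iff]
              omega
            · have := h5 x (by omega)
              simp only [this, false_iff]
              omega
    simp only [Finset.coe_product, Set.mem_prod, Finset.mem_coe, Finset.mem_powerset,
      Finset.mem_Icc]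
    refine ⟨fun x hx => ?_, by omega⟩
    rw [Finset.mem_Icc]
    by_contra hcon
    exact h5 x (by omega) hx

theorem survival_le : survival LG ≤ 6 :=
  survival_lt_of_surround connected locFinite 6 surround

end Pool.Agent.V11118.Lamp
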