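import Pool.Agent.V11118.Tree

/-!
A bounded non-constant harmonic function on the strong product of the 3-regular tree with `ℤ`.
-/

namespace Pool.Agent.V11118.Liouville

open SimpleGraph Pool.Agent.V11118.Survival Pool.Agent.V11118.Products Pool.Agent.V11118.Tree

/-- `h` is harmonic: its value at each vertex is the average of the values at the neighbours. -/
def Harmonic {V : Type*} (G : SimpleGraph V) (h : V → ℝ) : Prop :=
  ∀ v, ∑ᶠ w ∈ G.neighborSet v, h w = (G.neighborSet v).ncard * h v

/-- Every bounded harmonic function is constant. -/
def IsLiouville {V : Type*} (G : SimpleGraph V) : Prop :=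
  ∀ h : V → ℝ, Harmonic G h → (∃ C : ℝ, ∀ v, |h v| ≤ C) → ∀ u v, h u = h v

/-- The level at which the path to the root `(0, ∅)` turns. -/
noncomputable def m (u : TV) : ℤ := (insert u.p (insert 0 u.A)).min' (Finset.insert_nonempty _ _)

theorem m_spec (u : TV) : (m u = u.p ∨ m u = 0 ∨ m u ∈ u.A) ∧ m u ≤ u.p ∧ m u ≤ 0 ∧
    ∀ x ∈ u.A, m u ≤ x := by
  have h1 := Finset.min'_mem (insert u.p (insert 0 u.A)) (Finset.insert_nonempty _ _)
  have h2 := fun x hx => Finset.min'_le (insert u.p (insert 0 u.A)) x hx
  refine ⟨?_, h2 _ (by simp), h2 _ (by simp), fun x hx => h2 _ (by simp [hx])⟩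
  simpa [m] using h1

theorem m_unique (u : TV) (k : ℤ) (h : (k = u.p ∨ k = 0 ∨ k ∈ u.A) ∧ k ≤ u.p ∧ k ≤ 0 ∧
    ∀ x ∈ u.A, k ≤ x) : m u = k := by
  obtain ⟨h1, h2, h3, h4⟩ := m_spec u
  obtain ⟨g1, g2, g3, g4⟩ := h
  apply le_antisymm
  · rcases g1 with g | g | g
    · rw [g]; exact h2
    · rw [g]; exact h3
    · exact h4 _ g
  · rcases h1 with g | g | g
    · rw [g]; exact g2
    · rw [g]; exact g3
    · exact g4 _ g

/-- The cone above `(1, ∅)`. -/
def Cone (u : TV) : Prop := 1 ≤ u.p ∧ ∀ x ∈ u.A, 1 ≤ x

/-- Radial profile. -/
noncomputable def hh (j : ℤ) : ℝ := 3 - 2 * (1 / 2 : ℝ) ^ j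

theorem hh_rec (j : ℤ) : hh (j - 1) + 2 * hh (j + 1) = 3 * hh j := by
  unfold hh
  rw [zpow_sub_one₀ (by norm_num), zpow_add_one₀ (by norm_num)]
  ring

theorem hh_neg : hh (-1) = - hh 0 := by
  unfold hh
  norm_num

theorem hh_bound (j : ℤ) (hj : 0 ≤ j) : |hh j| ≤ 3 := by
  unfold hh
  have h1 : (0 : ℝ) < (1 / 2 : ℝ) ^ j := zpow_pos (by norm_num) j
  have h2 : (1 / 2 : ℝ) ^ j ≤ 1 := by
    obtain ⟨k, rfl⟩ := Int.eq_ofNat_of_zero_le hj
    simp only [zpow_natCast]
    exact pow_le_one₀ (by norm_num) (by norm_num)
  rw [abs_le]
  constructor <;> linarith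

open Classical in
/-- The harmonic function on the tree. -/
noncomputable def g (u : TV) : ℝ := if Cone u then hh (u.p - 1) else - hh (u.p - 2 * m u)

theorem g_bound (u : TV) : |g u| ≤ 3 := by
  unfold g
  split_ifs with h
  · exact hh_bound _ (by have := h.1; omega)
  · rw [abs_neg]
    have := m_spec u
    exact hh_bound _ (by omega)

theorem g_harmonic (u : TV) : g (parent u) + g (c0 u) + g (c1 u) = 3 * g u := by
  obtain ⟨h1, h2, h3, h4⟩ := m_spec u
  by_cases hc : Cone u
  · -- in the cone
    obtain ⟨hp, hA⟩ := hc
    have e0 : g u = hh (u.p - 1) := by unfold g; rw [if_pos ⟨hp, hA⟩]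
    have e1 : g (c0 u) = hh (u.p) := by
      unfold g
      rw [if_pos ⟨by simp only [c0]; omega, hA⟩]
      simp [c0]
    have e2 : g (c1 u) = hh (u.p) := by
      unfold g
      rw [if_pos]
      · simp [c1]
      · refine ⟨by simp only [c1]; omega, ?_⟩
        intro x hx
        rcases Finset.mem_insert.mp hx with rfl | hx
        · exact hp
        · exact hA x hx
    have e3 : g (parent u) = hh (u.p - 2) := by
      by_cases hp2 : 2 ≤ u.p
      · unfold g
        rw [if_pos]
        · simp only [parent]; congr 1; ring
        · refine ⟨by simp only [parent]; omega, ?_⟩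
          intro x hx
          simp only [parent, Finset.mem_filter] at hx
          exact hA x hx.1
      · have hp1 : u.p = 1 := by omega
        have hAe : u.A = ∅ := by
          rw [Finset.eq_empty_iff_forall_notMem]
          intro x hx
          have := hA x hx
          have := u.lt x hx
          omega
        have hnc : ¬ Cone (parent u) := by
          rintro ⟨h, _⟩
          simp only [parent] at h
          omega
        have hm : m (parent u) = 0 := by
          apply m_unique
          refine ⟨Or.inr (Or.inl rfl), ?_, le_rfl, ?_⟩
          · simp only [parent]; omega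
          · intro x hx
            simp only [parent, hAe] at hx
            simp at hx
        unfold g
        rw [if_neg hnc, hm]
        simp only [parent, hp1]
        norm_num
        rw [hh_neg]
    rw [e0, e1, e2, e3]
    have := hh_rec (u.p - 1)
    rw [show u.p - 1 - 1 = u.p - 2 by ring, show u.p - 1 + 1 = u.p by ring] at this
    linarith
  · have e0 : g u = - hh (u.p - 2 * m u) := by unfold g; rw [if_neg hc]
    have hncp : ¬ Cone (parent u) := by
      rintro ⟨ha, hb⟩
      apply hc
      simp only [parent] at ha
      refine ⟨by omega, fun x hx => ?_⟩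
      by_contra hcon
      have := hb x (by simp only [parent, Finset.mem_filter]; exact ⟨hx, by omega⟩)
      omega
    have hnc1 : ¬ Cone (c1 u) := by
      rintro ⟨ha, hb⟩
      apply hc
      refine ⟨hb u.p (by simp [c1]), fun x hx => hb x (by simp [c1, hx])⟩
    by_cases hmp : m u = u.p
    · have hAe : u.A = ∅ := by
        rw [Finset.eq_empty_iff_forall_notMem]
        intro x hx
        have := h4 x hx
        have := u.lt x hx
        omega
      have e1 : g (parent u) = - hh (1 - u.p) := by
        unfold g
        rw [if_neg hncp]
        have : m (parent u) = u.p - 1 := by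
          apply m_unique
          refine ⟨Or.inl rfl, le_rfl, by omega, ?_⟩
          intro x hx
          simp only [parent, hAe] at hx
          simp at hx
        rw [this]
        simp only [parent]
        congr 2; ring
      have e2 : g (c1 u) = - hh (1 - u.p) := by
        unfold g
        rw [if_neg hnc1]
        have : m (c1 u) = u.p := by
          apply m_unique
          refine ⟨Or.inr (Or.inr (by simp [c1])), by simp [c1], by omega, ?_⟩
          intro x hx
          simp only [c1, hAe] at hx
          simp at hx
          omega
        rw [this]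
        simp only [c1]
        congr 2; ring
      have e3 : g (c0 u) = - hh (- u.p - 1) := by
        by_cases hp0 : u.p = 0
        · unfold g
          rw [if_pos]
          · simp only [c0, hp0]
            norm_num
            rw [hh_neg]; ring
          · refine ⟨by simp only [c0]; omega, ?_⟩
            intro x hx
            simp only [c0, hAe] at hx
            simp at hx
        · unfold g
          rw [if_neg]
          · have : m (c0 u) = u.p + 1 := by
              apply m_unique
              refine ⟨Or.inl rfl, le_rfl, by omega, ?_⟩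
              intro x hx
              simp only [c0, hAe] at hx
              simp at hx
            rw [this]
            simp only [c0]
            congr 2; ring
          · rintro ⟨ha, _⟩
            simp only [c0] at ha
            omega
      rw [e0, e1, e2, e3, hmp]
      have := hh_rec (- u.p)
      rw [show -u.p + 1 = 1 - u.p by ring] at this
      rw [show u.p - 2 * u.p = - u.p by ring]
      linarith
    · have hmlt : m u < u.p := lt_of_le_of_ne h2 hmp
      have hnc0 : ¬ Cone (c0 u) := by
        rintro ⟨ha, hb⟩
        simp only [c0] at ha hb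
        by_cases hp1 : 1 ≤ u.p
        · exact hc ⟨hp1, hb⟩
        · have hp0 : u.p = 0 := by omega
          rcases h1 with h | h | h
          · omega
          · omega
          · have := hb _ h
            omega
      have e1 : g (parent u) = - hh (u.p - 1 - 2 * m u) := by
        unfold g
        rw [if_neg hncp]
        have : m (parent u) = m u := by
          apply m_unique
          refine ⟨?_, by simp only [parent]; omega, h3, ?_⟩
          · rcases h1 with h | h | h
            · exact absurd h hmp
            · exact Or.inr (Or.inl h)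
            · by_cases hm1 : m u < u.p - 1
              · right; right
                simp only [parent, Finset.mem_filter]
                exact ⟨h, hm1⟩
              · left
                simp only [parent]; omega
          · intro x hx
            simp only [parent, Finset.mem_filter] at hx
            exact h4 x hx.1
        rw [this]
        simp [parent]
      have e2 : g (c0 u) = - hh (u.p + 1 - 2 * m u) := by
        unfold g
        rw [if_neg hnc0]
        have : m (c0 u) = m u := by
          apply m_unique
          refine ⟨?_, by simp only [c0]; omega, h3, h4⟩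
          rcases h1 with h | h | h
          · exact absurd h hmp
          · exact Or.inr (Or.inl h)
          · exact Or.inr (Or.inr h)
        rw [this]
        simp [c0]
      have e3 : g (c1 u) = - hh (u.p + 1 - 2 * m u) := by
        unfold g
        rw [if_neg hnc1]
        have : m (c1 u) = m u := by
          apply m_unique
          refine ⟨?_, by simp only [c1]; omega, h3, ?_⟩
          · rcases h1 with h | h | h
            · exact absurd h hmp
            · exact Or.inr (Or.inl h)
            · exact Or.inr (Or.inr (by simp [c1, h]))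
          · intro x hx
            rcases Finset.mem_insert.mp hx with rfl | hx
            · omega
            · exact h4 x hx
        rw [this]
        simp [c1]
      rw [e0, e1, e2, e3]
      have := hh_rec (u.p - 2 * m u)
      rw [show u.p - 2 * m u - 1 = u.p - 1 - 2 * m u by ring,
        show u.p - 2 * m u + 1 = u.p + 1 - 2 * m u by ring] at this
      linarith

open Classical in
/-- The neighbours of `(x, a)` in the strong product. -/
noncomputable def nb (x : TV) (a : ℤ) : Finset (TV × ℤ) :=
  (({x, parent x, c0 x, c1 x} : Finset TV) ×ˢ (Finset.Icc (a - 1) (a + 1))).erase (x, a)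

theorem nb_eq (x : TV) (a : ℤ) : (strongZ TG).neighborSet (x, a) = (nb x a : Set (TV × ℤ)) := by
  ext ⟨y, b⟩
  rw [mem_neighborSet, strong_adj, adj_iff]
  simp only [nb, Finset.coe_erase, Set.mem_sdiff, Finset.mem_coe, Finset.mem_product,
    Finset.mem_insert, Finset.mem_singleton, Finset.mem_Icc, Set.mem_singleton_iff, abs_le]
  constructor
  · rintro ⟨h1, h2, h3⟩
    refine ⟨⟨?_, by omega⟩, fun h => h1 h.symm⟩
    rcases h2 with h | h
    · exact Or.inl h.symm
    · exact Or.inr h
  · rintro ⟨⟨h1, h2⟩, h3⟩
    refine ⟨fun h => h3 h.symm, ?_, by omega⟩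
    rcases h1 with h | h
    · exact Or.inl h.symm
    · exact Or.inr h

open Classical in
theorem card4 (x : TV) : ({x, parent x, c0 x, c1 x} : Finset TV).card = 4 ∧
    ∑ y ∈ ({x, parent x, c0 x, c1 x} : Finset TV), g y = 4 * g x := by
  have hp : ∀ u w : TV, u.p ≠ w.p → u ≠ w := fun u w h h' => h (by rw [h'])
  have n1 : x ≠ parent x := hp _ _ (by simp only [parent]; omega)
  have n2 : x ≠ c0 x := hp _ _ (by simp [c0])
  have n3 : x ≠ c1 x := hp _ _ (by simp [c1])
  have n4 : parent x ≠ c0 x := hp _ _ (by simp only [parent, c0]; omega)
  have n5 : parent x ≠ c1 x := hp _ _ (by simp only [parent, c1]; omega)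
  have n6 : c0 x ≠ c1 x := by
    intro h
    have : x.p ∈ (c0 x).A := by rw [h]; simp [c1]
    simp only [c0] at this
    have := x.lt _ this
    omega
  constructor
  · rw [Finset.card_insert_of_notMem (by simp [n1, n2, n3]),
      Finset.card_insert_of_notMem (by simp [n4, n5]),
      Finset.card_insert_of_notMem (by simp [n6]), Finset.card_singleton]
  · rw [Finset.sum_insert (by simp [n1, n2, n3]),
      Finset.sum_insert (by simp [n4, n5]),
      Finset.sum_insert (by simp [n6]), Finset.sum_singleton]
    have := g_harmonic x
    linarith

theorem harmonic : Harmonic (strongZ TG) (fun u => g u.1) := by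
  classical
  rintro ⟨x, a⟩
  rw [nb_eq, finsum_mem_coe_finset, Set.ncard_coe_finset]
  have hmem : (x, a) ∈ (({x, parent x, c0 x, c1 x} : Finset TV) ×ˢ
      (Finset.Icc (a - 1) (a + 1))) := by
    simp
  have hI : (Finset.Icc (a - 1) (a + 1)).card = 3 := by
    rw [Int.card_Icc]; omega
  have h1 : (nb x a).card = 11 := by
    unfold nb
    rw [Finset.card_erase_of_mem hmem, Finset.card_product, (card4 x).1, hI]
  have h2 : ∑ u ∈ nb x a, g u.1 = 12 * g x - g x := by
    unfold nb
    rw [Finset.sum_erase_eq_sub hmem, Finset.sum_product]
    simp only [Finset.sum_const, hI, nsmul_eq_mul]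
    rw [← Finset.mul_sum, (card4 x).2]
    push_cast
    ring
  rw [h1, h2]
  push_cast
  ring

theorem not_liouville : ¬ IsLiouville (strongZ TG) := by
  intro h
  have h1 := h (fun u => g u.1) harmonic ⟨3, fun v => g_bound v.1⟩
    (⟨1, ∅, by simp⟩, 0) (⟨0, ∅, by simp⟩, 0)
  simp only at h1
  have e1 : g ⟨1, ∅, by simp⟩ = 1 := by
    unfold g
    rw [if_pos ⟨le_rfl, by simp⟩]
    simp only [hh]
    norm_num
  have e2 : g ⟨0, ∅, by simp⟩ = -1 := by
    unfold g
    rw [if_neg (by rintro ⟨h, _⟩; simp at h)]
    have : m ⟨0, ∅, by simp⟩ = 0 := m_unique _ _ ⟨Or.inl rfl, le_rfl, le_rfl, by simp⟩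
    rw [this]
    simp only [hh]
    norm_num
  rw [e1, e2] at h1
  norm_num at h1

theorem nice : Nice (strongZ TG) := strong_nice connected locFinite vertexTransitive

open Classical in
theorem survival_le : survival (strongZ TG) ≤ 6 := by
  have : Infinite (TV × ℤ) := nice.infinite
  refine survival_lt_of_surround nice.connected nice.locFinite 6 (fun d => ?_)
  set u0 : TV := ⟨0, ∅, by simp⟩
  obtain ⟨T, h1, h2⟩ := strong_surround connected locFinite u0 {parent u0, c0 u0, c1 u0}
    (by intro y; rw [adj_iff]; simp) (by simp) d
  refine ⟨T, h1.trans ?_, h2⟩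
  have : ({parent u0, c0 u0, c1 u0} : Finset TV).card ≤ 3 := Finset.card_le_three
  omega

end Pool.Agent.V11118.Liouville
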