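import Pool.Agent.V11118.Survival

/-!
The strong and the Cartesian product of a graph with the two-way infinite path.
-/

namespace Pool.Agent.V11118.Products

open SimpleGraph Pool.Agent.V11118.Survival

variable {V : Type*}

/-- The strong product of `Γ` with the two-way infinite path `ℤ`. -/
def strongZ (Γ : SimpleGraph V) : SimpleGraph (V × ℤ) where
  Adj u w := u ≠ w ∧ (u.1 = w.1 ∨ Γ.Adj u.1 w.1) ∧ |u.2 - w.2| ≤ 1
  symm := ⟨by
    rintro ⟨x, a⟩ ⟨y, b⟩ ⟨h1, h2, h3⟩
    refine ⟨h1.symm, ?_, ?_⟩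
    · rcases h2 with h | h
      · exact Or.inl h.symm
      · exact Or.inr h.symm
    · rw [abs_sub_comm]; exact h3⟩
  loopless := ⟨fun u h => h.1 rfl⟩

/-- The Cartesian product of `Γ` with the two-way infinite path `ℤ`. -/
def boxZ (Γ : SimpleGraph V) : SimpleGraph (V × ℤ) where
  Adj u w := (u.1 = w.1 ∧ |u.2 - w.2| = 1) ∨ (Γ.Adj u.1 w.1 ∧ u.2 = w.2)
  symm := ⟨by
    rintro ⟨x, a⟩ ⟨y, b⟩ h
    rcases h with ⟨h1, h2⟩ | ⟨h1, h2⟩
    · left; exact ⟨h1.symm, by rw [abs_sub_comm]; exact h2⟩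
    · right; exact ⟨h1.symm, h2.symm⟩⟩
  loopless := ⟨by
    rintro ⟨x, a⟩ h
    rcases h with ⟨h1, h2⟩ | ⟨h1, h2⟩
    · simp at h2
    · exact Γ.loopless.irrefl _ h1⟩

variable {Γ : SimpleGraph V}

theorem strong_adj {x y : V} {a b : ℤ} : (strongZ Γ).Adj (x, a) (y, b) ↔
    (x, a) ≠ (y, b) ∧ (x = y ∨ Γ.Adj x y) ∧ |a - b| ≤ 1 := Iff.rfl

theorem box_adj {x y : V} {a b : ℤ} : (boxZ Γ).Adj (x, a) (y, b) ↔
    (x = y ∧ |a - b| = 1) ∨ (Γ.Adj x y ∧ a = b) := Iff.rfl

/-- An upper bound for distances in the strong product. -/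
theorem strong_walk (n : ℕ) : ∀ (x y : V) (a b : ℤ) (p : Γ.Walk x y), p.length ≤ n → |a - b| ≤ n →
    ∃ q : (strongZ Γ).Walk (x, a) (y, b), q.length ≤ n := by
  induction n with
  | zero =>
    intro x y a b p hp hab
    have h1 : x = y := Walk.eq_of_length_eq_zero (p := p) (by omega)
    have h2 : a = b := by
      have : |a - b| = 0 := le_antisymm (by simpa using hab) (abs_nonneg _)
      rw [abs_eq_zero] at this
      omega
    subst h1; subst h2
    exact ⟨Walk.nil, by simp⟩
  | succ n ih =>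
    intro x y a b p hp hab
    push_cast at hab
    rw [abs_le] at hab
    set a1 := a + max (-1) (min 1 (b - a)) with ha1
    have hab1 : |a1 - b| ≤ n := by rw [abs_le]; omega
    have haa : |a - a1| ≤ 1 := by rw [abs_le]; omega
    cases p with
    | nil =>
      obtain ⟨q, hq⟩ := ih x x a1 b Walk.nil (by simp) hab1
      by_cases he : a = a1
      · have hcop : ∀ z : ℤ, z = a1 → ∃ q : (strongZ Γ).Walk (x, z) (x, b), q.length ≤ n + 1 := by
          rintro z rfl
          exact ⟨q, by omega⟩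
        exact hcop a he
      · have hadj : (strongZ Γ).Adj (x, a) (x, a1) :=
          ⟨fun h => he (congrArg Prod.snd h), Or.inl rfl, haa⟩
        exact ⟨Walk.cons hadj q, by simpa using hq⟩
    | cons h p' =>
      rename_i z
      simp only [Walk.length_cons] at hp
      obtain ⟨q, hq⟩ := ih z y a1 b p' (by omega) hab1
      have hadj : (strongZ Γ).Adj (x, a) (z, a1) :=
        ⟨fun h' => h.ne (congrArg Prod.fst h'), Or.inr h, haa⟩
      exact ⟨Walk.cons hadj q, by simpa using hq⟩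

theorem strong_dist_le (hc : Γ.Connected) (x y : V) (a b : ℤ) (n : ℕ) (h1 : Γ.dist x y ≤ n)
    (h2 : |a - b| ≤ n) : (strongZ Γ).dist (x, a) (y, b) ≤ n := by
  obtain ⟨p, hp⟩ := (hc.preconnected x y).exists_walk_length_eq_dist
  obtain ⟨q, hq⟩ := strong_walk n x y a b p (by omega) h2
  exact (SimpleGraph.dist_le q).trans hq

theorem strong_connected (hc : Γ.Connected) : (strongZ Γ).Connected := by
  obtain ⟨o⟩ := hc.nonempty
  have : Nonempty (V × ℤ) := ⟨(o, 0)⟩
  refine ⟨fun u w => ?_⟩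
  obtain ⟨p, hp⟩ := (hc.preconnected u.1 w.1).exists_walk_length_eq_dist
  obtain ⟨q, _⟩ := strong_walk (Γ := Γ) (max p.length (u.2 - w.2).natAbs) u.1 w.1 u.2 w.2 p
    (by omega) (by rw [abs_le]; omega)
  exact q.reachable

theorem le_strong_dist (hc : Γ.Connected) (u w : V × ℤ) :
    Γ.dist u.1 w.1 ≤ (strongZ Γ).dist u w ∧ |u.2 - w.2| ≤ (strongZ Γ).dist u w := by
  refine dist_invariant (strong_connected hc) (v := w)
    (fun n u => Γ.dist u.1 w.1 ≤ n ∧ |u.2 - w.2| ≤ (n : ℤ)) (by simp) ?_ u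
  rintro n ⟨x, a⟩ ⟨y, b⟩ ⟨h1, h2⟩ hadj
  rw [strong_adj] at hadj
  obtain ⟨_, h3, h4⟩ := hadj
  refine ⟨?_, ?_⟩
  · rcases h3 with rfl | h3
    · simp only at h1 ⊢; omega
    · have h5 := hc.dist_triangle (u := y) (v := x) (w := w.1)
      have h6 : Γ.dist y x = 1 := SimpleGraph.dist_eq_one_iff_adj.mpr h3.symm
      simp only at h1 ⊢; omega
  · simp only [abs_le] at h2 h4 ⊢
    push_cast
    omega

/-- Distances in the Cartesian product. -/
theorem box_walk (n : ℕ) : ∀ (x : V) (a b : ℤ), |a - b| ≤ n →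
    ∃ q : (boxZ Γ).Walk (x, a) (x, b), q.length ≤ n := by
  induction n with
  | zero =>
    intro x a b hab
    have h2 : a = b := by
      have : |a - b| = 0 := le_antisymm (by simpa using hab) (abs_nonneg _)
      rw [abs_eq_zero] at this
      omega
    subst h2
    exact ⟨Walk.nil, by simp⟩
  | succ n ih =>
    intro x a b hab
    push_cast at hab
    rw [abs_le] at hab
    by_cases hab' : a = b
    · subst hab'; exact ⟨Walk.nil, by simp⟩
    set a1 := a + max (-1) (min 1 (b - a)) with ha1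
    have hab1 : |a1 - b| ≤ n := by rw [abs_le]; omega
    have haa : |a - a1| = 1 := by
      rw [abs_eq (by norm_num)]; omega
    obtain ⟨q, hq⟩ := ih x a1 b hab1
    have hadj : (boxZ Γ).Adj (x, a) (x, a1) := Or.inl ⟨rfl, haa⟩
    exact ⟨Walk.cons hadj q, by simpa using hq⟩

theorem box_walk' (x y : V) (a : ℤ) (p : Γ.Walk x y) :
    ∃ q : (boxZ Γ).Walk (x, a) (y, a), q.length = p.length := by
  induction p with
  | nil => exact ⟨Walk.nil, by simp⟩
  | cons h p ih =>
    obtain ⟨q, hq⟩ := ih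
    exact ⟨Walk.cons (Or.inr ⟨h, rfl⟩ : (boxZ Γ).Adj (_, a) (_, a)) q, by simp [hq]⟩

theorem box_dist_le (hc : Γ.Connected) (u w : V × ℤ) :
    ((boxZ Γ).dist u w : ℤ) ≤ Γ.dist u.1 w.1 + |u.2 - w.2| := by
  obtain ⟨p, hp⟩ := (hc.preconnected u.1 w.1).exists_walk_length_eq_dist
  obtain ⟨q, hq⟩ := box_walk' u.1 w.1 u.2 p
  obtain ⟨q', hq'⟩ := box_walk (Γ := Γ) (u.2 - w.2).natAbs w.1 u.2 w.2
    (by rw [abs_le]; omega)
  have h := SimpleGraph.dist_le (q.append q')
  rw [Walk.length_append, hq, hp] at h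
  have h2 : ((u.2 - w.2).natAbs : ℤ) = |u.2 - w.2| := by simp
  rw [← h2]
  have h3 : (boxZ Γ).dist u w ≤ Γ.dist u.1 w.1 + (u.2 - w.2).natAbs := h.trans (by omega)
  exact_mod_cast h3

theorem box_connected (hc : Γ.Connected) : (boxZ Γ).Connected := by
  obtain ⟨o⟩ := hc.nonempty
  have : Nonempty (V × ℤ) := ⟨(o, 0)⟩
  refine ⟨fun u w => ?_⟩
  obtain ⟨p, hp⟩ := (hc.preconnected u.1 w.1).exists_walk_length_eq_dist
  obtain ⟨q, hq⟩ := box_walk' u.1 w.1 u.2 p
  obtain ⟨q', hq'⟩ := box_walk (Γ := Γ) (u.2 - w.2).natAbs w.1 u.2 w.2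
    (by rw [abs_le]; omega)
  exact q.reachable.trans q'.reachable

theorem le_box_dist (hc : Γ.Connected) (u w : V × ℤ) :
    (Γ.dist u.1 w.1 : ℤ) + |u.2 - w.2| ≤ (boxZ Γ).dist u w := by
  refine dist_invariant (box_connected hc) (v := w)
    (fun n u => (Γ.dist u.1 w.1 : ℤ) + |u.2 - w.2| ≤ (n : ℤ)) (by simp) ?_ u
  rintro n ⟨x, a⟩ ⟨y, b⟩ h hadj
  simp only at h ⊢
  push_cast
  rcases hadj with ⟨h1, h2⟩ | ⟨h1, h2⟩
  · simp only at h1 h2
    subst h1
    have h3 := abs_sub_le b a w.2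
    rw [abs_sub_comm b a] at h3
    omega
  · simp only at h1 h2
    subst h2
    have h5 := hc.dist_triangle (u := y) (v := x) (w := w.1)
    have h6 : Γ.dist y x = 1 := SimpleGraph.dist_eq_one_iff_adj.mpr h1.symm
    omega

theorem strong_locFinite (h : LocFinite Γ) : LocFinite (strongZ Γ) := by
  rintro ⟨x, a⟩
  have : ((insert x (Γ.neighborSet x)) ×ˢ (Set.Icc (a - 1) (a + 1))).Finite :=
    ((h x).insert x).prod (Set.finite_Icc _ _)
  refine this.subset ?_
  rintro ⟨y, b⟩ ⟨_, h2, h3⟩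
  refine ⟨?_, ?_⟩
  · rcases h2 with h | h
    · exact Or.inl h.symm
    · exact Or.inr h
  · simp only [abs_le] at h3
    simp only [Set.mem_Icc]; omega

theorem box_locFinite (h : LocFinite Γ) : LocFinite (boxZ Γ) := by
  intro u
  refine (strong_locFinite h u).subset ?_
  obtain ⟨x, a⟩ := u
  rintro ⟨y, b⟩ hadj
  rw [mem_neighborSet] at hadj ⊢
  rw [box_adj] at hadj
  rw [strong_adj]
  rcases hadj with ⟨h1, h2⟩ | ⟨h1, h2⟩
  · refine ⟨?_, Or.inl h1, h2.le⟩
    intro h
    have : a = b := congrArg Prod.snd h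
    subst this
    simp at h2
  · refine ⟨?_, Or.inr h1, by simp [h2]⟩
    intro h
    exact h1.ne (congrArg Prod.fst h)

theorem strong_vt (h : VertexTransitive Γ) : VertexTransitive (strongZ Γ) := by
  rintro ⟨x, a⟩ ⟨y, b⟩
  obtain ⟨φ, hφ⟩ := h x y
  refine ⟨{ toFun := fun u => (φ u.1, u.2 + (b - a)), invFun := fun u => (φ.symm u.1, u.2 - (b - a)),
            left_inv := fun u => by simp, right_inv := fun u => by simp,
            map_rel_iff' := ?_ }, ?_⟩
  · rintro ⟨x, a⟩ ⟨y, b⟩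
    have e : Γ.Adj (φ x) (φ y) ↔ Γ.Adj x y := φ.map_adj_iff
    simp [strongZ, e]
  · simp [hφ]

theorem box_vt (h : VertexTransitive Γ) : VertexTransitive (boxZ Γ) := by
  rintro ⟨x, a⟩ ⟨y, b⟩
  obtain ⟨φ, hφ⟩ := h x y
  refine ⟨{ toFun := fun u => (φ u.1, u.2 + (b - a)), invFun := fun u => (φ.symm u.1, u.2 - (b - a)),
            left_inv := fun u => by simp, right_inv := fun u => by simp,
            map_rel_iff' := ?_ }, ?_⟩
  · rintro ⟨x, a⟩ ⟨y, b⟩
    have e : Γ.Adj (φ x) (φ y) ↔ Γ.Adj x y := φ.map_adj_iff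
    simp [boxZ, e]
  · simp [hφ]

theorem strong_nice (hc : Γ.Connected) (hl : LocFinite Γ) (hv : VertexTransitive Γ) :
    Nice (strongZ Γ) := by
  obtain ⟨o⟩ := hc.nonempty
  have : Nonempty V := ⟨o⟩
  exact ⟨inferInstance, strong_connected hc, strong_locFinite hl, strong_vt hv⟩

theorem box_nice (hc : Γ.Connected) (hl : LocFinite Γ) (hv : VertexTransitive Γ) :
    Nice (boxZ Γ) := by
  obtain ⟨o⟩ := hc.nonempty
  have : Nonempty V := ⟨o⟩
  exact ⟨inferInstance, box_connected hc, box_locFinite hl, box_vt hv⟩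

/-- In the strong product of a connected graph with `ℤ`, a vertex `(o,0)` is surrounded by
`2 deg(o)` sites, so the survival number is finite. -/
theorem strong_surround (hc : Γ.Connected) (hl : LocFinite Γ) (o : V) (N : Finset V)
    (hN : ∀ y, y ∈ N ↔ Γ.Adj o y) (hne : N.Nonempty) (d : ℕ) :
    ∃ T : Finset (V × ℤ), T.card ≤ 2 * N.card + 1 ∧
    (∀ x ∈ T, ∀ y ∈ T, x ≠ y → d < (strongZ Γ).dist x y) ∧ ∃ v ∈ T, (Cell (strongZ Γ) T v).Finite := by
  classical
  -- heights
  obtain ⟨f, hf⟩ : ∃ f : V → ℕ, Set.InjOn f N := by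
    exact Set.countable_iff_exists_injOn.mp N.countable_toSet
  -- the height of the site above `y`
  let b : V → ℤ := fun y => ((d : ℤ) + 1) * (f y + 1)
  have hb : ∀ y, (d : ℤ) + 1 ≤ b y := by
    intro y
    simp only [b]
    nlinarith [Int.natCast_nonneg (f y), Int.natCast_nonneg d]
  have hbd : ∀ y ∈ N, ∀ z ∈ N, y ≠ z → (d : ℤ) < |b y - b z| := by
    intro y hy z hz hyz
    have hfne : f y ≠ f z := fun h => hyz (hf hy hz h)
    have h1 : b y - b z = ((d : ℤ) + 1) * ((f y : ℤ) - f z) := by simp only [b]; ring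
    rw [h1, abs_mul]
    have h2 : 1 ≤ |(f y : ℤ) - f z| := Int.one_le_abs (by omega)
    have h3 : |(d : ℤ) + 1| = d + 1 := abs_of_nonneg (by positivity)
    rw [h3]
    nlinarith
  let T : Finset (V × ℤ) := insert (o, 0) (N.image (fun y => (y, b y)) ∪ N.image (fun y => (y, -b y)))
  have hT : ∀ u ∈ T, u = (o, 0) ∨ ∃ y ∈ N, u = (y, b y) ∨ u = (y, -b y) := by
    intro u hu
    simp only [T, Finset.mem_insert, Finset.mem_union, Finset.mem_image] at hu
    rcases hu with h | ⟨y, hy, rfl⟩ | ⟨y, hy, rfl⟩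
    · exact Or.inl h
    · exact Or.inr ⟨y, hy, Or.inl rfl⟩
    · exact Or.inr ⟨y, hy, Or.inr rfl⟩
  have hsep : ∀ x ∈ T, ∀ y ∈ T, x ≠ y → (d : ℤ) < |x.2 - y.2| := by
    intro x hx y hy hxy
    rcases hT x hx with rfl | ⟨x', hx', rfl | rfl⟩ <;> rcases hT y hy with rfl | ⟨y', hy', rfl | rfl⟩
    · exact absurd rfl hxy
    · have := hb y'; rw [lt_abs]; simp only; omega
    · have := hb y'; rw [lt_abs]; simp only; omega
    · have := hb x'; rw [lt_abs]; simp only; omega
    · exact hbd x' hx' y' hy' (fun h => hxy (by rw [h]))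
    · have := hb x'; have := hb y'; rw [lt_abs]; simp only; omega
    · have := hb x'; rw [lt_abs]; simp only; omega
    · have := hb x'; have := hb y'; rw [lt_abs]; simp only; omega
    · have := hbd x' hx' y' hy' (fun h => hxy (by rw [h]))
      simp only
      rw [show -b x' - -b y' = -(b x' - b y') by ring, abs_neg]
      exact this
  refine ⟨T, ?_, ?_, (o, 0), by simp [T], ?_⟩
  · refine (Finset.card_insert_le _ _).trans ?_
    have h1 := Finset.card_union_le (N.image (fun y => (y, b y))) (N.image (fun y => (y, -b y)))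
    have h2 : (N.image (fun y => (y, b y))).card ≤ N.card := Finset.card_image_le
    have h3 : (N.image (fun y => (y, -b y))).card ≤ N.card := Finset.card_image_le
    omega
  · intro x hx y hy hxy
    have h1 := hsep x hx y hy hxy
    have h2 := (le_strong_dist hc x y).2
    omega
  · -- finiteness of the cell
    obtain ⟨B, hB⟩ : ∃ B : ℕ, ∀ y ∈ N, b y ≤ B := by
      refine ⟨∑ y ∈ N, (b y).natAbs, fun y hy => ?_⟩
      have := Finset.single_le_sum (f := fun y => (b y).natAbs) (fun _ _ => Nat.zero_le _) hy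
      omega
    refine (closedBall_finite (strong_connected hc) (strong_locFinite hl) (o, 0) (2 * B + 4)).subset ?_
    rintro ⟨x, c⟩ hu
    by_contra hcon
    simp only [Set.mem_ofPred_eq, not_le] at hcon
    rw [SimpleGraph.dist_comm] at hcon
    set n := (strongZ Γ).dist (x, c) (o, 0) with hn
    -- a neighbour of `o` towards `x`
    obtain ⟨y, hy, hyx⟩ : ∃ y ∈ N, Γ.dist x y + 1 ≤ n := by
      by_cases hxo : x = o
      · obtain ⟨y, hy⟩ := hne
        refine ⟨y, hy, ?_⟩
        have : Γ.dist x y = 1 := SimpleGraph.dist_eq_one_iff_adj.mpr (by rw [hxo]; exact (hN y).mp hy)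
        omega
      · obtain ⟨p, hp⟩ := (hc.preconnected o x).exists_walk_length_eq_dist
        have h1 := (le_strong_dist hc (x, c) (o, 0)).1
        simp only at h1
        cases p with
        | nil => exact absurd rfl hxo
        | cons h p' =>
          rename_i y
          refine ⟨y, (hN y).mpr h, ?_⟩
          have h2 := SimpleGraph.dist_le p'.reverse
          simp only [Walk.length_reverse, Walk.length_cons] at h2 hp
          rw [SimpleGraph.dist_comm] at h1
          omega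
    have hcn := (le_strong_dist hc (x, c) (o, 0)).2
    simp only [sub_zero] at hcn
    have hbB := hB y hy
    have hb1 := hb y
    have hmain : ∃ w ∈ T, (strongZ Γ).dist (x, c) w ≤ n - 1 := by
      rcases le_total 0 c with h0 | h0
      · refine ⟨(y, b y), by simp [T]; right; left; exact hy, ?_⟩
        apply strong_dist_le hc
        · omega
        · rw [abs_of_nonneg h0] at hcn
          rw [abs_le]
          omega
      · refine ⟨(y, -b y), by simp [T]; right; right; exact hy, ?_⟩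
        apply strong_dist_le hc
        · omega
        · rw [abs_of_nonpos h0] at hcn
          rw [abs_le]
          omega
    obtain ⟨w, hw, hwn⟩ := hmain
    have h3 : (strongZ Γ).dist (x, c) (o, 0) ≤ (strongZ Γ).dist (x, c) w := hu w hw
    omega

end Pool.Agent.V11118.Products
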