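import Pool.Agent.V11118.Survival

/-!
A vertex-transitive graph of quadratic growth with survival number two.
-/

namespace Pool.Agent.V11118.SurvTwo

open SimpleGraph Pool.Agent.V11118.Survival

/-- Two layers `ℤ²`; in layer `false` one moves by `|i| ≤ 2, |j| ≤ 1`, in layer `true` by
`|i| ≤ 1, |j| ≤ 2`, and the two copies of each point are joined. -/
def Gr : SimpleGraph (ℤ × ℤ × Bool) where
  Adj u w := (u.1 = w.1 ∧ u.2.1 = w.2.1 ∧ u.2.2 ≠ w.2.2) ∨
    (u.2.2 = w.2.2 ∧ (u.1 ≠ w.1 ∨ u.2.1 ≠ w.2.1) ∧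
      (u.2.2 = false → |u.1 - w.1| ≤ 2 ∧ |u.2.1 - w.2.1| ≤ 1) ∧
      (u.2.2 = true → |u.1 - w.1| ≤ 1 ∧ |u.2.1 - w.2.1| ≤ 2))
  symm := ⟨by
    rintro ⟨x, y, l⟩ ⟨x', y', l'⟩ h
    simp only [abs_le] at h ⊢
    rcases h with ⟨h1, h2, h3⟩ | ⟨h1, h2, h3, h4⟩
    · left; exact ⟨h1.symm, h2.symm, fun h => h3 h.symm⟩
    · right
      subst h1
      refine ⟨rfl, by omega, fun h => ?_, fun h => ?_⟩
      · have := h3 h; omega
      · have := h4 h; omega⟩
  loopless := ⟨by
    rintro ⟨x, y, l⟩ h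
    simp at h⟩

theorem adj_false {x y x' y' : ℤ} : Gr.Adj (x, y, false) (x', y', false) ↔
    (x ≠ x' ∨ y ≠ y') ∧ (-2 ≤ x - x' ∧ x - x' ≤ 2) ∧ (-1 ≤ y - y' ∧ y - y' ≤ 1) := by
  simp [Gr, abs_le]

theorem adj_true {x y x' y' : ℤ} : Gr.Adj (x, y, true) (x', y', true) ↔
    (x ≠ x' ∨ y ≠ y') ∧ (-1 ≤ x - x' ∧ x - x' ≤ 1) ∧ (-2 ≤ y - y' ∧ y - y' ≤ 2) := by
  simp [Gr, abs_le]

theorem adj_ft {x y x' y' : ℤ} : Gr.Adj (x, y, false) (x', y', true) ↔ x = x' ∧ y = y' := by
  simp [Gr]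

theorem adj_tf {x y x' y' : ℤ} : Gr.Adj (x, y, true) (x', y', false) ↔ x = x' ∧ y = y' := by
  simp [Gr]

/-- Reachable in at most `n` steps. -/
def D (u w : ℤ × ℤ × Bool) (n : ℕ) : Prop := ∃ p : Gr.Walk u w, p.length ≤ n

theorem D.trans {u w z : ℤ × ℤ × Bool} {m n : ℕ} (h1 : D u w m) (h2 : D w z n) :
    D u z (m + n) := by
  obtain ⟨p, hp⟩ := h1
  obtain ⟨q, hq⟩ := h2
  exact ⟨p.append q, by rw [Walk.length_append]; omega⟩

theorem D.symm {u w : ℤ × ℤ × Bool} {n : ℕ} (h1 : D u w n) : D w u n := by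
  obtain ⟨p, hp⟩ := h1
  exact ⟨p.reverse, by rw [Walk.length_reverse]; omega⟩

theorem D.dist {u w : ℤ × ℤ × Bool} {n : ℕ} (h1 : D u w n) : Gr.dist u w ≤ n := by
  obtain ⟨p, hp⟩ := h1
  exact (SimpleGraph.dist_le p).trans hp

theorem D.of_adj {u w : ℤ × ℤ × Bool} (h : Gr.Adj u w) : D u w 1 :=
  ⟨Walk.cons h Walk.nil, by simp⟩

theorem D.mono {u w : ℤ × ℤ × Bool} {m n : ℕ} (h1 : D u w m) (h : m ≤ n) : D u w n := by
  obtain ⟨p, hp⟩ := h1
  exact ⟨p, hp.trans h⟩

theorem D.refl (u : ℤ × ℤ × Bool) (n : ℕ) : D u u n := ⟨Walk.nil, by simp⟩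

theorem D_false (n : ℕ) : ∀ x y x' y' : ℤ, -(2 * n) ≤ x - x' → x - x' ≤ 2 * n → -n ≤ y - y' →
    y - y' ≤ n → D (x, y, false) (x', y', false) n := by
  induction n with
  | zero =>
    intro x y x' y' h1 h2 h3 h4
    obtain rfl : x = x' := by push_cast at *; omega
    obtain rfl : y = y' := by push_cast at *; omega
    exact D.refl _ _
  | succ n ih =>
    intro x y x' y' h1 h2 h3 h4
    push_cast at h1 h2 h3 h4
    by_cases he : x = x' ∧ y = y'
    · obtain ⟨rfl, rfl⟩ := he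
      exact D.refl _ _
    set x1 := x + max (-2) (min 2 (x' - x)) with hx1
    set y1 := y + max (-1) (min 1 (y' - y)) with hy1
    have ha : Gr.Adj (x, y, false) (x1, y1, false) := by
      rw [adj_false]
      refine ⟨by omega, by omega, by omega⟩
    have hb := ih x1 y1 x' y' (by omega) (by omega) (by omega) (by omega)
    have := (D.of_adj ha).trans hb
    rwa [add_comm] at this

theorem D_true (n : ℕ) : ∀ x y x' y' : ℤ, -n ≤ x - x' → x - x' ≤ n → -(2 * n) ≤ y - y' →
    y - y' ≤ 2 * n → D (x, y, true) (x', y', true) n := by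
  induction n with
  | zero =>
    intro x y x' y' h1 h2 h3 h4
    obtain rfl : x = x' := by push_cast at *; omega
    obtain rfl : y = y' := by push_cast at *; omega
    exact D.refl _ _
  | succ n ih =>
    intro x y x' y' h1 h2 h3 h4
    push_cast at h1 h2 h3 h4
    by_cases he : x = x' ∧ y = y'
    · obtain ⟨rfl, rfl⟩ := he
      exact D.refl _ _
    set x1 := x + max (-1) (min 1 (x' - x)) with hx1
    set y1 := y + max (-2) (min 2 (y' - y)) with hy1
    have ha : Gr.Adj (x, y, true) (x1, y1, true) := by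
      rw [adj_true]
      refine ⟨by omega, by omega, by omega⟩
    have hb := ih x1 y1 x' y' (by omega) (by omega) (by omega) (by omega)
    have := (D.of_adj ha).trans hb
    rwa [add_comm] at this

/-- Mixed moves. -/
theorem D_mixed (n : ℕ) (x y x' y' : ℤ) (h1 : |x - x'| ≤ 2 * n) (h2 : |y - y'| ≤ 2 * n)
    (h3 : |x - x'| + |y - y'| ≤ 3 * n) : D (x, y, true) (x', y', false) (n + 1) := by
  have hx : (|x - x'| = x - x' ∧ 0 ≤ x - x') ∨ (|x - x'| = -(x - x') ∧ x - x' ≤ 0) := by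
    rcases le_total 0 (x - x') with h | h
    · left; exact ⟨abs_of_nonneg h, h⟩
    · right; exact ⟨abs_of_nonpos h, h⟩
  have hy : (|y - y'| = y - y' ∧ 0 ≤ y - y') ∨ (|y - y'| = -(y - y') ∧ y - y' ≤ 0) := by
    rcases le_total 0 (y - y') with h | h
    · left; exact ⟨abs_of_nonneg h, h⟩
    · right; exact ⟨abs_of_nonpos h, h⟩
  generalize |x - x'| = X at *
  generalize |y - y'| = Y at *
  obtain ⟨p, q, hpq, hp⟩ : ∃ p q : ℕ, p + q = n ∧ (p : ℤ) = max (X - n) 0 := by
    refine ⟨(max (X - n) 0).toNat, n - (max (X - n) 0).toNat, ?_, ?_⟩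
    · omega
    · omega
  set x1 := x + max (-q : ℤ) (min q (x' - x)) with hx1
  set y1 := y + max (-(2 * q) : ℤ) (min (2 * q) (y' - y)) with hy1
  have ha := D_true q x y x1 y1 (by omega) (by omega) (by omega) (by omega)
  have hb : D (x1, y1, true) (x1, y1, false) 1 := D.of_adj (adj_tf.mpr ⟨rfl, rfl⟩)
  have hc := D_false p x1 y1 x' y' (by omega) (by omega) (by omega) (by omega)
  exact ((ha.trans hb).trans hc).mono (by omega)

theorem connected : Gr.Connected := by
  have key : ∀ (x y : ℤ) (l : Bool), Gr.Reachable (x, y, l) (0, 0, false) := by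
    intro x y l
    have hf : Gr.Reachable (x, y, false) (0, 0, false) := by
      obtain ⟨p, _⟩ := D_false (x.natAbs + y.natAbs) x y 0 0 (by omega)
        (by omega) (by omega) (by omega)
      exact p.reachable
    cases l with
    | false => exact hf
    | true => exact (adj_tf.mpr ⟨rfl, rfl⟩ : Gr.Adj (x, y, true) (x, y, false)).reachable.trans hf
  have : Nonempty (ℤ × ℤ × Bool) := ⟨(0, 0, false)⟩
  exact ⟨fun u w => (key u.1 u.2.1 u.2.2).trans (key w.1 w.2.1 w.2.2).symm⟩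

theorem coord_bound (w u : ℤ × ℤ × Bool) :
    |u.1 - w.1| ≤ 2 * (Gr.dist u w : ℤ) ∧ |u.2.1 - w.2.1| ≤ 2 * (Gr.dist u w : ℤ) := by
  refine dist_invariant (G := Gr) (v := w) connected
    (fun n u => |u.1 - w.1| ≤ 2 * (n : ℤ) ∧ |u.2.1 - w.2.1| ≤ 2 * (n : ℤ)) (by simp) ?_ u
  rintro n ⟨x, y, l⟩ ⟨x', y', l'⟩ h hadj
  simp only [abs_le] at h ⊢
  push_cast
  cases l <;> cases l'
  · rw [adj_false] at hadj; omega
  · rw [adj_ft] at hadj; omega
  · rw [adj_tf] at hadj; omega
  · rw [adj_true] at hadj; omega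

theorem locFinite : LocFinite Gr := by
  rintro ⟨x, y, l⟩
  have : ((Finset.Icc (x - 2) (x + 2) ×ˢ (Finset.Icc (y - 2) (y + 2) ×ˢ
    (Finset.univ : Finset Bool)) : Finset (ℤ × ℤ × Bool)) : Set (ℤ × ℤ × Bool)).Finite :=
    Finset.finite_toSet _
  refine this.subset ?_
  rintro ⟨x', y', l'⟩ hadj
  rw [mem_neighborSet] at hadj
  simp only [Finset.coe_product, Set.mem_prod, Finset.mem_coe, Finset.mem_Icc, Finset.mem_univ,
    and_true]
  cases l <;> cases l'
  · rw [adj_false] at hadj; omega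
  · rw [adj_ft] at hadj; omega
  · rw [adj_tf] at hadj; omega
  · rw [adj_true] at hadj; omega

/-- Translation. -/
def trans (a b : ℤ) : Gr ≃g Gr where
  toFun u := (u.1 + a, u.2.1 + b, u.2.2)
  invFun u := (u.1 - a, u.2.1 - b, u.2.2)
  left_inv := by rintro ⟨x, y, l⟩; simp
  right_inv := by rintro ⟨x, y, l⟩; simp
  map_rel_iff' := by
    rintro ⟨x, y, l⟩ ⟨x', y', l'⟩
    cases l <;> cases l' <;> simp [Gr]

/-- Swapping coordinates and layers. -/
def swp : Gr ≃g Gr where
  toFun u := (u.2.1, u.1, !u.2.2)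
  invFun u := (u.2.1, u.1, !u.2.2)
  left_inv := by rintro ⟨x, y, l⟩; simp
  right_inv := by rintro ⟨x, y, l⟩; simp
  map_rel_iff' := by
    rintro ⟨x, y, l⟩ ⟨x', y', l'⟩
    cases l <;> cases l' <;> simp [Gr] <;> tauto

theorem vertexTransitive : VertexTransitive Gr := by
  have key : ∀ u : ℤ × ℤ × Bool, ∃ φ : Gr ≃g Gr, φ (0, 0, false) = u := by
    rintro ⟨x, y, l⟩
    cases l with
    | false => exact ⟨trans x y, by simp [trans]⟩
    | true => exact ⟨swp.trans (trans x y), by simp [trans, swp]⟩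
  intro u v
  obtain ⟨φ, hφ⟩ := key u
  obtain ⟨ψ, hψ⟩ := key v
  refine ⟨φ.symm.trans ψ, ?_⟩
  rw [← hφ, ← hψ]
  simp

theorem nice : Nice Gr := ⟨inferInstance, connected, locFinite, vertexTransitive⟩

/-- Lower bounds for distances to `(0,0,true)`. -/
theorem lower (u : ℤ × ℤ × Bool) :
    (u.2.2 = false → ∃ n : ℤ, (Gr.dist u (0, 0, true) : ℤ) = n + 1 ∧ |u.1| ≤ 2 * n ∧
      |u.2.1| ≤ 2 * n ∧ |u.1| + |u.2.1| ≤ 3 * n) ∧
    (u.2.2 = true → (|u.1| ≤ Gr.dist u (0, 0, true) ∧ |u.2.1| ≤ 2 * (Gr.dist u (0, 0, true) : ℤ)) ∨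
      ∃ n : ℤ, (Gr.dist u (0, 0, true) : ℤ) = n + 2 ∧ |u.1| ≤ 2 * n ∧ |u.2.1| ≤ 2 * n ∧
      |u.1| + |u.2.1| ≤ 3 * n) := by
  have := dist_invariant (G := Gr) (v := (0, 0, true)) connected
    (fun m u => (u.2.2 = false → |u.1| ≤ 2 * ((m : ℤ) - 1) ∧
      |u.2.1| ≤ 2 * ((m : ℤ) - 1) ∧ |u.1| + |u.2.1| ≤ 3 * ((m : ℤ) - 1)) ∧
    (u.2.2 = true → (|u.1| ≤ m ∧ |u.2.1| ≤ 2 * (m : ℤ)) ∨
      (|u.1| ≤ 2 * ((m : ℤ) - 2) ∧ |u.2.1| ≤ 2 * ((m : ℤ) - 2) ∧
      |u.1| + |u.2.1| ≤ 3 * ((m : ℤ) - 2)))) (by simp) ?_ u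
  · refine ⟨fun h => ⟨(Gr.dist u (0, 0, true) : ℤ) - 1, by ring, this.1 h⟩, fun h => ?_⟩
    rcases this.2 h with h | h
    · exact Or.inl h
    · exact Or.inr ⟨(Gr.dist u (0, 0, true) : ℤ) - 2, by ring, h⟩
  · rintro n ⟨x, y, l⟩ ⟨x', y', l'⟩ h hadj
    have e1 : ∀ z : ℤ, (|z| = z ∧ 0 ≤ z) ∨ (|z| = -z ∧ z ≤ 0) := by
      intro z
      rcases le_total 0 z with h | h
      · left; exact ⟨abs_of_nonneg h, h⟩
      · right; exact ⟨abs_of_nonpos h, h⟩
    have f1 := e1 x
    have f2 := e1 y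
    have f3 := e1 x'
    have f4 := e1 y'
    simp only at h ⊢
    push_cast
    generalize |x| = X at *
    generalize |y| = Y at *
    generalize |x'| = X' at *
    generalize |y'| = Y' at *
    cases l <;> cases l' <;> simp only [reduceCtorEq, false_imp_iff, and_true, true_and,
      forall_const] at h ⊢
    · rw [adj_false] at hadj; omega
    · rw [adj_ft] at hadj; omega
    · rw [adj_tf] at hadj; omega
    · rw [adj_true] at hadj; omega

/-- Every vertex outside of a box, in the upper half plane, is closer to `(0,a,false)`. -/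
theorem closer (a : ℕ) (ha : 7 ≤ a) (x y : ℤ) (l : Bool) (hy : 0 ≤ y)
    (hfar : 2 * (a : ℤ) + 2 < |x| ∨ 2 * (a : ℤ) + 2 < |y|) :
    Gr.dist (x, y, l) (0, (a : ℤ), false) < Gr.dist (x, y, l) (0, 0, true) := by
  have hlow := lower (x, y, l)
  simp only at hlow
  have e1 : ∀ z : ℤ, (|z| = z ∧ 0 ≤ z) ∨ (|z| = -z ∧ z ≤ 0) := by
    intro z
    rcases le_total 0 z with h | h
    · left; exact ⟨abs_of_nonneg h, h⟩
    · right; exact ⟨abs_of_nonpos h, h⟩
  have f1 := e1 x
  have f2 := e1 y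
  have f3 := e1 (y - a)
  have f4 := e1 (x - 0)
  rw [abs_of_nonneg hy] at *
  have hD : ∀ m : ℕ, 1 ≤ m → D (x, y, l) (0, (a : ℤ), false) (m - 1) → m ≤ Gr.dist (x, y, l) (0, 0, true) →
      Gr.dist (x, y, l) (0, (a : ℤ), false) < Gr.dist (x, y, l) (0, 0, true) := by
    intro m hm h1 h2
    have := h1.dist
    omega
  cases l with
  | false =>
    obtain ⟨n, hn, h1, h2, h3⟩ := hlow.1 rfl
    -- two cases
    by_cases hc : |x| ≤ 2 * (y - a)
    · have hN : 0 ≤ n - 2 := by omega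
      obtain ⟨k, hk⟩ := Int.eq_ofNat_of_zero_le hN
      have hmix := D_mixed k x y 0 a (by omega) (by omega) (by omega)
      have hv : D (x, y, false) (x, y, true) 1 := D.of_adj (adj_ft.mpr ⟨rfl, rfl⟩)
      refine hD (k + 3) (by omega) ((hv.trans hmix).mono (by omega)) (by omega)
    · have hN : 0 ≤ n := by omega
      obtain ⟨k, hk⟩ := Int.eq_ofNat_of_zero_le hN
      have hs := D_false k x y 0 a (by omega) (by omega) (by omega) (by omega)
      refine hD (k + 1) (by omega) (hs.mono (by omega)) (by omega)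
  | true =>
    rcases hlow.2 rfl with ⟨h1, h2⟩ | ⟨n, hn, h1, h2, h3⟩
    · set M := Gr.dist (x, y, true) (0, 0, true) with hM
      by_cases hc : |x| ≤ 2 * (y - a)
      · obtain ⟨k, hk⟩ : ∃ k : ℕ, M = k + 2 := ⟨M - 2, by omega⟩
        have hmix := D_mixed k x y 0 a (by omega) (by omega) (by omega)
        have := hmix.dist
        omega
      · obtain ⟨k, hk⟩ : ∃ k : ℕ, M = k + 2 := ⟨M - 2, by omega⟩
        have hmix := D_mixed k x y 0 a (by omega) (by omega) (by omega)
        have := hmix.dist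
        omega
    · obtain ⟨k, hk⟩ := Int.eq_ofNat_of_zero_le (show 0 ≤ n by omega)
      have hmix := D_mixed k x y 0 a (by omega) (by omega) (by omega)
      have := hmix.dist
      omega

/-- Reflection. -/
def rfl' : Gr ≃g Gr where
  toFun u := (u.1, -u.2.1, u.2.2)
  invFun u := (u.1, -u.2.1, u.2.2)
  left_inv := by rintro ⟨x, y, l⟩; simp
  right_inv := by rintro ⟨x, y, l⟩; simp
  map_rel_iff' := by
    rintro ⟨x, y, l⟩ ⟨x', y', l'⟩
    cases l <;> cases l' <;> simp [Gr, abs_le] <;> omega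

theorem closer' (a : ℕ) (ha : 7 ≤ a) (x y : ℤ) (l : Bool) (hy : y ≤ 0)
    (hfar : 2 * (a : ℤ) + 2 < |x| ∨ 2 * (a : ℤ) + 2 < |y|) :
    Gr.dist (x, y, l) (0, -(a : ℤ), false) < Gr.dist (x, y, l) (0, 0, true) := by
  have h := closer a ha x (-y) l (by omega) (by rwa [abs_neg])
  have h1 := dist_iso connected rfl' (x, -y, l) (0, (a : ℤ), false)
  have h2 := dist_iso connected rfl' (x, -y, l) (0, 0, true)
  simp only [rfl', RelIso.coe_fn_mk, Equiv.coe_fn_mk, neg_neg, neg_zero] at h1 h2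
  rw [h1, h2]
  exact h

theorem surround (d : ℕ) : ∃ T : Finset (ℤ × ℤ × Bool), T.card ≤ 2 + 1 ∧
    (∀ x ∈ T, ∀ y ∈ T, x ≠ y → d < Gr.dist x y) ∧ ∃ v ∈ T, (Cell Gr T v).Finite := by
  set a : ℕ := 2 * d + 7 with ha
  have hb := fun u w => coord_bound u w
  refine ⟨{(0, 0, true), (0, (a : ℤ), false), (0, -(a : ℤ), false)}, Finset.card_le_three, ?_,
    (0, 0, true), by simp, ?_⟩
  · have key : ∀ (y y' : ℤ) (l l' : Bool), 2 * (d : ℤ) < |y - y'| →
        d < Gr.dist (0, y, l) (0, y', l') := by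
      intro y y' l l' h
      have := (hb (0, y', l') (0, y, l)).2
      simp only at this
      omega
    intro x hx y hy hxy
    simp only [Finset.mem_insert, Finset.mem_singleton] at hx hy
    rcases hx with rfl | rfl | rfl <;> rcases hy with rfl | rfl | rfl <;>
      first
      | exact absurd rfl hxy
      | (apply key
         rw [lt_abs]
         omega)
  · have : ((Finset.Icc (-(2 * (a : ℤ) + 2)) (2 * (a : ℤ) + 2) ×ˢ
      (Finset.Icc (-(2 * (a : ℤ) + 2)) (2 * (a : ℤ) + 2) ×ˢ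
      (Finset.univ : Finset Bool)) : Finset (ℤ × ℤ × Bool)) : Set (ℤ × ℤ × Bool)).Finite :=
      Finset.finite_toSet _
    refine this.subset ?_
    rintro ⟨x, y, l⟩ hu
    simp only [Finset.coe_product, Set.mem_prod, Finset.mem_coe, Finset.mem_Icc, Finset.mem_univ,
      and_true]
    by_contra hcon
    have hfar : 2 * (a : ℤ) + 2 < |x| ∨ 2 * (a : ℤ) + 2 < |y| := by
      rw [lt_abs, lt_abs]; omega
    rcases le_total 0 y with hy | hy
    · have h1 := closer a (by omega) x y l hy hfar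
      have h2 := hu (0, (a : ℤ), false) (by simp)
      omega
    · have h1 := closer' a (by omega) x y l hy hfar
      have h2 := hu (0, -(a : ℤ), false) (by simp)
      omega

theorem survival_le : survival Gr ≤ 2 :=
  survival_lt_of_surround connected locFinite 2 surround

/-- Going away from `w` horizontally. -/
theorem horizontal (x y : ℤ) (l : Bool) (t : ℕ) (s : ℤ) (hs : s = 1 ∨ s = -1) :
    Gr.dist (x + 2 * s * t, y, false) (x, y, l) ≤ t + 1 := by
  have h1 : D (x + 2 * s * t, y, false) (x, y, false) t := by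
    apply D_false
    · rcases hs with rfl | rfl <;> omega
    · rcases hs with rfl | rfl <;> omega
    · omega
    · omega
  cases l with
  | false => exact (h1.mono (by omega)).dist
  | true => exact (h1.trans (D.of_adj (adj_ft.mpr ⟨rfl, rfl⟩))).dist

theorem vertical (x y : ℤ) (l : Bool) (t : ℕ) (s : ℤ) (hs : s = 1 ∨ s = -1) :
    Gr.dist (x, y + 2 * s * t, true) (x, y, l) ≤ t + 1 := by
  have h1 : D (x, y + 2 * s * t, true) (x, y, true) t := by
    apply D_true
    · omega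
    · omega
    · rcases hs with rfl | rfl <;> omega
    · rcases hs with rfl | rfl <;> omega
  cases l with
  | true => exact (h1.mono (by omega)).dist
  | false => exact (h1.trans (D.of_adj (adj_tf.mpr ⟨rfl, rfl⟩))).dist

/-- Infinitely many vertices are closer to `w` than to `v`. -/
theorem infinite_away (v w : ℤ × ℤ × Bool) (h : 7 < Gr.dist v w) :
    {u | Gr.dist u w < Gr.dist u v}.Infinite := by
  obtain ⟨x, y, l⟩ := w
  obtain ⟨x', y', l'⟩ := v
  have hcases : 4 < |x - x'| ∨ 4 < |y - y'| := by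
    by_contra hcon
    push Not at hcon
    rw [abs_le, abs_le] at hcon
    have h1 : D (x', y', l') (x, y, l) 7 := by
      have h0 : ∀ l, D (x', y', l) (x', y', false) 1 := by
        intro l
        cases l with
        | false => exact D.refl _ _
        | true => exact D.of_adj (adj_tf.mpr ⟨rfl, rfl⟩)
      have h0' : ∀ l, D (x, y, l) (x, y, false) 1 := by
        intro l
        cases l with
        | false => exact D.refl _ _
        | true => exact D.of_adj (adj_tf.mpr ⟨rfl, rfl⟩)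
      have := D_false 4 x' y' x y (by omega) (by omega) (by omega) (by omega)
      exact (((h0 l').trans this).trans (h0' l).symm).mono (by omega)
    have := h1.dist
    omega
  rcases hcases with hc | hc
  · obtain ⟨s, hs, hsx⟩ : ∃ s : ℤ, (s = 1 ∨ s = -1) ∧ s * (x - x') = |x - x'| := by
      rcases le_total 0 (x - x') with h | h
      · exact ⟨1, Or.inl rfl, by rw [abs_of_nonneg h]; ring⟩
      · exact ⟨-1, Or.inr rfl, by rw [abs_of_nonpos h]; ring⟩
    have hinj : Function.Injective (fun t : ℕ => ((x + 2 * s * t, y, false) : ℤ × ℤ × Bool)) := by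
      intro t t' htt
      simp only [Prod.mk.injEq, add_right_inj, and_true] at htt
      rcases hs with rfl | rfl <;> omega
    refine (Set.infinite_range_of_injective hinj).mono ?_
    rintro _ ⟨t, rfl⟩
    simp only [Set.mem_ofPred_eq]
    have h1 := horizontal x y l t s hs
    have h2 := (coord_bound (x', y', l') (x + 2 * s * t, y, false)).1
    simp only at h2
    have h3 := le_abs_self (x + 2 * s * t - x')
    have h4 := neg_le_abs (x + 2 * s * t - x')
    rcases hs with rfl | rfl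
    · omega
    · omega
  · obtain ⟨s, hs, hsx⟩ : ∃ s : ℤ, (s = 1 ∨ s = -1) ∧ s * (y - y') = |y - y'| := by
      rcases le_total 0 (y - y') with h | h
      · exact ⟨1, Or.inl rfl, by rw [abs_of_nonneg h]; ring⟩
      · exact ⟨-1, Or.inr rfl, by rw [abs_of_nonpos h]; ring⟩
    have hinj : Function.Injective (fun t : ℕ => ((x, y + 2 * s * t, true) : ℤ × ℤ × Bool)) := by
      intro t t' htt
      simp only [Prod.mk.injEq, add_right_inj, and_true, true_and] at htt
      rcases hs with rfl | rfl <;> omega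
    refine (Set.infinite_range_of_injective hinj).mono ?_
    rintro _ ⟨t, rfl⟩
    simp only [Set.mem_ofPred_eq]
    have h1 := vertical x y l t s hs
    have h2 := (coord_bound (x', y', l') (x, y + 2 * s * t, true)).2
    simp only at h2
    have h3 := le_abs_self (y + 2 * s * t - y')
    have h4 := neg_le_abs (y + 2 * s * t - y')
    rcases hs with rfl | rfl
    · omega
    · omega

theorem forced_two : Forced Gr 2 := by
  refine ⟨7, fun T hT => ?_⟩
  obtain ⟨hcard, hsep⟩ := hT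
  have hne : T.Nonempty := Finset.card_pos.mp (by omega)
  obtain ⟨v, hv, hvinf⟩ := exists_infinite_cell (G := Gr) hne
  obtain ⟨w, hw, hwv⟩ := Finset.exists_mem_ne (show 1 < T.card by omega) v
  have hinf := infinite_away v w (hsep v hv w hw hwv.symm)
  obtain ⟨z, hz, hzv, hzinf⟩ := exists_infinite_cell_ne hne v (hinf.mono (by
    intro u hu hcell
    have : Gr.dist u v ≤ Gr.dist u w := hcell w hw
    simp only [Set.mem_ofPred_eq] at hu
    omega))
  unfold I
  rw [← Set.ncard_pair hzv]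
  apply Set.ncard_le_ncard
  · rintro x (rfl | rfl)
    · exact ⟨hz, hzinf⟩
    · exact ⟨hv, hvinf⟩
  · exact T.finite_toSet.subset (fun x hx => hx.1)

theorem survival_eq : survival Gr = 2 :=
  le_antisymm survival_le (by exact_mod_cast le_survival (by norm_num) forced_two)

theorem not_linearGrowth : ¬ LinearGrowth Gr := by
  rintro ⟨a, b, h⟩
  have h1 := h (0, 0, false) (a + b + 1)
  set r := a + b + 1 with hr
  have hsub : ((Finset.Icc (-(r : ℤ)) r ×ˢ (Finset.Icc (-(r : ℤ)) r ×ˢ ({false} : Finset Bool)) :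
      Finset (ℤ × ℤ × Bool)) : Set (ℤ × ℤ × Bool)) ⊆ {u | Gr.dist u (0, 0, false) ≤ r} := by
    rintro ⟨x, y, l⟩ hu
    simp only [Finset.coe_product, Set.mem_prod, Finset.mem_coe, Finset.mem_Icc,
      Finset.mem_singleton] at hu
    obtain ⟨hx, hy, rfl⟩ := hu
    exact (D_false r x y 0 0 (by omega) (by omega) (by omega) (by omega)).dist
  have h2 := (Set.encard_le_encard hsub).trans h1
  rw [Set.encard_coe_eq_coe_finsetCard] at h2
  have h3 : (Finset.Icc (-(r : ℤ)) r ×ˢ (Finset.Icc (-(r : ℤ)) r ×ˢ ({false} : Finset Bool))).card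
      ≤ a * r + b := by exact_mod_cast h2
  rw [Finset.card_product, Finset.card_product, Int.card_Icc, Finset.card_singleton] at h3
  have h4 : ((r : ℤ) + 1 - -(r : ℤ)).toNat = 2 * r + 1 := by omega
  rw [h4] at h3
  nlinarith

end Pool.Agent.V11118.SurvTwo
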