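import Mathlib

/-!
Voronoi cells and the survival number of an infinite graph.
-/

namespace Pool.Agent.V11118.Survival

open SimpleGraph

variable {V : Type*} (G : SimpleGraph V)

/-- The Voronoi cell of `v` with respect to the finite set of sites `T`. -/
def Cell (T : Finset V) (v : V) : Set V := {u | ∀ w ∈ T, G.dist u v ≤ G.dist u w}

/-- The number of sites of `T` with infinite Voronoi cell. -/
noncomputable def I (T : Finset V) : ℕ := {v : V | v ∈ T ∧ (Cell G T v).Infinite}.ncard

/-- `T` has at least `n` elements and distinct elements of `T` are at distance `> d`. -/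
def Sep (d n : ℕ) (T : Finset V) : Prop :=
  n ≤ T.card ∧ ∀ x ∈ T, ∀ y ∈ T, x ≠ y → d < G.dist x y

/-- For some `d`, all `T ∈ 𝒯(d,n)` have at least `n` infinite cells. -/
def Forced (n : ℕ) : Prop := ∃ d : ℕ, ∀ T : Finset V, Sep G d n T → n ≤ I G T

/-- The survival number, as an extended natural number. -/
noncomputable def survival : ℕ∞ := sSup {N : ℕ∞ | ∃ n : ℕ, 1 ≤ n ∧ N = (n : ℕ∞) ∧ Forced G n}

/-- Every vertex is moved to every other one by an automorphism. -/
def VertexTransitive : Prop := ∀ u v : V, ∃ φ : G ≃g G, φ u = v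

/-- Every vertex has finitely many neighbours. -/
def LocFinite : Prop := ∀ v : V, (G.neighborSet v).Finite

/-- The standing hypotheses: infinite, connected, locally finite, vertex-transitive. -/
structure Nice : Prop where
  infinite : Infinite V
  connected : G.Connected
  locFinite : LocFinite G
  vertexTransitive : VertexTransitive G

variable {G}

theorem ball_finite (hlf : LocFinite G) (v : V) (r : ℕ) :
    {u | G.Reachable v u ∧ G.dist v u ≤ r}.Finite := by
  induction r with
  | zero =>
    refine (Set.finite_singleton v).subset ?_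
    rintro u ⟨hr, hu⟩
    have : G.dist v u = 0 := by omega
    rcases SimpleGraph.dist_eq_zero_iff_eq_or_not_reachable.mp this with h | h
    · exact h.symm
    · exact absurd hr h
  | succ r ih =>
    have h2 : (⋃ w ∈ {u | G.Reachable v u ∧ G.dist v u ≤ r}, (insert w (G.neighborSet w))).Finite := by
      apply Set.Finite.biUnion ih
      intro w _
      exact (hlf w).insert w
    refine (h2.union ih).subset ?_
    rintro u ⟨hr, hu⟩
    by_cases hle : G.dist v u ≤ r
    · right; exact ⟨hr, hle⟩
    left
    obtain ⟨p, hp⟩ := hr.exists_walk_length_eq_dist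
    have hlen : p.length = r + 1 := by omega
    have hp2 : (p.reverse).length = r + 1 := by simpa using hlen
    match hq : p.reverse, hp2 with
    | Walk.nil, h => simp at h
    | Walk.cons (v := w) hadj q, h =>
      have hql : q.length = r := by simpa using h
      have hr' : G.Reachable v w := q.reverse.reachable
      have hd : G.dist v w ≤ r := by
        have := SimpleGraph.dist_le q.reverse
        simpa [hql] using this
      simp only [Set.mem_iUnion, Set.mem_ofPred_eq]
      exact ⟨w, ⟨hr', hd⟩, Or.inr hadj.symm⟩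

theorem closedBall_finite (hc : G.Connected) (hlf : LocFinite G) (v : V) (r : ℕ) :
    {u | G.dist v u ≤ r}.Finite := by
  refine (ball_finite hlf v r).subset ?_
  intro u hu
  exact ⟨hc.preconnected v u, hu⟩

/-- `T` can be enlarged by one far away vertex. -/
theorem exists_far [Infinite V] (hc : G.Connected) (hlf : LocFinite G) (T : Finset V) (d : ℕ) :
    ∃ z : V, ∀ x ∈ T, d < G.dist x z := by
  have h : (⋃ x ∈ T, {u | G.dist x u ≤ d}).Finite := by
    apply Set.Finite.biUnion T.finite_toSet
    intro x _
    exact closedBall_finite hc hlf x d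
  obtain ⟨z, hz⟩ := (h.infinite_compl (α := V)).nonempty
  refine ⟨z, fun x hx => ?_⟩
  by_contra hcon
  apply hz
  simp only [Set.mem_iUnion]
  exact ⟨x, hx, by simpa using hcon⟩

theorem extend [Infinite V] (hc : G.Connected) (hlf : LocFinite G) (d : ℕ) (T : Finset V)
    (hT : ∀ x ∈ T, ∀ y ∈ T, x ≠ y → d < G.dist x y) (n : ℕ) (hn : T.card ≤ n) :
    ∃ T' : Finset V, T ⊆ T' ∧ T'.card = n ∧ ∀ x ∈ T', ∀ y ∈ T', x ≠ y → d < G.dist x y := by
  classical
  induction n, hn using Nat.le_induction with
  | base => exact ⟨T, subset_rfl, rfl, hT⟩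
  | succ n hn ih =>
    obtain ⟨T', h1, h2, h3⟩ := ih
    obtain ⟨z, hz⟩ := exists_far hc hlf T' d
    have hzT : z ∉ T' := by
      intro h
      have := hz z h
      simp at this
    refine ⟨insert z T', h1.trans (Finset.subset_insert _ _), ?_, ?_⟩
    · rw [Finset.card_insert_of_notMem hzT, h2]
    · intro x hx y hy hxy
      rcases Finset.mem_insert.mp hx with h | hx
      · rcases Finset.mem_insert.mp hy with h' | hy
        · exact absurd (h.trans h'.symm) hxy
        · rw [h, SimpleGraph.dist_comm]; exact hz y hy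
      · rcases Finset.mem_insert.mp hy with h' | hy
        · rw [h']; exact hz x hx
        · exact h3 x hx y hy hxy

/-- If some site of `T` has finite cell then `I T < |T|`. -/
theorem I_lt_card {T : Finset V} {v : V} (hv : v ∈ T) (hfin : (Cell G T v).Finite) :
    I G T < T.card := by
  classical
  unfold I
  have hsub : {w : V | w ∈ T ∧ (Cell G T w).Infinite} ⊆ ((T.erase v : Finset V) : Set V) := by
    rintro w ⟨hw, hinf⟩
    simp only [Finset.coe_erase, Set.mem_sdiff, Finset.mem_coe, Set.mem_singleton_iff]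
    refine ⟨hw, ?_⟩
    rintro rfl
    exact hinf hfin
  calc _ ≤ ((T.erase v : Finset V) : Set V).ncard := Set.ncard_le_ncard hsub (Finset.finite_toSet _)
    _ = (T.erase v).card := Set.ncard_coe_finset _
    _ < T.card := Finset.card_erase_lt_of_mem hv

theorem cell_anti {T T' : Finset V} (h : T ⊆ T') (v : V) : Cell G T' v ⊆ Cell G T v :=
  fun _ hu w hw => hu w (h hw)

/-- A family of surrounded configurations of bounded size bounds the survival number. -/
theorem not_forced_of_surround [Infinite V] (hc : G.Connected) (hlf : LocFinite G) (m : ℕ)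
    (h : ∀ d : ℕ, ∃ T : Finset V, T.card ≤ m ∧ (∀ x ∈ T, ∀ y ∈ T, x ≠ y → d < G.dist x y) ∧
      ∃ v ∈ T, (Cell G T v).Finite) (n : ℕ) (hn : m ≤ n) : ¬ Forced G n := by
  rintro ⟨d, hd⟩
  obtain ⟨T, h1, h2, v, hv, hfin⟩ := h d
  obtain ⟨T', h3, h4, h5⟩ := extend hc hlf d T h2 n (h1.trans hn)
  have h6 := hd T' ⟨h4.ge, h5⟩
  have h7 := I_lt_card (h3 hv) (hfin.subset (cell_anti h3 v))
  omega

theorem survival_lt_of_surround [Infinite V] (hc : G.Connected) (hlf : LocFinite G) (m : ℕ)
    (h : ∀ d : ℕ, ∃ T : Finset V, T.card ≤ m + 1 ∧ (∀ x ∈ T, ∀ y ∈ T, x ≠ y → d < G.dist x y) ∧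
      ∃ v ∈ T, (Cell G T v).Finite) : survival G ≤ m := by
  apply sSup_le
  rintro _ ⟨n, _, rfl, hn⟩
  by_contra hcon
  rw [not_le] at hcon
  have : m < n := by exact_mod_cast hcon
  exact not_forced_of_surround hc hlf (m + 1) h n this hn

theorem le_survival {n : ℕ} (hn : 1 ≤ n) (h : Forced G n) : (n : ℕ∞) ≤ survival G :=
  le_sSup ⟨n, hn, rfl, h⟩

theorem survival_eq_top (h : ∀ n : ℕ, ∃ m : ℕ, n ≤ m ∧ 1 ≤ m ∧ Forced G m) : survival G = ⊤ := by
  rw [ENat.eq_top_iff_forall_ge]
  intro n
  obtain ⟨m, hnm, h1, hm⟩ := h n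
  exact le_trans (by exact_mod_cast hnm) (le_survival h1 hm)

/-- Every vertex lies in the cell of some site. -/
theorem exists_cell {T : Finset V} (hT : T.Nonempty) (u : V) : ∃ v ∈ T, u ∈ Cell G T v := by
  obtain ⟨v, hv, hmin⟩ := T.exists_min_image (fun w => G.dist u w) hT
  exact ⟨v, hv, fun w hw => hmin w hw⟩

/-- There is at least one infinite cell. -/
theorem exists_infinite_cell [Infinite V] {T : Finset V} (hT : T.Nonempty) :
    ∃ v ∈ T, (Cell G T v).Infinite := by
  by_contra hcon
  push Not at hcon
  have : (⋃ v ∈ T, Cell G T v).Finite := by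
    apply Set.Finite.biUnion T.finite_toSet
    intro v hv
    exact hcon v hv
  have h2 : (⋃ v ∈ T, Cell G T v) = Set.univ := by
    ext u
    simp only [Set.mem_iUnion, Set.mem_univ, iff_true]
    obtain ⟨v, hv, hu⟩ := exists_cell (G := G) hT u
    exact ⟨v, hv, hu⟩
  rw [h2] at this
  exact Set.infinite_univ this

/-- If infinitely many vertices avoid the cell of `v`, some other cell is infinite. -/
theorem exists_infinite_cell_ne {T : Finset V} (hT : T.Nonempty) (v : V)
    (h : {u | u ∉ Cell G T v}.Infinite) : ∃ w ∈ T, w ≠ v ∧ (Cell G T w).Infinite := by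
  classical
  by_contra hcon
  push Not at hcon
  have : (⋃ w ∈ T.erase v, Cell G T w).Finite := by
    apply Set.Finite.biUnion (T.erase v).finite_toSet
    intro w hw
    exact hcon w (Finset.mem_of_mem_erase hw) (Finset.ne_of_mem_erase hw)
  refine h (this.subset ?_)
  intro u hu
  obtain ⟨w, hw, huw⟩ := exists_cell (G := G) hT u
  simp only [Set.mem_iUnion]
  refine ⟨w, Finset.mem_erase.mpr ⟨?_, hw⟩, huw⟩
  rintro rfl
  exact hu huw

theorem walk_invariant {v : V} (P : ℕ → V → Prop) (h0 : P 0 v)
    (hstep : ∀ n u w, P n u → G.Adj u w → P (n + 1) w) :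
    ∀ (n : ℕ) (u : V) (p : G.Walk u v), p.length = n → P n u := by
  intro n
  induction n with
  | zero =>
    intro u p hp
    have := Walk.eq_of_length_eq_zero hp
    rw [this]; exact h0
  | succ n ih =>
    intro u p hp
    cases p with
    | nil => simp at hp
    | cons hadj q =>
      simp only [Walk.length_cons, add_left_inj] at hp
      exact hstep n _ _ (ih _ q hp) hadj.symm

theorem dist_invariant {v : V} (hc : G.Connected) (P : ℕ → V → Prop) (h0 : P 0 v)
    (hstep : ∀ n u w, P n u → G.Adj u w → P (n + 1) w) (u : V) : P (G.dist u v) u := by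
  obtain ⟨p, hp⟩ := (hc.preconnected u v).exists_walk_length_eq_dist
  exact walk_invariant P h0 hstep _ u p hp

theorem dist_iso_le {W : Type*} {H : SimpleGraph W} (hc : G.Connected) (φ : G →g H) (u v : V) :
    H.dist (φ u) (φ v) ≤ G.dist u v := by
  obtain ⟨p, hp⟩ := (hc.preconnected u v).exists_walk_length_eq_dist
  rw [← hp, ← Walk.length_map φ p]
  exact SimpleGraph.dist_le _

theorem dist_iso (hc : G.Connected) (φ : G ≃g G) (u v : V) :
    G.dist (φ u) (φ v) = G.dist u v := by
  apply le_antisymm (dist_iso_le hc φ.toHom u v)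
  have := dist_iso_le hc φ.symm.toHom (φ u) (φ v)
  simpa using this

/-- Linear growth: the balls around every vertex have size bounded by a linear function. -/
def LinearGrowth (G : SimpleGraph V) : Prop :=
  ∃ a b : ℕ, ∀ (v : V) (r : ℕ), {u | G.dist u v ≤ r}.encard ≤ ((a * r + b : ℕ) : ℕ∞)

end Pool.Agent.V11118.Survival
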