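import Pool.Agent.V11118.Products

/-!
The 3-regular tree, as pairs `(p, A)` with `p ∈ ℤ` and `A` a finite set of integers `< p`.
-/

namespace Pool.Agent.V11118.Tree

open SimpleGraph Pool.Agent.V11118.Survival Pool.Agent.V11118.Products

/-- Vertices of the tree. -/
@[ext] structure TV : Type where
  p : ℤ
  A : Finset ℤ
  lt : ∀ x ∈ A, x < p

/-- `w` is a child of `u`: one level up, same restriction below `u.p`. -/
def Child (u w : TV) : Prop := w.p = u.p + 1 ∧ ∀ x, x < u.p → (x ∈ w.A ↔ x ∈ u.A)

/-- The 3-regular tree. -/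
def TG : SimpleGraph TV where
  Adj u w := Child u w ∨ Child w u
  symm := ⟨fun _ _ h => h.symm⟩
  loopless := ⟨fun u h => by
    rcases h with h | h <;> exact absurd h.1 (by omega)⟩

/-- The parent. -/
def parent (u : TV) : TV := ⟨u.p - 1, u.A.filter (· < u.p - 1), by simp⟩

/-- First child. -/
def c0 (u : TV) : TV := ⟨u.p + 1, u.A, fun x hx => by have := u.lt x hx; omega⟩

/-- Second child. -/
def c1 (u : TV) : TV := ⟨u.p + 1, insert u.p u.A, fun x hx => by
  rcases Finset.mem_insert.mp hx with rfl | hx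
  · omega
  · have := u.lt x hx; omega⟩

theorem child_parent (u : TV) : Child (parent u) u := by
  refine ⟨by simp [parent], fun x hx => ?_⟩
  simp only [parent, Finset.mem_filter] at hx ⊢
  tauto

theorem child_c0 (u : TV) : Child u (c0 u) := ⟨rfl, fun x _ => Iff.rfl⟩

theorem child_c1 (u : TV) : Child u (c1 u) := by
  refine ⟨rfl, fun x hx => ?_⟩
  simp only [c1, Finset.mem_insert]
  constructor
  · rintro (h | h)
    · omega
    · exact h
  · exact Or.inr

theorem parent_of_child {u w : TV} (h : Child u w) : u = parent w := by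
  obtain ⟨h1, h2⟩ := h
  ext x
  · simp [parent, h1]
  · simp only [parent, Finset.mem_filter]
    constructor
    · intro hx
      have := u.lt x hx
      exact ⟨(h2 x this).mpr hx, by omega⟩
    · rintro ⟨hx, hlt⟩
      exact (h2 x (by omega)).mp hx

theorem child_cases {u w : TV} (h : Child u w) : w = c0 u ∨ w = c1 u := by
  obtain ⟨h1, h2⟩ := h
  by_cases hp : u.p ∈ w.A
  · right
    ext x
    · simp [c1, h1]
    · simp only [c1, Finset.mem_insert]
      constructor
      · intro hx
        have := w.lt x hx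
        by_cases hxp : x = u.p
        · exact Or.inl hxp
        · exact Or.inr ((h2 x (by omega)).mp hx)
      · rintro (rfl | hx)
        · exact hp
        · exact (h2 x (u.lt x hx)).mpr hx
  · left
    ext x
    · simp [c0, h1]
    · simp only [c0]
      constructor
      · intro hx
        have := w.lt x hx
        have hne : x ≠ u.p := by rintro rfl; exact hp hx
        exact (h2 x (by omega)).mp hx
      · intro hx
        exact (h2 x (u.lt x hx)).mpr hx

theorem adj_iff {u w : TV} : TG.Adj u w ↔ w = parent u ∨ w = c0 u ∨ w = c1 u := by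
  constructor
  · rintro (h | h)
    · exact Or.inr (child_cases h)
    · exact Or.inl (parent_of_child h)
  · rintro (rfl | rfl | rfl)
    · exact Or.inr (child_parent u)
    · exact Or.inl (child_c0 u)
    · exact Or.inl (child_c1 u)

theorem locFinite : LocFinite TG := by
  intro u
  have : ({parent u, c0 u, c1 u} : Set TV).Finite := by simp
  refine this.subset ?_
  intro w hw
  rw [mem_neighborSet, adj_iff] at hw
  simpa using hw

/-- Cutting `u` down to level `u.p - k`. -/
def down (u : TV) (k : ℕ) : TV := ⟨u.p - k, u.A.filter (· < u.p - k), by simp⟩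

theorem down_zero (u : TV) : down u 0 = u := by
  ext x
  · simp [down]
  · simp only [down, Finset.mem_filter, Nat.cast_zero, sub_zero]
    exact ⟨fun h => h.1, fun h => ⟨h, u.lt x h⟩⟩

theorem adj_down (u : TV) (k : ℕ) : TG.Adj (down u k) (down u (k + 1)) := by
  right
  refine ⟨by simp only [down]; push_cast; ring, fun x hx => ?_⟩
  simp only [down, Finset.mem_filter] at hx ⊢
  push_cast at hx ⊢
  constructor
  · rintro ⟨h1, h2⟩; exact ⟨h1, hx⟩
  · rintro ⟨h1, h2⟩; exact ⟨h1, by omega⟩

theorem walk_down (u : TV) (k : ℕ) : ∃ p : TG.Walk u (down u k), p.length = k := by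
  induction k with
  | zero =>
    rw [down_zero]
    exact ⟨Walk.nil, by simp⟩
  | succ k ih =>
    obtain ⟨p, hp⟩ := ih
    exact ⟨p.concat (adj_down u k), by simp [hp]⟩

theorem down_eq_empty (u : TV) : ∃ N : ℕ, ∀ k : ℕ, N ≤ k → (down u k).A = ∅ := by
  obtain ⟨B, hB⟩ : ∃ B : ℕ, ∀ y ∈ u.A, (y.natAbs : ℕ) ≤ B := by
    refine ⟨∑ y ∈ u.A, y.natAbs, fun y hy => ?_⟩
    exact Finset.single_le_sum (f := fun y : ℤ => y.natAbs) (fun _ _ => Nat.zero_le _) hy
  refine ⟨B + u.p.natAbs + 1, fun k hk => ?_⟩
  rw [Finset.eq_empty_iff_forall_notMem]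
  intro x hx
  simp only [down, Finset.mem_filter] at hx
  have := hB x hx.1
  omega

theorem connected : TG.Connected := by
  have : Nonempty TV := ⟨⟨0, ∅, by simp⟩⟩
  refine ⟨fun u w => ?_⟩
  obtain ⟨N, hN⟩ := down_eq_empty u
  obtain ⟨M, hM⟩ := down_eq_empty w
  -- common level
  obtain ⟨k, l, hk, hl, hkl⟩ : ∃ k l : ℕ, N ≤ k ∧ M ≤ l ∧ u.p - k = w.p - l := by
    refine ⟨N + M + (u.p - w.p).toNat, N + M + (w.p - u.p).toNat, by omega, by omega, by omega⟩
  obtain ⟨p, _⟩ := walk_down u k
  obtain ⟨q, _⟩ := walk_down w l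
  have he : down u k = down w l := by
    ext x
    · simp [down, hkl]
    · rw [hN k hk, hM l hl]
  exact p.reachable.trans (he ▸ q.reachable.symm)

/-- Shift. -/
def shift (c : ℤ) : TG ≃g TG where
  toFun u := ⟨u.p + c, u.A.image (· + c), by
    intro x hx
    obtain ⟨y, hy, rfl⟩ := Finset.mem_image.mp hx
    have := u.lt y hy
    omega⟩
  invFun u := ⟨u.p - c, u.A.image (· - c), by
    intro x hx
    obtain ⟨y, hy, rfl⟩ := Finset.mem_image.mp hx
    have := u.lt y hy
    omega⟩
  left_inv u := by
    ext x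
    · simp
    · simp only [Finset.mem_image]
      constructor
      · rintro ⟨y, ⟨z, hz, rfl⟩, rfl⟩; simpa using hz
      · intro h; exact ⟨x + c, ⟨x, h, rfl⟩, by ring⟩
  right_inv u := by
    ext x
    · simp
    · simp only [Finset.mem_image]
      constructor
      · rintro ⟨y, ⟨z, hz, rfl⟩, rfl⟩; simpa using hz
      · intro h; exact ⟨x - c, ⟨x, h, rfl⟩, by ring⟩
  map_rel_iff' := by
    have key : ∀ u w : TV, (∀ x, x < u.p + c → (x ∈ w.A.image (· + c) ↔ x ∈ u.A.image (· + c))) ↔
        (∀ x, x < u.p → (x ∈ w.A ↔ x ∈ u.A)) := by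
      intro u w
      have hmem : ∀ (S : Finset ℤ) (x : ℤ), x ∈ S.image (· + c) ↔ x - c ∈ S := by
        intro S x
        simp only [Finset.mem_image]
        constructor
        · rintro ⟨y, hy, rfl⟩; simpa using hy
        · intro h; exact ⟨x - c, h, by ring⟩
      constructor
      · intro h x hx
        have := h (x + c) (by omega)
        rw [hmem, hmem] at this
        simpa using this
      · intro h x hx
        rw [hmem, hmem]
        exact h (x - c) (by omega)
    intro u w
    simp only [TG, Child, Equiv.coe_fn_mk]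
    rw [key u w, key w u]
    have h1 : w.p + c = u.p + c + 1 ↔ w.p = u.p + 1 := by omega
    have h2 : u.p + c = w.p + c + 1 ↔ u.p = w.p + 1 := by omega
    rw [h1, h2]

/-- Toggling by a finite set. -/
def toggle (B : Finset ℤ) : TG ≃g TG where
  toFun u := ⟨u.p, symmDiff u.A (B.filter (· < u.p)), by
    intro x hx
    rw [Finset.mem_symmDiff, Finset.mem_filter] at hx
    rcases hx with ⟨h, _⟩ | ⟨⟨_, h⟩, _⟩
    · exact u.lt x h
    · exact h⟩
  invFun u := ⟨u.p, symmDiff u.A (B.filter (· < u.p)), by
    intro x hx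
    rw [Finset.mem_symmDiff, Finset.mem_filter] at hx
    rcases hx with ⟨h, _⟩ | ⟨⟨_, h⟩, _⟩
    · exact u.lt x h
    · exact h⟩
  left_inv u := by
    ext x
    · rfl
    · simp
  right_inv u := by
    ext x
    · rfl
    · simp
  map_rel_iff' := by
    intro u w
    have key : ∀ u w : TV, u.p ≤ w.p → ((∀ x, x < u.p → (x ∈ symmDiff w.A (B.filter (· < w.p)) ↔
        x ∈ symmDiff u.A (B.filter (· < u.p)))) ↔ (∀ x, x < u.p → (x ∈ w.A ↔ x ∈ u.A))) := by
      intro u w hle
      constructor
      · intro h x hx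
        have := h x hx
        simp only [Finset.mem_symmDiff, Finset.mem_filter] at this
        have h1 : x < w.p := by omega
        by_cases hB : x ∈ B <;> simp [hB, hx, h1] at this <;> tauto
      · intro h x hx
        have := h x hx
        simp only [Finset.mem_symmDiff, Finset.mem_filter]
        have h1 : x < w.p := by omega
        by_cases hB : x ∈ B <;> simp [hB, hx, h1] <;> tauto
    simp only [TG, Child, Equiv.coe_fn_mk]
    constructor
    · rintro (⟨h1, h2⟩ | ⟨h1, h2⟩)
      · exact Or.inl ⟨h1, (key u w (by omega)).mp h2⟩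
      · exact Or.inr ⟨h1, (key w u (by omega)).mp h2⟩
    · rintro (⟨h1, h2⟩ | ⟨h1, h2⟩)
      · exact Or.inl ⟨h1, (key u w (by omega)).mpr h2⟩
      · exact Or.inr ⟨h1, (key w u (by omega)).mpr h2⟩

theorem vertexTransitive : VertexTransitive TG := by
  have key : ∀ u : TV, ∃ φ : TG ≃g TG, φ ⟨0, ∅, by simp⟩ = u := by
    intro u
    refine ⟨(shift u.p).trans (toggle u.A), ?_⟩
    ext x
    · simp [shift, toggle]
    · simp only [RelIso.trans_apply, shift, toggle, RelIso.coe_fn_mk, Equiv.coe_fn_mk,
        Finset.image_empty, zero_add, Finset.mem_symmDiff, Finset.notMem_empty, false_and,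
        not_false_eq_true, and_true, false_or, Finset.mem_filter]
      exact ⟨fun h => h.1, fun h => ⟨h, u.lt x h⟩⟩
  intro u v
  obtain ⟨φ, hφ⟩ := key u
  obtain ⟨ψ, hψ⟩ := key v
  refine ⟨φ.symm.trans ψ, ?_⟩
  rw [← hφ, ← hψ]
  simp

end Pool.Agent.V11118.Tree
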